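import Mathlib

/-!
A self-affine set with product digits is a product, and a product with connected interior is a
box.
-/

open Set Filter Topology
open scoped Pointwise

namespace Pool.Agent.PolyTile

variable {E : Type*} [NormedAddCommGroup E] [NormedSpace ℝ E] [FiniteDimensional ℝ E]

/-- A self-affine set with product digits is determined by its coordinates. -/
theorem mem_of_coords {d : ℕ} (e : Module.Basis (Fin d) ℝ E) {M : E ≃ₗ[ℝ] E} {S : Finset E}
    {P : Set E} (hPc : IsCompact P) (hPne : P.Nonempty) (heq : M '' P = P + (S : Set E))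
    {n : Fin d → ℕ} (hn : ∀ i, 2 ≤ n i) (hM : ∀ i, M (e i) = (n i : ℝ) • e i)
    {T : Fin d → Finset ℝ} {σ0 : E}
    (hS1 : ∀ t : Fin d → ℝ, (∀ i, t i ∈ T i) → σ0 + ∑ i, t i • e i ∈ S)
    (hS2 : ∀ s ∈ S, ∃ t : Fin d → ℝ, (∀ i, t i ∈ T i) ∧ s = σ0 + ∑ i, t i • e i)
    {x : E} (hx : ∀ i, ∃ p ∈ P, e.repr p i = e.repr x i) : x ∈ P := by
  let φ := e.equivFunL
  have hφ : ∀ x i, φ x i = e.repr x i := fun x i => rfl
  have hφM : ∀ x i, e.repr (M x) i = n i * e.repr x i := by
    intro x i
    conv_lhs => rw [← e.sum_repr x]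
    rw [map_sum, map_sum, Finsupp.finsetSum_apply, Finset.sum_eq_single i]
    · rw [map_smul, hM, map_smul, map_smul, Finsupp.smul_apply, Finsupp.smul_apply,
        Module.Basis.repr_self, Finsupp.single_eq_same]
      simp only [smul_eq_mul, mul_one]
      ring
    · intro j _ hj
      rw [map_smul, hM, map_smul, map_smul, Finsupp.smul_apply, Finsupp.smul_apply,
        Module.Basis.repr_self, Finsupp.single_eq_of_ne (Ne.symm hj)]
      simp
    · intro h; exact absurd (Finset.mem_univ _) h
  have hsum : ∀ (t : Fin d → ℝ) i, e.repr (σ0 + ∑ j, t j • e j) i = e.repr σ0 i + t i := by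
    intro t i
    rw [map_add, Finsupp.add_apply]
    congr 1
    have := e.repr_sum_self t
    exact congrFun this i
  obtain ⟨C, hC⟩ : ∃ C : ℝ, ∀ x ∈ P, ∀ i, |e.repr x i| ≤ C := by
    obtain ⟨C, hC⟩ := (hPc.image φ.continuous).isBounded.exists_norm_le
    refine ⟨C, fun x hx i => ?_⟩
    have h1 := hC _ (mem_image_of_mem _ hx)
    exact (norm_le_pi_norm (φ x) i).trans h1
  have hclaim : ∀ k : ℕ, ∀ x : E, (∀ i, ∃ p ∈ P, e.repr p i = e.repr x i) →
      ∃ y ∈ P, ∀ i, |e.repr x i - e.repr y i| ≤ 2 * C / 2 ^ k := by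
    intro k
    induction k with
    | zero =>
      intro x hx
      obtain ⟨p, hp⟩ := hPne
      refine ⟨p, hp, fun i => ?_⟩
      obtain ⟨q, hq, hqx⟩ := hx i
      rw [← hqx, pow_zero, div_one]
      have h1 := hC q hq i
      have h2 := hC p hp i
      have h3 := abs_sub (e.repr q i) (e.repr p i)
      linarith
    | succ k ih =>
      intro x hx
      choose p hp hpx using hx
      have h1 : ∀ i, ∃ y ∈ P, ∃ t ∈ T i, n i * e.repr x i = e.repr y i + (e.repr σ0 i + t) := by
        intro i
        have h2 : M (p i) ∈ P + (S : Set E) := by rw [← heq]; exact ⟨p i, hp i, rfl⟩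
        obtain ⟨y, hy, s, hs, hys⟩ := h2
        obtain ⟨t, ht, rfl⟩ := hS2 s hs
        refine ⟨y, hy, t i, ht i, ?_⟩
        have hys' : y + (σ0 + ∑ i, t i • e i) = M (p i) := hys
        rw [← hpx, ← hφM, ← hys', map_add, Finsupp.add_apply, hsum]
      choose y hy t ht hyt using h1
      set s := σ0 + ∑ i, t i • e i with hs
      obtain ⟨y', hy', hy'x⟩ := ih (M x - s) (fun i => ⟨y i, hy i, by
        rw [map_sub, Finsupp.sub_apply, hφM, hyt, hs, hsum]; ring⟩)
      have h3 : y' + s ∈ M '' P := by rw [heq]; exact ⟨y', hy', s, hS1 t ht, rfl⟩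
      obtain ⟨z, hz, hzs⟩ := h3
      refine ⟨z, hz, fun i => ?_⟩
      have h4 := hy'x i
      have h5 : e.repr (M x - s) i - e.repr y' i = n i * (e.repr x i - e.repr z i) := by
        have h6 : y' = M z - s := by rw [hzs, add_sub_cancel_right]
        rw [h6, map_sub, map_sub, Finsupp.sub_apply, Finsupp.sub_apply, hφM, hφM]
        ring
      rw [h5, abs_mul, Nat.abs_cast] at h4
      have h6 : (2 : ℝ) ≤ n i := by exact_mod_cast hn i
      have h7 : 2 * |e.repr x i - e.repr z i| ≤ 2 * C / 2 ^ k :=
        (mul_le_mul_of_nonneg_right h6 (abs_nonneg _)).trans h4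
      rw [pow_succ, ← div_div]
      linarith
  choose y hyP hyx using fun k => hclaim k x hx
  have hlim : Tendsto (fun k => φ (y k)) atTop (𝓝 (φ x)) := by
    rw [tendsto_pi_nhds]
    intro i
    rw [tendsto_iff_dist_tendsto_zero]
    refine squeeze_zero (fun k => dist_nonneg) (fun k => ?_)
      (?_ : Tendsto (fun k : ℕ => 2 * C / 2 ^ k) atTop (𝓝 0))
    · rw [dist_comm, Real.dist_eq]
      exact hyx k i
    · have h1 := (tendsto_pow_atTop_nhds_zero_of_lt_one (r := (1 / 2 : ℝ)) (by norm_num)
        (by norm_num)).const_mul (2 * C)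
      rw [mul_zero] at h1
      refine h1.congr fun k => ?_
      rw [one_div, inv_pow]; rfl
  have hlim2 : Tendsto y atTop (𝓝 x) := by
    have := (φ.symm.continuous.tendsto (φ x)).comp hlim
    simpa [Function.comp_def] using this
  exact hPc.isClosed.mem_of_tendsto hlim2 (Filter.Eventually.of_forall hyP)

/-- A product with connected interior is a box. -/
theorem box_of_coords {d : ℕ} (e : Module.Basis (Fin d) ℝ E) {P : Set E} (hPc : IsCompact P)
    (hcl : P = closure (interior P)) (hconn : IsConnected (interior P))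
    (hprod : ∀ x, (∀ i, ∃ p ∈ P, e.repr p i = e.repr x i) → x ∈ P) :
    ∃ a b : Fin d → ℝ, (∀ i, a i < b i) ∧ P = {x | ∀ i, e.repr x i ∈ Icc (a i) (b i)} := by
  let φ := e.equivFunL
  let A : Fin d → Set ℝ := fun i => (fun x => φ x i) '' P
  have hφi : ∀ i, Continuous fun x => φ x i := fun i => (continuous_apply i).comp φ.continuous
  have hPA : P = φ ⁻¹' (univ.pi A) := by
    ext x
    constructor
    · intro hx
      exact fun i _ => ⟨x, hx, rfl⟩
    · intro hx
      refine hprod x fun i => ?_
      obtain ⟨p, hp, hpx⟩ := hx i (mem_univ i)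
      exact ⟨p, hp, hpx⟩
  have hint : interior P = φ ⁻¹' (univ.pi fun i => interior (A i)) := by
    have h1 := φ.toHomeomorph.preimage_interior (univ.pi A)
    rw [interior_pi_set finite_univ] at h1
    rw [hPA]
    exact h1.symm
  have hcl' : closure (interior P) = φ ⁻¹' (univ.pi fun i => closure (interior (A i))) := by
    have h1 := φ.toHomeomorph.preimage_closure (univ.pi fun i => interior (A i))
    rw [closure_pi_set] at h1
    rw [hint]
    exact h1.symm
  have hpre : ∀ (s : Set (Fin d → ℝ)), φ '' (φ ⁻¹' s) = s := fun s =>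
    image_preimage_eq s φ.surjective
  have hne : (univ.pi fun i => interior (A i)).Nonempty := by
    obtain ⟨x, hx⟩ := hconn.nonempty
    rw [hint] at hx
    exact ⟨φ x, hx⟩
  have hAcl : ∀ i, A i = closure (interior (A i)) := by
    intro i
    have h1 : univ.pi A = univ.pi fun i => closure (interior (A i)) := by
      rw [← hpre (univ.pi A), ← hPA, ← hpre (univ.pi fun i => closure (interior (A i))), ← hcl',
        ← hcl]
    have hneA : (univ.pi A).Nonempty := hne.mono (pi_mono fun i _ => interior_subset)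
    have hneC : (univ.pi fun i => closure (interior (A i))).Nonempty := h1 ▸ hneA
    have h2 := eval_image_univ_pi (i := i) hneA
    have h3 := eval_image_univ_pi (i := i) hneC
    exact h2.symm.trans ((congrArg (fun s => (fun f : Fin d → ℝ => f i) '' s) h1).trans h3)
  have hAconn : ∀ i, IsConnected (interior (A i)) := by
    intro i
    have h1 : (fun x => φ x i) '' interior P = interior (A i) := by
      rw [hint]
      have h2 : (fun x => φ x i) '' (φ ⁻¹' (univ.pi fun i => interior (A i))) =
          Function.eval i '' (φ '' (φ ⁻¹' (univ.pi fun i => interior (A i)))) := by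
        rw [image_image]
      rw [h2, hpre]
      exact eval_image_univ_pi hne
    rw [← h1]
    exact hconn.image _ (hφi i).continuousOn
  have hAcomp : ∀ i, IsCompact (A i) := fun i => hPc.image (hφi i)
  have hAIcc : ∀ i, A i = Icc (sInf (A i)) (sSup (A i)) := by
    intro i
    refine eq_Icc_of_connected_compact ?_ (hAcomp i)
    rw [hAcl i]
    exact (hAconn i).closure
  refine ⟨fun i => sInf (A i), fun i => sSup (A i), fun i => ?_, ?_⟩
  · by_contra hcon
    push Not at hcon
    have h1 := (hAconn i).nonempty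
    rw [hAIcc i, interior_Icc, Ioo_eq_empty (not_lt.2 hcon)] at h1
    exact not_nonempty_empty h1
  · conv_lhs => rw [hPA]
    ext x
    simp only [mem_preimage, mem_univ_pi, mem_ofPred_eq]
    refine forall_congr' fun i => ?_
    rw [← hAIcc i]
    rfl

/-- A box is the affine image of the unit cube. -/
theorem cube_of_box {d : ℕ} (e : Module.Basis (Fin d) ℝ (Fin d → ℝ)) {a b : Fin d → ℝ}
    (hab : ∀ i, a i < b i) :
    ∃ f : (Fin d → ℝ) ≃ᵃ[ℝ] (Fin d → ℝ),
      {x | ∀ i, e.repr x i ∈ Icc (a i) (b i)} = f '' Icc 0 1 := by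
  have hw : ∀ i, IsUnit (b i - a i) := fun i => (sub_pos.2 (hab i)).ne'.isUnit
  let e' := e.isUnitSMul hw
  let L : (Fin d → ℝ) ≃ₗ[ℝ] (Fin d → ℝ) := e'.equivFun.symm
  have hL : ∀ x, L x = ∑ i, (x i * (b i - a i)) • e i := by
    intro x
    simp only [L, Module.Basis.equivFun_symm_apply]
    refine Finset.sum_congr rfl fun i _ => ?_
    simp only [e', Module.Basis.isUnitSMul_apply]
    rw [smul_smul]
  let v : Fin d → ℝ := ∑ i, a i • e i
  let f : (Fin d → ℝ) ≃ᵃ[ℝ] (Fin d → ℝ) := L.toAffineEquiv.trans (AffineEquiv.constVAdd ℝ _ v)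
  have hf : ∀ x, f x = ∑ i, (a i + x i * (b i - a i)) • e i := by
    intro x
    have h1 : f x = v + L x := rfl
    rw [h1, hL]
    simp only [v]
    rw [← Finset.sum_add_distrib]
    refine Finset.sum_congr rfl fun i _ => ?_
    rw [add_smul]
  have hfr : ∀ x i, e.repr (f x) i = a i + x i * (b i - a i) := by
    intro x i
    rw [hf]
    exact congrFun (e.repr_sum_self fun i => a i + x i * (b i - a i)) i
  refine ⟨f, ?_⟩
  ext x
  constructor
  · intro hx
    refine ⟨fun i => (e.repr x i - a i) / (b i - a i), ⟨fun i => ?_, fun i => ?_⟩, ?_⟩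
    · exact div_nonneg (sub_nonneg.2 (hx i).1) (sub_pos.2 (hab i)).le
    · exact (div_le_one (sub_pos.2 (hab i))).2 (sub_le_sub_right (hx i).2 _)
    · apply e.repr.injective
      ext i
      rw [hfr, div_mul_cancel₀ _ (sub_pos.2 (hab i)).ne']
      ring
  · rintro ⟨y, ⟨hy0, hy1⟩, rfl⟩ i
    rw [hfr]
    have h1 := sub_pos.2 (hab i)
    have h2 : 0 ≤ y i := hy0 i
    have h3 : y i ≤ 1 := hy1 i
    constructor
    · nlinarith
    · nlinarith

end Pool.Agent.PolyTile
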