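import Mathlib

/-!
Germs of the indicator function of a polyhedral set, modulo germs which are invariant in some
direction, and the resulting finitely supported function.
-/

open Set Filter Topology MeasureTheory

namespace Pool.Agent.PolyTile

section Diff

variable {E : Type*} [AddCommGroup E]

/-- The difference operator. -/
def dop (u : E) (f : E → ℂ) : E → ℂ := fun x => f x - f (x + u)

/-- The iterated difference operator. -/
def dlist (us : List E) (f : E → ℂ) : E → ℂ := us.foldr dop f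

lemma dlist_cons (u : E) (us : List E) (f : E → ℂ) : dlist (u :: us) f = dop u (dlist us f) := rfl

lemma dop_comm (u v : E) (f : E → ℂ) : dop u (dop v f) = dop v (dop u f) := by
  funext x
  simp only [dop]
  rw [add_right_comm x u v]
  ring

lemma dlist_dop (us : List E) (v : E) (f : E → ℂ) : dlist us (dop v f) = dop v (dlist us f) := by
  induction us with
  | nil => rfl
  | cons u us ih => rw [dlist_cons, dlist_cons, ih, dop_comm]

lemma dlist_append (us vs : List E) (f : E → ℂ) : dlist (us ++ vs) f = dlist us (dlist vs f) := by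
  rw [dlist, List.foldr_append]; rfl

lemma dlist_comm (us vs : List E) (f : E → ℂ) :
    dlist us (dlist vs f) = dlist vs (dlist us f) := by
  induction vs with
  | nil => rfl
  | cons v vs ih => rw [dlist_cons, dlist_cons, dlist_dop, ih]

lemma dlist_add (us : List E) (f g : E → ℂ) : dlist us (f + g) = dlist us f + dlist us g := by
  induction us with
  | nil => rfl
  | cons u us ih =>
    rw [dlist_cons, dlist_cons, dlist_cons, ih]
    funext x
    simp only [dop, Pi.add_apply]
    ring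

lemma dlist_smul (us : List E) (c : ℂ) (f : E → ℂ) : dlist us (c • f) = c • dlist us f := by
  induction us with
  | nil => rfl
  | cons u us ih =>
    rw [dlist_cons, dlist_cons, ih]
    funext x
    simp only [dop, Pi.smul_apply, smul_eq_mul]
    ring

/-- The list of the sums over nonempty sublists. -/
def npsum : List E → List E
  | [] => []
  | u :: us => npsum us ++ u :: (npsum us).map (· + u)

lemma dlist_eq_of_npsum (us : List E) (f : E → ℂ) (x : E) (h : ∀ y ∈ npsum us, f (x + y) = 0) :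
    dlist us f x = f x := by
  induction us generalizing x with
  | nil => rfl
  | cons u us ih =>
    rw [dlist_cons, dop]
    have h1 : dlist us f x = f x :=
      ih x fun y hy => h y (List.mem_append_left _ hy)
    have h2 : dlist us f (x + u) = f (x + u) := by
      refine ih (x + u) fun y hy => ?_
      rw [add_assoc, add_comm u y]
      exact h _ (List.mem_append_right _ (List.mem_cons_of_mem _ (List.mem_map_of_mem hy)))
    have h3 : f (x + u) = 0 := h u (List.mem_append_right _ List.mem_cons_self)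
    rw [h1, h2, h3, sub_zero]

end Diff

variable {E : Type*} [NormedAddCommGroup E] [NormedSpace ℝ E] [FiniteDimensional ℝ E]
  [MeasurableSpace E] [BorelSpace E] (μ : Measure E) [μ.IsAddHaarMeasure]

/-- Near `0` the function is invariant in some direction. -/
def LineInv (f : E → ℂ) : Prop :=
  ∃ r > 0, ∃ w : E, w ≠ 0 ∧ ∀ (x : E) (t : ℝ), ‖x‖ < r → ‖x + t • w‖ < r → f (x + t • w) = f x

/-- The function vanishes almost everywhere near `0`. -/
def NullAt (f : E → ℂ) : Prop := ∃ r > 0, ∀ᵐ x ∂μ, ‖x‖ < r → f x = 0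

/-- The span of the germs that are invariant in some direction. -/
def negl : Submodule ℂ (E → ℂ) := Submodule.span ℂ ({f | LineInv f} ∪ {f | NullAt μ f})

/-- Small differences in suitable directions vanish. -/
def Good (f : E → ℂ) : Prop :=
  ∃ ws : List E, (∀ w ∈ ws, w ≠ 0) ∧ ∃ ρ > 0, ∀ ts : List ℝ, ts.length = ws.length →
    (∀ t ∈ ts, |t| < ρ) → ∀ᵐ x ∂μ, ‖x‖ < ρ → dlist (List.zipWith (fun t w => t • w) ts ws) f x = 0

lemma ae_dlist {f : E → ℂ} {ρ : ℝ} (h : ∀ᵐ x ∂μ, ‖x‖ < ρ → f x = 0) (us : List E) :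
    ∀ᵐ x ∂μ, ‖x‖ + (us.map norm).sum < ρ → dlist us f x = 0 := by
  induction us with
  | nil =>
    filter_upwards [h] with x hx hxr
    rw [List.map_nil, List.sum_nil, add_zero] at hxr
    exact hx hxr
  | cons u us ih =>
    have h1 : ∀ᵐ x ∂μ, ‖x + u‖ + (us.map norm).sum < ρ → dlist us f (x + u) = 0 :=
      (quasiMeasurePreserving_add_right μ u).ae ih
    filter_upwards [ih, h1] with x h2 h3 hx
    rw [List.map_cons, List.sum_cons] at hx
    have h4 := norm_nonneg u
    have h5 := norm_add_le x u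
    rw [dlist_cons, dop, h2 (by linarith), h3 (by linarith), sub_zero]

lemma sum_norm_le {ρ : ℝ} (hρ : 0 ≤ ρ) (ts : List ℝ) (ws : List E) (ht : ∀ t ∈ ts, |t| < ρ) :
    ((List.zipWith (fun t w => t • w) ts ws).map norm).sum ≤ ρ * (ws.map norm).sum := by
  induction ts generalizing ws with
  | nil =>
    simp only [List.zipWith_nil_left, List.map_nil, List.sum_nil]
    refine mul_nonneg hρ (List.sum_nonneg fun x hx => ?_)
    obtain ⟨w, -, rfl⟩ := List.mem_map.1 hx
    exact norm_nonneg w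
  | cons t ts ih =>
    cases ws with
    | nil => simp
    | cons w ws =>
      simp only [List.zipWith_cons_cons, List.map_cons, List.sum_cons]
      have h1 := ih ws fun t ht' => ht t (List.mem_cons_of_mem _ ht')
      have h2 : ‖t • w‖ ≤ ρ * ‖w‖ := by
        rw [norm_smul, Real.norm_eq_abs]
        exact mul_le_mul_of_nonneg_right (ht t List.mem_cons_self).le (norm_nonneg w)
      rw [mul_add]
      exact add_le_add h2 h1

lemma good_add {f g : E → ℂ} (hf : Good μ f) (hg : Good μ g) : Good μ (f + g) := by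
  obtain ⟨ws, hws, ρ, hρ, h⟩ := hf
  obtain ⟨ws', hws', ρ', hρ', h'⟩ := hg
  have hsum : ∀ ws : List E, 0 ≤ (ws.map norm).sum := fun ws => List.sum_nonneg fun x hx => by
    obtain ⟨w, -, rfl⟩ := List.mem_map.1 hx
    exact norm_nonneg w
  set K := 1 + (ws.map norm).sum + (ws'.map norm).sum with hK
  have hK1 : 1 ≤ K := by have := hsum ws; have := hsum ws'; linarith
  set r := min ρ ρ' / K with hr
  have hr0 : 0 < r := div_pos (lt_min hρ hρ') (by linarith)
  have hrle : r ≤ min ρ ρ' := div_le_self (lt_min hρ hρ').le hK1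
  have hrK : r * K = min ρ ρ' := div_mul_cancel₀ _ (by linarith)
  refine ⟨ws ++ ws', ?_, r, hr0, ?_⟩
  · intro w hw
    rcases List.mem_append.1 hw with hw | hw
    · exact hws w hw
    · exact hws' w hw
  · intro ts hts htr
    obtain ⟨t1, t2, rfl, hl1, hl2⟩ : ∃ t1 t2 : List ℝ, ts = t1 ++ t2 ∧ t1.length = ws.length ∧
        t2.length = ws'.length := by
      refine ⟨ts.take ws.length, ts.drop ws.length, (List.take_append_drop _ _).symm, ?_, ?_⟩
      · rw [List.length_take, hts, List.length_append]; omega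
      · rw [List.length_drop, hts, List.length_append]; omega
    have ht1 : ∀ t ∈ t1, |t| < r := fun t ht => htr t (List.mem_append_left _ ht)
    have ht2 : ∀ t ∈ t2, |t| < r := fun t ht => htr t (List.mem_append_right _ ht)
    rw [List.zipWith_append hl1]
    set u1 := List.zipWith (fun t w => t • w) t1 ws with hu1
    set u2 := List.zipWith (fun t w => t • w) t2 ws' with hu2
    have e1 := h t1 hl1 fun t ht => (ht1 t ht).trans_le (hrle.trans (min_le_left _ _))
    have e2 := h' t2 hl2 fun t ht => (ht2 t ht).trans_le (hrle.trans (min_le_right _ _))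
    have f1 := ae_dlist μ e1 u2
    have f2 := ae_dlist μ e2 u1
    filter_upwards [f1, f2] with x g1 g2 hx
    have n1 := sum_norm_le hr0.le t1 ws ht1
    have n2 := sum_norm_le hr0.le t2 ws' ht2
    rw [dlist_append, dlist_add, dlist_add, Pi.add_apply]
    have m1 : ‖x‖ + (u2.map norm).sum < ρ := by
      have : ‖x‖ + (u2.map norm).sum < r * K := by
        rw [hK]
        have := hsum ws
        nlinarith
      linarith [min_le_left ρ ρ']
    have m2 : ‖x‖ + (u1.map norm).sum < ρ' := by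
      have : ‖x‖ + (u1.map norm).sum < r * K := by
        rw [hK]
        have := hsum ws'
        nlinarith
      linarith [min_le_right ρ ρ']
    rw [dlist_comm u1 u2 f, g1 m1, g2 m2, add_zero]

lemma good_of_mem {f : E → ℂ} (hf : f ∈ negl μ) : Good μ f := by
  induction hf using Submodule.span_induction with
  | mem f hf =>
    rcases hf with ⟨r, hr, w, hw, h⟩ | ⟨r, hr, h⟩
    · have hK : 0 < 1 + ‖w‖ := by have := norm_nonneg w; linarith
      refine ⟨[w], by simpa using hw, r / (1 + ‖w‖), div_pos hr hK, ?_⟩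
      intro ts hts htr
      obtain ⟨t, rfl⟩ := List.length_eq_one_iff.1 hts
      have ht : |t| < r / (1 + ‖w‖) := htr t List.mem_cons_self
      refine Filter.Eventually.of_forall fun x hx => ?_
      have hle : r / (1 + ‖w‖) ≤ r := div_le_self hr.le (by have := norm_nonneg w; linarith)
      have h1 : ‖x + t • w‖ < r := by
        have e1 : ‖x + t • w‖ ≤ ‖x‖ + |t| * ‖w‖ := by
          refine (norm_add_le _ _).trans ?_
          rw [norm_smul, Real.norm_eq_abs]
        have e2 : |t| * ‖w‖ ≤ r / (1 + ‖w‖) * ‖w‖ :=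
          mul_le_mul_of_nonneg_right ht.le (norm_nonneg w)
        have e3 : r / (1 + ‖w‖) + r / (1 + ‖w‖) * ‖w‖ = r := by field_simp
        linarith
      change f x - f (x + t • w) = 0
      rw [h x t (hx.trans_le hle) h1, sub_self]
    · refine ⟨[], by simp, r, hr, ?_⟩
      intro ts hts _
      rw [List.length_nil, List.length_eq_zero_iff] at hts
      rw [hts]
      exact h
  | zero =>
    refine ⟨[], by simp, 1, one_pos, ?_⟩
    intro ts hts _
    rw [List.length_nil, List.length_eq_zero_iff] at hts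
    rw [hts]
    exact Filter.Eventually.of_forall fun x _ => rfl
  | add f g _ _ hf hg => exact good_add μ hf hg
  | smul c f _ hf =>
    obtain ⟨ws, hws, ρ, hρ, h⟩ := hf
    refine ⟨ws, hws, ρ, hρ, fun ts hts htr => ?_⟩
    filter_upwards [h ts hts htr] with x hx hxr
    rw [dlist_smul, Pi.smul_apply, hx hxr, smul_zero]

omit [FiniteDimensional ℝ E] [MeasurableSpace E] [BorelSpace E] in
lemma exists_generic_ts (w₀ : E →ₗ[ℝ] ℝ) {ρ : ℝ} (hρ : 0 < ρ) (ws : List E)
    (hws : ∀ w ∈ ws, w ≠ 0) :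
    ∃ ts : List ℝ, ts.length = ws.length ∧ (∀ t ∈ ts, |t| < ρ) ∧
      ∀ y ∈ npsum (List.zipWith (fun t w => t • w) ts ws), y ≠ 0 ∧ 0 ≤ w₀ y := by
  induction ws with
  | nil => exact ⟨[], rfl, by simp, by simp [npsum]⟩
  | cons w ws ih =>
    obtain ⟨ts, hl, ht, hy⟩ := ih fun w hw => hws w (List.mem_cons_of_mem _ hw)
    have hw0 : w ≠ 0 := hws w List.mem_cons_self
    set Y := npsum (List.zipWith (fun t w => t • w) ts ws) with hY
    -- choose the sign
    obtain ⟨s, hs, hsw⟩ : ∃ s : ℝ, (s = 1 ∨ s = -1) ∧ 0 ≤ w₀ (s • w) := by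
      rcases le_total 0 (w₀ w) with h | h
      · exact ⟨1, Or.inl rfl, by rwa [one_smul]⟩
      · exact ⟨-1, Or.inr rfl, by rw [map_smul, smul_eq_mul]; linarith⟩
    have hs0 : s • w ≠ 0 := by
      rcases hs with rfl | rfl
      · rwa [one_smul]
      · rwa [neg_one_smul, neg_ne_zero]
    have hfin : (⋃ y ∈ {y | y ∈ Y}, {t : ℝ | y + t • (s • w) = 0}).Finite := by
      refine Set.Finite.biUnion (List.finite_toSet Y) fun y _ => Set.Subsingleton.finite ?_
      intro a ha b hb
      have h1 : a • (s • w) = b • (s • w) := by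
        have e1 : y + a • (s • w) = 0 := ha
        have e2 : y + b • (s • w) = 0 := hb
        exact add_left_cancel (e1.trans e2.symm)
      exact smul_left_injective ℝ hs0 h1
    obtain ⟨t, htI, htn⟩ := (Ioo_infinite hρ).exists_notMem_finset hfin.toFinset
    rw [Set.Finite.mem_toFinset] at htn
    have htn' : ∀ y ∈ Y, y + t • (s • w) ≠ 0 := fun y hy h => htn (mem_iUnion₂.2 ⟨y, hy, h⟩)
    refine ⟨(t * s) :: ts, by simp [hl], ?_, ?_⟩
    · intro a ha
      rcases List.mem_cons.1 ha with rfl | ha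
      · have : |t * s| = |t| := by
          rcases hs with rfl | rfl <;> simp
        rw [this, abs_of_pos htI.1]
        exact htI.2
      · exact ht a ha
    · intro y hyy
      rw [List.zipWith_cons_cons, npsum, ← hY] at hyy
      have hu : 0 ≤ w₀ ((t * s) • w) := by
        rw [mul_smul, map_smul, smul_eq_mul]
        exact mul_nonneg htI.1.le hsw
      rcases List.mem_append.1 hyy with h | h
      · exact hy y h
      · rcases List.mem_cons.1 h with rfl | h
        · refine ⟨?_, hu⟩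
          rw [mul_smul]
          exact smul_ne_zero htI.1.ne' hs0
        · obtain ⟨z, hz, rfl⟩ := List.mem_map.1 h
          refine ⟨?_, ?_⟩
          · rw [mul_smul]
            exact htn' z hz
          · rw [map_add]
            exact add_nonneg (hy z hz).2 hu

/-- At an exposed point the germ is not negligible. -/
lemma not_mem_negl {P : Set E} (hPc : IsClosed P) (hPi : P ⊆ closure (interior P)) {v : E}
    (hv : v ∈ P) {w₀ : E →ₗ[ℝ] ℝ} (hw : ∀ x ∈ P, x ≠ v → w₀ x < w₀ v) :
    (fun x => P.indicator (fun _ => (1 : ℂ)) (v + x)) ∉ negl μ := by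
  intro hmem
  obtain ⟨ws, hws, ρ, hρ, h⟩ := good_of_mem μ hmem
  obtain ⟨ts, hl, ht, hy⟩ := exists_generic_ts w₀ hρ ws hws
  set us := List.zipWith (fun t w => t • w) ts ws with hus
  have hae := h ts hl ht
  -- the open set where the difference is one
  let U : Set E := {x | ‖x‖ < ρ} ∩ {x | v + x ∈ interior P} ∩
    ⋂ y ∈ {y | y ∈ npsum us}, {x | v + (x + y) ∈ Pᶜ}
  have hW : IsOpen ({x | ‖x‖ < ρ} ∩ ⋂ y ∈ {y | y ∈ npsum us}, {x | v + (x + y) ∈ Pᶜ}) := by
    refine (isOpen_lt continuous_norm continuous_const).inter ?_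
    refine (List.finite_toSet (npsum us)).isOpen_biInter fun y _ => ?_
    exact hPc.isOpen_compl.preimage (by fun_prop)
  have h0 : (0 : E) ∈ ({x | ‖x‖ < ρ} ∩ ⋂ y ∈ {y | y ∈ npsum us}, {x | v + (x + y) ∈ Pᶜ}) := by
    refine ⟨by simpa using hρ, mem_iInter₂.2 fun y hyy => ?_⟩
    simp only [mem_ofPred_eq, zero_add, mem_compl_iff]
    intro hP
    have h1 := hw _ hP (by simpa using (hy y hyy).1)
    rw [map_add] at h1
    have h2 := (hy y hyy).2
    linarith
  have hUo : IsOpen U := by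
    have : U = ({x | ‖x‖ < ρ} ∩ ⋂ y ∈ {y | y ∈ npsum us}, {x | v + (x + y) ∈ Pᶜ}) ∩
        {x | v + x ∈ interior P} := by
      ext x; simp only [U, mem_inter_iff]; tauto
    rw [this]
    exact hW.inter (isOpen_interior.preimage (by fun_prop))
  have hUne : U.Nonempty := by
    have h1 : v ∈ closure (interior P) := hPi hv
    have h2 : {z | z - v ∈ ({x | ‖x‖ < ρ} ∩ ⋂ y ∈ {y | y ∈ npsum us}, {x | v + (x + y) ∈ Pᶜ})} ∈
        𝓝 v := by
      refine (hW.preimage (by fun_prop)).mem_nhds ?_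
      rw [mem_preimage, sub_self]
      exact h0
    obtain ⟨z, hz1, hz2⟩ := mem_closure_iff_nhds.1 h1 _ h2
    refine ⟨z - v, ⟨hz1.1, ?_⟩, hz1.2⟩
    simp only [mem_ofPred_eq]
    rwa [add_sub_cancel]
  have hpos : 0 < μ U := hUo.measure_pos μ hUne
  have hzero : μ U = 0 := by
    refine measure_mono_null ?_ hae
    rintro x ⟨⟨hx1, hx2⟩, hx3⟩
    simp only [mem_compl_iff, mem_ofPred_eq, Classical.not_imp]
    refine ⟨hx1, ?_⟩
    rw [dlist_eq_of_npsum]
    · rw [indicator_of_mem (interior_subset hx2)]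
      exact one_ne_zero
    · intro y hyy
      exact indicator_of_notMem (mem_iInter₂.1 hx3 y hyy) _
  rw [hzero] at hpos
  exact lt_irrefl _ hpos

/-- The polyhedron defined by a finite set of inequalities. -/
def HSet (C : Finset ((E →ₗ[ℝ] ℝ) × ℝ)) : Set E := {x | ∀ c ∈ C, c.1 x ≤ c.2}

omit [MeasurableSpace E] [BorelSpace E] in
lemma lineInv_of_inactive {𝒞 : Finset (Finset ((E →ₗ[ℝ] ℝ) × ℝ))} {z w : E} (hw : w ≠ 0)
    (h : ∀ C ∈ 𝒞, ∀ c ∈ C, c.1 z = c.2 → c.1 w = 0) :
    LineInv (fun x => (⋃ C ∈ 𝒞, HSet C).indicator (fun _ => (1 : ℂ)) (z + x)) := by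
  classical
  let A := 𝒞.biUnion id
  have hA : ∀ c ∈ A, ∀ᶠ x in 𝓝 (0 : E), c.1 z ≠ c.2 → (c.1 (z + x) ≤ c.2 ↔ c.1 z ≤ c.2) := by
    intro c _
    by_cases hc : c.1 z = c.2
    · exact Filter.Eventually.of_forall fun x h => absurd hc h
    · have hcont : Continuous fun x => c.1 (z + x) :=
        c.1.continuous_of_finiteDimensional.comp (by fun_prop)
      rcases lt_or_gt_of_ne hc with hlt | hgt
      · have : ∀ᶠ x in 𝓝 (0 : E), c.1 (z + x) < c.2 :=
          (hcont.tendsto' 0 (c.1 z) (by simp)).eventually_lt_const hlt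
        filter_upwards [this] with x hx _
        exact ⟨fun _ => hlt.le, fun _ => hx.le⟩
      · have : ∀ᶠ x in 𝓝 (0 : E), c.2 < c.1 (z + x) :=
          (hcont.tendsto' 0 (c.1 z) (by simp)).eventually_const_lt hgt
        filter_upwards [this] with x hx _
        exact ⟨fun h => absurd h (not_le.2 hx), fun h => absurd h (not_le.2 hgt)⟩
  have hA' : ∀ᶠ x in 𝓝 (0 : E), ∀ c ∈ A, c.1 z ≠ c.2 → (c.1 (z + x) ≤ c.2 ↔ c.1 z ≤ c.2) :=
    (Finset.eventually_all A).2 hA
  obtain ⟨r, hr, hball⟩ := Metric.eventually_nhds_iff.1 hA'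
  refine ⟨r, hr, w, hw, fun x t hx hxt => ?_⟩
  have key : z + (x + t • w) ∈ (⋃ C ∈ 𝒞, HSet C) ↔ z + x ∈ (⋃ C ∈ 𝒞, HSet C) := by
    simp only [mem_iUnion, HSet, mem_ofPred_eq]
    refine exists_congr fun C => exists_congr fun hC => forall₂_congr fun c hc => ?_
    have hcA : c ∈ A := Finset.mem_biUnion.2 ⟨C, hC, hc⟩
    by_cases hcz : c.1 z = c.2
    · have := h C hC c hc hcz
      rw [map_add, map_add, map_smul, this, smul_zero, add_zero, ← map_add]
    · rw [hball (by simpa using hxt) c hcA hcz, hball (by simpa using hx) c hcA hcz]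
  simp only
  by_cases hm : z + x ∈ (⋃ C ∈ 𝒞, HSet C)
  · rw [indicator_of_mem hm, indicator_of_mem (key.2 hm)]
  · rw [indicator_of_notMem hm, indicator_of_notMem (fun h => hm (key.1 h))]

omit [FiniteDimensional ℝ E] [MeasurableSpace E] [BorelSpace E] in
lemma finite_vertices (𝒞 : Finset (Finset ((E →ₗ[ℝ] ℝ) × ℝ))) :
    {z : E | ¬ ∃ w : E, w ≠ 0 ∧ ∀ C ∈ 𝒞, ∀ c ∈ C, c.1 z = c.2 → c.1 w = 0}.Finite := by
  classical
  let A := 𝒞.biUnion id
  have hinj : InjOn (fun z : E => A.filter fun c => c.1 z = c.2)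
      {z : E | ¬ ∃ w : E, w ≠ 0 ∧ ∀ C ∈ 𝒞, ∀ c ∈ C, c.1 z = c.2 → c.1 w = 0} := by
    intro z hz z' _ hzz
    by_contra hne
    apply hz
    refine ⟨z - z', sub_ne_zero.2 hne, fun C hC c hc hcz => ?_⟩
    have h1 : c ∈ A.filter fun c => c.1 z = c.2 :=
      Finset.mem_filter.2 ⟨Finset.mem_biUnion.2 ⟨C, hC, hc⟩, hcz⟩
    have hzz' : (A.filter fun c => c.1 z = c.2) = A.filter fun c => c.1 z' = c.2 := hzz
    rw [hzz'] at h1
    rw [map_sub, hcz, (Finset.mem_filter.1 h1).2, sub_self]
  refine Set.Finite.of_finite_image ?_ hinj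
  refine (A.powerset.finite_toSet).subset ?_
  rintro _ ⟨z, -, rfl⟩
  exact Finset.mem_coe.2 (Finset.mem_powerset.2 (Finset.filter_subset _ _))

/-- The finitely supported function attached to a self-affine polyhedral tile. -/
theorem exists_finsupp {𝒞 : Finset (Finset ((E →ₗ[ℝ] ℝ) × ℝ))} {P : Set E}
    (hP : P = ⋃ C ∈ 𝒞, HSet C) (hPc : IsClosed P) (hPi : P ⊆ closure (interior P)) {v : E}
    (hv : v ∈ P) {w₀ : E →ₗ[ℝ] ℝ} (hw : ∀ x ∈ P, x ≠ v → w₀ x < w₀ v) (M : E ≃ₗ[ℝ] E)
    (S : Finset E)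
    (hrel : ∀ᵐ x ∂μ, P.indicator (fun _ => (1 : ℂ)) (M.symm x) =
      ∑ s ∈ S, P.indicator (fun _ => (1 : ℂ)) (x - s)) :
    ∃ (F : E →₀ ℂ) (lam : ℂ), F ≠ 0 ∧ ∀ z, lam * F (M.symm z) = ∑ s ∈ S, F (z - s) := by
  classical
  let T : (E → ℂ) →ₗ[ℂ] (E → ℂ) := LinearMap.funLeft ℂ ℂ M.symm
  have hTv : ∀ f x, T f x = f (M.symm x) := fun f x => rfl
  have hT : negl μ ≤ (negl μ).comap T := by
    rw [negl, Submodule.span_le]
    have hcontM : Continuous M.symm := M.symm.toLinearMap.continuous_of_finiteDimensional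
    have hcont : ∀ r > 0, ∃ r' > 0, ∀ x : E, ‖x‖ < r' → ‖M.symm x‖ < r := by
      intro r hr
      have h1 : ∀ᶠ x in 𝓝 (0 : E), ‖M.symm x‖ < r := by
        have h2 : Tendsto (fun x => ‖M.symm x‖) (𝓝 0) (𝓝 0) :=
          (continuous_norm.comp hcontM).tendsto' 0 0 (by simp)
        exact h2.eventually_lt_const hr
      obtain ⟨r', hr', h3⟩ := Metric.eventually_nhds_iff.1 h1
      exact ⟨r', hr', fun x hx => h3 (by simpa using hx)⟩
    rintro f (⟨r, hr, w, hw, h⟩ | ⟨r, hr, h⟩)
    · refine Submodule.subset_span (Or.inl ?_)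
      obtain ⟨r', hr', h'⟩ := hcont r hr
      refine ⟨r', hr', M w, by simpa using hw, fun x t hx hxt => ?_⟩
      rw [hTv, hTv]
      have h1 : M.symm (x + t • M w) = M.symm x + t • w := by
        rw [map_add, map_smul, M.symm_apply_apply]
      rw [h1]
      refine h _ _ (h' x hx) ?_
      rw [← h1]
      exact h' _ hxt
    · refine Submodule.subset_span (Or.inr ?_)
      obtain ⟨r', hr', h'⟩ := hcont r hr
      refine ⟨r', hr', ?_⟩
      have hdet : LinearMap.det (M.symm : E →ₗ[ℝ] E) ≠ 0 :=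
        (LinearEquiv.isUnit_det' M.symm).ne_zero
      have hq := (MeasureTheory.Measure.LinearMap.quasiMeasurePreserving μ (M.symm : E →ₗ[ℝ] E) hdet).ae h
      filter_upwards [hq] with x hx hxr
      exact hx (h' x hxr)
  let Q := (E → ℂ) ⧸ negl μ
  let A : Q →ₗ[ℂ] Q := (negl μ).mapQ (negl μ) T hT
  let g : E → (E → ℂ) := fun z x => P.indicator (fun _ => (1 : ℂ)) (z + x)
  let Γ : E → Q := fun z => (negl μ).mkQ (g z)
  have hAΓ : ∀ z, A (Γ (M.symm z)) = ∑ s ∈ S, Γ (z - s) := by
    intro z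
    have h1 : A (Γ (M.symm z)) = (negl μ).mkQ (T (g (M.symm z))) := rfl
    rw [h1, ← map_sum, ← sub_eq_zero, ← map_sub, Submodule.mkQ_apply,
      Submodule.Quotient.mk_eq_zero]
    refine Submodule.subset_span (Or.inr ⟨1, one_pos, ?_⟩)
    have h2 := (quasiMeasurePreserving_add_left μ z).ae hrel
    filter_upwards [h2] with x hx _
    rw [Pi.sub_apply, hTv, Finset.sum_apply, sub_eq_zero]
    simp only [g]
    rw [← map_add, hx]
    refine Finset.sum_congr rfl fun s _ => ?_
    congr 1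
    abel
  have hΓ0 : ∀ z, (∃ w : E, w ≠ 0 ∧ ∀ C ∈ 𝒞, ∀ c ∈ C, c.1 z = c.2 → c.1 w = 0) → Γ z = 0 := by
    rintro z ⟨w, hw0, hw1⟩
    simp only [Γ]
    rw [Submodule.mkQ_apply, Submodule.Quotient.mk_eq_zero]
    refine Submodule.subset_span (Or.inl ?_)
    have := lineInv_of_inactive hw0 hw1
    rw [← hP] at this
    exact this
  have hfin := finite_vertices 𝒞
  have hrange : (range Γ).Finite := by
    refine ((hfin.image Γ).insert 0).subset ?_
    rintro _ ⟨z, rfl⟩
    by_cases hz : ∃ w : E, w ≠ 0 ∧ ∀ C ∈ 𝒞, ∀ c ∈ C, c.1 z = c.2 → c.1 w = 0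
    · rw [hΓ0 z hz]; exact mem_insert _ _
    · exact mem_insert_of_mem _ (mem_image_of_mem _ hz)
  let U : Submodule ℂ Q := Submodule.span ℂ (range Γ)
  have hUfin : FiniteDimensional ℂ U := FiniteDimensional.span_of_finite ℂ hrange
  have hΓU : ∀ z, Γ z ∈ U := fun z => Submodule.subset_span (mem_range_self z)
  have hAU : ∀ x ∈ U, A x ∈ U := by
    intro x hx
    have : U ≤ U.comap A := by
      simp only [U]
      rw [Submodule.span_le]
      rintro _ ⟨z, rfl⟩
      change A (Γ z) ∈ Submodule.span ℂ (range Γ)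
      rw [← M.symm_apply_apply z, hAΓ]
      exact Submodule.sum_mem _ fun s _ => hΓU _
    exact this hx
  let B : U →ₗ[ℂ] U := A.restrict hAU
  have hv0 : Γ v ≠ 0 := by
    intro h
    simp only [Γ] at h
    rw [Submodule.mkQ_apply, Submodule.Quotient.mk_eq_zero] at h
    exact not_mem_negl μ hPc hPi hv hw h
  have hUnt : Nontrivial U := ⟨⟨Γ v, hΓU v⟩, 0, fun h => hv0 (congrArg Subtype.val h)⟩
  obtain ⟨lam, hlam⟩ := Module.End.exists_eigenvalue (B.dualMap : Module.End ℂ (Module.Dual ℂ U))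
  obtain ⟨φ, hφ1, hφ2⟩ := hlam.exists_hasEigenvector
  rw [Module.End.mem_eigenspace_iff] at hφ1
  let Fn : E → ℂ := fun z => φ ⟨Γ z, hΓU z⟩
  have hsupp : (Function.support Fn).Finite := by
    refine hfin.subset ?_
    intro z hz hcon
    apply hz
    have : (⟨Γ z, hΓU z⟩ : U) = 0 := Subtype.ext (hΓ0 z hcon)
    simp only [Fn]
    rw [this, map_zero]
  refine ⟨Finsupp.ofSupportFinite Fn hsupp, lam, ?_, ?_⟩
  · intro h0
    apply hφ2
    have hz : ∀ z, Fn z = 0 := fun z => DFunLike.congr_fun h0 z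
    ext ⟨x, hx⟩
    change φ ⟨x, hx⟩ = 0
    induction hx using Submodule.span_induction with
    | mem x hx =>
      obtain ⟨z, rfl⟩ := hx
      exact hz z
    | zero => exact map_zero φ
    | add x y hx hy h1 h2 =>
      have : (⟨x + y, Submodule.add_mem _ hx hy⟩ : U) = ⟨x, hx⟩ + ⟨y, hy⟩ := rfl
      exact (congrArg φ this).trans (by rw [map_add, h1, h2, add_zero])
    | smul c x hx h1 =>
      have : (⟨c • x, Submodule.smul_mem _ c hx⟩ : U) = c • ⟨x, hx⟩ := rfl
      exact (congrArg φ this).trans (by rw [map_smul, h1, smul_zero])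
  · intro z
    change lam * Fn (M.symm z) = ∑ s ∈ S, Fn (z - s)
    have h1 : lam * Fn (M.symm z) = (lam • φ) ⟨Γ (M.symm z), hΓU _⟩ := rfl
    rw [h1, ← hφ1, LinearMap.dualMap_apply]
    have h2 : B ⟨Γ (M.symm z), hΓU _⟩ = ∑ s ∈ S, ⟨Γ (z - s), hΓU _⟩ := by
      apply Subtype.ext
      rw [Submodule.coe_sum]
      exact hAΓ z
    rw [h2, map_sum]

end Pool.Agent.PolyTile
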