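import Mathlib
import Pool.Agent.Lib.PolyTile.Germ

/-!
A convex polytope is a finite intersection of closed half-spaces (elimination of variables).
-/

open Set

namespace Pool.Agent.PolyTile

/-- Finitely generated cones are finite intersections of half-spaces. -/
lemma cone_hrep {W : Type*} [AddCommGroup W] [Module ℝ W] [FiniteDimensional ℝ W] {ι : Type*}
    (s : Finset ι) (v : ι → W) :
    ∃ I : Finset (W →ₗ[ℝ] ℝ), ∀ y, (∃ c : ι → ℝ, (∀ i ∈ s, 0 ≤ c i) ∧ y = ∑ i ∈ s, c i • v i) ↔
      ∀ f ∈ I, f y ≤ 0 := by
  classical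
  induction s using Finset.induction_on with
  | empty =>
    let b := Module.finBasis ℝ W
    refine ⟨Finset.univ.image (fun i => b.coord i) ∪ Finset.univ.image (fun i => -b.coord i),
      fun y => ?_⟩
    constructor
    · rintro ⟨c, -, rfl⟩ f _
      simp
    · intro h
      refine ⟨fun _ => 0, by simp, ?_⟩
      rw [Finset.sum_empty]
      apply b.ext_elem
      intro i
      have h1 : b.coord i y ≤ 0 :=
        h _ (Finset.mem_union_left _ (Finset.mem_image_of_mem _ (Finset.mem_univ i)))
      have h2 : (-b.coord i) y ≤ 0 :=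
        h _ (Finset.mem_union_right _ (Finset.mem_image_of_mem (fun i => -b.coord i)
          (Finset.mem_univ i)))
      rw [LinearMap.neg_apply] at h2
      rw [Module.Basis.coord_apply] at h1 h2
      rw [map_zero, Finsupp.zero_apply]
      linarith
  | insert a s ha ih =>
    obtain ⟨I, hI⟩ := ih
    have hstep : ∀ y, (∃ c : ι → ℝ, (∀ i ∈ insert a s, 0 ≤ c i) ∧
        y = ∑ i ∈ insert a s, c i • v i) ↔ ∃ t : ℝ, 0 ≤ t ∧ ∀ f ∈ I, f y - t * f (v a) ≤ 0 := by
      intro y
      constructor
      · rintro ⟨c, hc, hy⟩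
        refine ⟨c a, hc a (Finset.mem_insert_self _ _), fun f hf => ?_⟩
        have h1 := (hI (y - c a • v a)).1 ⟨c, fun i hi => hc i (Finset.mem_insert_of_mem hi), by
          rw [hy, Finset.sum_insert ha, add_sub_cancel_left]⟩ f hf
        rw [map_sub, map_smul, smul_eq_mul] at h1
        exact h1
      · rintro ⟨t, ht, h⟩
        obtain ⟨c, hc, hy⟩ := (hI (y - t • v a)).2 fun f hf => by
          rw [map_sub, map_smul, smul_eq_mul]; exact h f hf
        refine ⟨Function.update c a t, fun i hi => ?_, ?_⟩
        · by_cases hia : i = a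
          · rw [hia, Function.update_self]; exact ht
          · rw [Function.update_of_ne hia]
            exact hc i (Finset.mem_of_mem_insert_of_ne hi hia)
        · rw [Finset.sum_insert ha, Function.update_self]
          have : ∑ i ∈ s, Function.update c a t i • v i = ∑ i ∈ s, c i • v i := by
            refine Finset.sum_congr rfl fun i hi => ?_
            rw [Function.update_of_ne]
            rintro rfl
            exact ha hi
          rw [this, ← hy]
          abel
    let I1 := I.filter fun f => f (v a) ≤ 0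
    let I2 := ((I.filter fun f => 0 < f (v a)) ×ˢ (I.filter fun g => g (v a) < 0)).image
      fun q => q.1 (v a) • q.2 - q.2 (v a) • q.1
    refine ⟨I1 ∪ I2, fun y => ?_⟩
    rw [hstep]
    constructor
    · rintro ⟨t, ht, h⟩ f hf
      rcases Finset.mem_union.1 hf with hf | hf
      · have h1 := Finset.mem_filter.1 hf
        have h2 := h f h1.1
        have h3 : t * f (v a) ≤ 0 := mul_nonpos_of_nonneg_of_nonpos ht h1.2
        linarith
      · obtain ⟨⟨f, g⟩, hfg, rfl⟩ := Finset.mem_image.1 hf
        rw [Finset.mem_product, Finset.mem_filter, Finset.mem_filter] at hfg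
        obtain ⟨⟨hf1, hf2⟩, hg1, hg2⟩ := hfg
        simp only at hf1 hf2 hg1 hg2 ⊢
        rw [LinearMap.sub_apply, LinearMap.smul_apply, LinearMap.smul_apply, smul_eq_mul,
          smul_eq_mul]
        have h1 := h f hf1
        have h2 := h g hg1
        nlinarith
    · intro h
      have hp : ∀ f ∈ I, f (v a) ≤ 0 → f y ≤ 0 := fun f hf hfa =>
        h f (Finset.mem_union_left _ (Finset.mem_filter.2 ⟨hf, hfa⟩))
      have hq : ∀ f ∈ I, ∀ g ∈ I, 0 < f (v a) → g (v a) < 0 →
          f (v a) * g y - g (v a) * f y ≤ 0 := by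
        intro f hf g hg hfa hga
        have := h (f (v a) • g - g (v a) • f) (Finset.mem_union_right _ (Finset.mem_image.2
          ⟨(f, g), Finset.mem_product.2 ⟨Finset.mem_filter.2 ⟨hf, hfa⟩,
            Finset.mem_filter.2 ⟨hg, hga⟩⟩, rfl⟩))
        rwa [LinearMap.sub_apply, LinearMap.smul_apply, LinearMap.smul_apply, smul_eq_mul,
          smul_eq_mul] at this
      rcases (I.filter fun f => 0 < f (v a)).eq_empty_or_nonempty with he | hne
      · refine ⟨0, le_rfl, fun f hf => ?_⟩
        rw [zero_mul, sub_zero]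
        refine hp f hf ?_
        by_contra hcon
        push Not at hcon
        have : f ∈ I.filter fun f => 0 < f (v a) := Finset.mem_filter.2 ⟨hf, hcon⟩
        rw [he] at this
        exact absurd this (Finset.notMem_empty _)
      · obtain ⟨f0, hf0, hmax⟩ := Finset.exists_max_image _ (fun f => f y / f (v a)) hne
        obtain ⟨hf0I, hf0a⟩ := Finset.mem_filter.1 hf0
        refine ⟨max 0 (f0 y / f0 (v a)), le_max_left _ _, fun f hf => ?_⟩
        rcases lt_trichotomy (f (v a)) 0 with hlt | heq | hgt
        · have h1 : max 0 (f0 y / f0 (v a)) ≤ f y / f (v a) := by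
            refine max_le ?_ ?_
            · exact div_nonneg_of_nonpos (hp f hf hlt.le) hlt.le
            · have h2 := hq f0 hf0I f hf hf0a hlt
              rw [div_le_iff₀ hf0a]
              have h3 : f y / f (v a) * f0 (v a) = (f0 (v a) * f y) / f (v a) := by ring
              rw [h3, le_div_iff_of_neg hlt]
              linarith
          have h2 := mul_le_mul_of_nonpos_right h1 hlt.le
          rw [div_mul_cancel₀ _ hlt.ne] at h2
          linarith
        · rw [heq, mul_zero, sub_zero]
          exact hp f hf heq.le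
        · have h1 : f y / f (v a) ≤ max 0 (f0 y / f0 (v a)) :=
            (hmax f (Finset.mem_filter.2 ⟨hf, hgt⟩)).trans (le_max_right _ _)
          rw [div_le_iff₀ hgt] at h1
          linarith

/-- A convex polytope is a finite intersection of closed half-spaces. -/
lemma polytope_hrep {E : Type*} [NormedAddCommGroup E] [NormedSpace ℝ E] [FiniteDimensional ℝ E]
    (V : Finset E) : ∃ C : Finset ((E →ₗ[ℝ] ℝ) × ℝ), convexHull ℝ (V : Set E) = HSet C := by
  classical
  obtain ⟨I, hI⟩ := cone_hrep V (fun v : E => ((v, 1) : E × ℝ))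
  refine ⟨I.image fun f => (f.comp (LinearMap.inl ℝ E ℝ), -f (0, 1)), ?_⟩
  ext x
  rw [Finset.mem_convexHull']
  have h1 : x ∈ HSet (I.image fun f => (f.comp (LinearMap.inl ℝ E ℝ), -f (0, 1))) ↔
      ∀ f ∈ I, f (x, 1) ≤ 0 := by
    simp only [HSet, mem_ofPred_eq, Finset.mem_image, forall_exists_index, and_imp,
      forall_apply_eq_imp_iff₂]
    refine forall₂_congr fun f _ => ?_
    have : f (x, 1) = f (LinearMap.inl ℝ E ℝ x) + f (0, 1) := by
      rw [← map_add]; simp
    rw [LinearMap.comp_apply, this]
    constructor <;> intro h <;> linarith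
  rw [h1, ← hI]
  constructor
  · rintro ⟨w, hw0, hw1, hw2⟩
    refine ⟨w, hw0, ?_⟩
    rw [Prod.ext_iff]
    simp only [Prod.fst_sum, Prod.snd_sum, Prod.smul_fst, Prod.smul_snd, smul_eq_mul, mul_one]
    exact ⟨hw2.symm, hw1.symm⟩
  · rintro ⟨c, hc, h⟩
    rw [Prod.ext_iff] at h
    simp only [Prod.fst_sum, Prod.snd_sum, Prod.smul_fst, Prod.smul_snd, smul_eq_mul, mul_one] at h
    exact ⟨c, hc, h.2.symm, h.1.symm⟩

end Pool.Agent.PolyTile
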