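import Mathlib

/-!
A polynomial with coefficients `0` and `1` all of whose factors have collinear support is, up to a
monomial, a product of polynomials with coefficients `0` and `1` and collinear supports.
-/

open MvPolynomial

namespace Pool.Agent.PolyTile

section Top

variable {σ : Type*} {W : σ → ℝ}

/-- The sum of the terms of weight `N`. -/
noncomputable abbrev comp (W : σ → ℝ) (N : ℝ) (f : MvPolynomial σ ℂ) : MvPolynomial σ ℂ :=
  weightedHomogeneousComponent W N f

lemma coeff_comp (N : ℝ) (f : MvPolynomial σ ℂ) (α : σ →₀ ℕ) [Decidable (Finsupp.weight W α = N)] :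
    coeff α (comp W N f) = if Finsupp.weight W α = N then coeff α f else 0 := by
  classical
  rw [comp, coeff_weightedHomogeneousComponent]
  split_ifs <;> rfl

lemma comp_mul {f g : MvPolynomial σ ℂ} {N N' : ℝ} (hf : ∀ α ∈ f.support, Finsupp.weight W α ≤ N)
    (hg : ∀ α ∈ g.support, Finsupp.weight W α ≤ N') :
    comp W (N + N') (f * g) = comp W N f * comp W N' g := by
  classical
  ext α
  rw [coeff_comp, coeff_mul, coeff_mul]
  split_ifs with h
  · refine Finset.sum_congr rfl fun x hx => ?_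
    rw [Finset.HasAntidiagonal.mem_antidiagonal] at hx
    rw [coeff_comp, coeff_comp]
    by_cases h1 : coeff x.1 f = 0
    · simp [h1]
    by_cases h2 : coeff x.2 g = 0
    · simp [h2]
    have e1 := hf x.1 (mem_support_iff.2 h1)
    have e2 := hg x.2 (mem_support_iff.2 h2)
    rw [← hx, map_add] at h
    rw [if_pos (by linarith), if_pos (by linarith)]
  · symm
    refine Finset.sum_eq_zero fun x hx => ?_
    rw [Finset.HasAntidiagonal.mem_antidiagonal] at hx
    rw [coeff_comp, coeff_comp]
    by_cases h1 : Finsupp.weight W x.1 = N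
    · by_cases h2 : Finsupp.weight W x.2 = N'
      · exfalso
        apply h
        rw [← hx, map_add, h1, h2]
      · rw [if_neg h2, mul_zero]
    · rw [if_neg h1, zero_mul]

/-- `N` is the top weight of `f`. -/
def IsTop (W : σ → ℝ) (N : ℝ) (f : MvPolynomial σ ℂ) : Prop :=
  (∀ α ∈ f.support, Finsupp.weight W α ≤ N) ∧ comp W N f ≠ 0

lemma exists_isTop (W : σ → ℝ) {f : MvPolynomial σ ℂ} (hf : f ≠ 0) : ∃ N, IsTop W N f := by
  classical
  have hne : f.support.Nonempty := by
    rw [Finset.nonempty_iff_ne_empty]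
    exact fun h => hf (support_eq_empty.1 h)
  obtain ⟨α, hα, hmax⟩ := f.support.exists_max_image (fun α => Finsupp.weight W α) hne
  refine ⟨Finsupp.weight W α, hmax, fun h => ?_⟩
  have := congrArg (coeff α) h
  rw [coeff_comp, if_pos rfl, coeff_zero] at this
  exact (mem_support_iff.1 hα) this

lemma IsTop.mul {f g : MvPolynomial σ ℂ} {N N' : ℝ} (hf : IsTop W N f) (hg : IsTop W N' g) :
    IsTop W (N + N') (f * g) := by
  classical
  refine ⟨?_, ?_⟩
  · intro α hα
    have h1 := support_mul f g hα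
    rw [Finset.mem_add] at h1
    obtain ⟨x, hx, y, hy, rfl⟩ := h1
    rw [map_add]
    exact add_le_add (hf.1 x hx) (hg.1 y hy)
  · rw [comp_mul hf.1 hg.1]
    exact mul_ne_zero hf.2 hg.2

lemma isTop_one : IsTop W 0 (1 : MvPolynomial σ ℂ) := by
  classical
  refine ⟨?_, ?_⟩
  · intro α hα
    rw [mem_support_iff, coeff_one] at hα
    split_ifs at hα with h
    · rw [← h, map_zero]
    · exact absurd rfl hα
  · intro h
    have := congrArg (coeff 0) h
    rw [coeff_comp, if_pos (map_zero _), coeff_zero, coeff_zero_one] at this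
    exact one_ne_zero this

lemma comp_one : comp W 0 (1 : MvPolynomial σ ℂ) = 1 := by
  classical
  ext α
  rw [coeff_comp, coeff_one]
  by_cases h : 0 = α
  · rw [if_pos h, ← h, if_pos (map_zero _)]
  · rw [if_neg h]; split_ifs <;> rfl

lemma isTop_prod {ι : Type*} (s : Finset ι) (f : ι → MvPolynomial σ ℂ) (N : ι → ℝ)
    (h : ∀ i ∈ s, IsTop W (N i) (f i)) :
    IsTop W (∑ i ∈ s, N i) (∏ i ∈ s, f i) ∧
      comp W (∑ i ∈ s, N i) (∏ i ∈ s, f i) = ∏ i ∈ s, comp W (N i) (f i) := by
  classical
  induction s using Finset.induction_on with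
  | empty => exact ⟨isTop_one, comp_one⟩
  | insert a s ha ih =>
    have h1 := ih fun i hi => h i (Finset.mem_insert_of_mem hi)
    have h2 := h a (Finset.mem_insert_self _ _)
    rw [Finset.sum_insert ha, Finset.prod_insert ha, Finset.prod_insert ha]
    exact ⟨h2.mul h1.1, by rw [comp_mul h2.1 h1.1.1, h1.2]⟩

lemma IsTop.unique {f : MvPolynomial σ ℂ} {N N' : ℝ} (h : IsTop W N f) (h' : IsTop W N' f) :
    N = N' := by
  classical
  have aux : ∀ {N N' : ℝ}, IsTop W N f → IsTop W N' f → N ≤ N' := by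
    intro N N' h h'
    obtain ⟨α, hα⟩ := MvPolynomial.ne_zero_iff.1 h.2
    rw [coeff_comp] at hα
    split_ifs at hα with h1
    · rw [← h1]; exact h'.1 α (mem_support_iff.2 hα)
    · exact absurd rfl hα
  exact le_antisymm (aux h h') (aux h' h)

end Top

section Line

variable {σ : Type*} {V : Type*} [AddCommGroup V] [Module ℝ V]

/-- The point of `V` with coordinates `α` with respect to the family `b`. -/
noncomputable def pt (b : σ → V) : (σ →₀ ℕ) →+ V :=
  (Finsupp.linearCombination ℕ b).toAddMonoidHom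

lemma weight_eq (b : σ → V) (w : V →ₗ[ℝ] ℝ) (α : σ →₀ ℕ) :
    Finsupp.weight (fun i => w (b i)) α = w (pt b α) := by
  rw [Finsupp.weight_apply, pt]
  simp only [LinearMap.toAddMonoidHom_coe, Finsupp.linearCombination_apply]
  rw [Finsupp.sum, Finsupp.sum, map_sum]
  refine Finset.sum_congr rfl fun i _ => ?_
  rw [map_nsmul]

/-- The support of `f`, seen in `V`, lies on a line of direction `v`. -/
def LineSupp (b : σ → V) (v : V) (f : MvPolynomial σ ℂ) : Prop :=
  ∀ α ∈ f.support, ∀ β ∈ f.support, ∃ t : ℝ, pt b α - pt b β = t • v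

lemma LineSupp.mul {b : σ → V} {v : V} {f g : MvPolynomial σ ℂ} (hf : LineSupp b v f)
    (hg : LineSupp b v g) : LineSupp b v (f * g) := by
  classical
  intro α hα β hβ
  have h1 := support_mul f g hα
  have h2 := support_mul f g hβ
  rw [Finset.mem_add] at h1 h2
  obtain ⟨x, hx, y, hy, rfl⟩ := h1
  obtain ⟨x', hx', y', hy', rfl⟩ := h2
  obtain ⟨s, hs⟩ := hf x hx x' hx'
  obtain ⟨t, ht⟩ := hg y hy y' hy'
  refine ⟨s + t, ?_⟩
  rw [map_add, map_add, add_smul, ← hs, ← ht]
  abel

/-- Grouping factors with parallel supports. -/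
lemma group_factors (b : σ → V) (L : List (MvPolynomial σ ℂ))
    (hL : ∀ p ∈ L, p ≠ 0 ∧ ∃ v : V, v ≠ 0 ∧ LineSupp b v p) :
    ∃ (J : Finset V) (q : V → MvPolynomial σ ℂ), L.prod = ∏ v ∈ J, q v ∧
      (∀ v ∈ J, v ≠ 0 ∧ q v ≠ 0 ∧ LineSupp b v (q v)) ∧
      (∀ v ∈ J, ∀ v' ∈ J, v ≠ v' → ∀ t : ℝ, v' ≠ t • v) := by
  classical
  induction L with
  | nil => exact ⟨∅, fun _ => 1, by simp, by simp, by simp⟩
  | cons p L ih =>
    obtain ⟨J, q, h1, h2, h3⟩ := ih fun p hp => hL p (List.mem_cons_of_mem _ hp)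
    obtain ⟨hp0, v, hv0, hv⟩ := hL p List.mem_cons_self
    by_cases hpar : ∃ v' ∈ J, ∃ t : ℝ, v = t • v'
    · obtain ⟨v', hv', t, ht⟩ := hpar
      have hline : LineSupp b v' p := by
        intro α hα β hβ
        obtain ⟨s, hs⟩ := hv α hα β hβ
        exact ⟨s * t, by rw [hs, ht, smul_smul]⟩
      refine ⟨J, Function.update q v' (p * q v'), ?_, ?_, h3⟩
      · rw [List.prod_cons, h1, ← Finset.mul_prod_erase _ _ hv',
          ← Finset.mul_prod_erase J (Function.update q v' (p * q v')) hv', Function.update_self,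
          mul_assoc]
        congr 2
        refine Finset.prod_congr rfl fun x hx => ?_
        rw [Function.update_of_ne (Finset.ne_of_mem_erase hx)]
      · intro x hx
        by_cases hxv : x = v'
        · subst hxv
          rw [Function.update_self]
          exact ⟨(h2 x hx).1, mul_ne_zero hp0 (h2 x hx).2.1, hline.mul (h2 x hx).2.2⟩
        · rw [Function.update_of_ne hxv]
          exact h2 x hx
    · push Not at hpar
      have hvJ : v ∉ J := fun h => hpar v h 1 (by rw [one_smul])
      refine ⟨insert v J, Function.update q v p, ?_, ?_, ?_⟩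
      · rw [List.prod_cons, Finset.prod_insert hvJ, Function.update_self, h1]
        congr 1
        refine Finset.prod_congr rfl fun x hx => ?_
        rw [Function.update_of_ne]
        rintro rfl
        exact hvJ hx
      · intro x hx
        rcases Finset.mem_insert.1 hx with rfl | hx
        · rw [Function.update_self]
          exact ⟨hv0, hp0, hv⟩
        · have : x ≠ v := fun h => hvJ (h ▸ hx)
          rw [Function.update_of_ne this]
          exact h2 x hx
      · intro x hx y hy hxy t ht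
        rcases Finset.mem_insert.1 hx with hxv | hxJ
        · rcases Finset.mem_insert.1 hy with hyv | hyJ
          · exact hxy (hxv.trans hyv.symm)
          · have ht0 : t ≠ 0 := by
              rintro rfl
              rw [zero_smul] at ht
              exact (h2 y hyJ).1 ht
            exact hpar y hyJ t⁻¹ (by
              rw [ht, smul_smul, inv_mul_cancel₀ ht0, one_smul, hxv])
        · rcases Finset.mem_insert.1 hy with hyv | hyJ
          · exact hpar x hxJ t (by rw [← hyv]; exact ht)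
          · exact h3 x hxJ y hyJ hxy t ht

/-- Functionals vanishing at `v` and nonzero on finitely many vectors not parallel to `v`. -/
lemma exists_functional (v : V) (Z : Finset V) (hZ : ∀ z ∈ Z, ∀ t : ℝ, z ≠ t • v) :
    ∃ w : V →ₗ[ℝ] ℝ, w v = 0 ∧ ∀ z ∈ Z, w z ≠ 0 := by
  let p := Submodule.span ℝ {v}
  have h1 : ∀ z : Z, p.mkQ z ≠ 0 := by
    rintro ⟨z, hz⟩ h0
    rw [Submodule.mkQ_apply, Submodule.Quotient.mk_eq_zero, Submodule.mem_span_singleton] at h0
    obtain ⟨t, ht⟩ := h0
    exact hZ z hz t ht.symm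
  obtain ⟨g, hg⟩ := Module.exists_dual_forall_apply_ne_zero (K := ℝ) (fun z : Z => p.mkQ z) h1
  refine ⟨g.comp p.mkQ, ?_, fun z hz => hg ⟨z, hz⟩⟩
  rw [LinearMap.comp_apply, Submodule.mkQ_apply,
    (Submodule.Quotient.mk_eq_zero p).2 (Submodule.mem_span_singleton_self v), map_zero]

lemma exists_functional' (Z : Finset V) (hZ : ∀ z ∈ Z, z ≠ 0) :
    ∃ w : V →ₗ[ℝ] ℝ, ∀ z ∈ Z, w z ≠ 0 := by
  obtain ⟨w, -, hw⟩ := exists_functional (0 : V) Z fun z hz t => by
    rw [smul_zero]; exact hZ z hz
  exact ⟨w, hw⟩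

variable {b : σ → V}

lemma comp_of_parallel {w : V →ₗ[ℝ] ℝ} {v : V} (hw : w v = 0) {f : MvPolynomial σ ℂ}
    (hf : LineSupp b v f) {N : ℝ} (hN : IsTop (fun i => w (b i)) N f) :
    comp (fun i => w (b i)) N f = f := by
  classical
  obtain ⟨β, hβ⟩ := MvPolynomial.ne_zero_iff.1 hN.2
  rw [coeff_comp] at hβ
  split_ifs at hβ with h1
  · ext α
    rw [coeff_comp]
    split_ifs with h2
    · rfl
    · by_contra hne
      apply h2
      obtain ⟨t, ht⟩ := hf α (mem_support_iff.2 (Ne.symm hne)) β (mem_support_iff.2 hβ)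
      rw [weight_eq] at h1 ⊢
      rw [← h1, ← sub_eq_zero, ← map_sub, ht, map_smul, hw, smul_zero]
  · exact absurd rfl hβ

lemma comp_of_transverse (hinj : Function.Injective (pt b)) {w : V →ₗ[ℝ] ℝ} {v : V}
    (hw : w v ≠ 0) {f : MvPolynomial σ ℂ} (hf : LineSupp b v f) {N : ℝ}
    (hN : IsTop (fun i => w (b i)) N f) :
    ∃ α ∈ f.support, comp (fun i => w (b i)) N f = monomial α (coeff α f) := by
  classical
  obtain ⟨β, hβ⟩ := MvPolynomial.ne_zero_iff.1 hN.2
  rw [coeff_comp] at hβ
  split_ifs at hβ with h1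
  · refine ⟨β, mem_support_iff.2 hβ, ?_⟩
    ext α
    rw [coeff_comp, coeff_monomial]
    by_cases h : β = α
    · rw [if_pos h, ← h, if_pos h1]
    · rw [if_neg h]
      split_ifs with h2
      · by_contra hne
        obtain ⟨t, ht⟩ := hf α (mem_support_iff.2 hne) β (mem_support_iff.2 hβ)
        rw [weight_eq] at h1 h2
        have h3 : w (t • v) = 0 := by rw [← ht, map_sub, h1, h2, sub_self]
        rw [map_smul, smul_eq_mul] at h3
        have ht0 : t = 0 := by
          rcases mul_eq_zero.1 h3 with h | h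
          · exact h
          · exact absurd h hw
        rw [ht0, zero_smul, sub_eq_zero] at ht
        exact h (hinj ht).symm
      · rfl
  · exact absurd rfl hβ

/-- The polynomial with exponents `A` and coefficients `1`. -/
noncomputable def polyOf (A : Finset (σ →₀ ℕ)) : MvPolynomial σ ℂ := ∑ n ∈ A, monomial n 1

lemma coeff_polyOf (A : Finset (σ →₀ ℕ)) (α : σ →₀ ℕ) [Decidable (α ∈ A)] :
    coeff α (polyOf A) = if α ∈ A then 1 else 0 := by
  classical
  rw [polyOf, coeff_sum]
  simp only [coeff_monomial]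
  rw [Finset.sum_ite_eq']
  split_ifs <;> rfl

lemma comp_polyOf (W : σ → ℝ) (N : ℝ) (A : Finset (σ →₀ ℕ)) :
    comp W N (polyOf A) = polyOf (A.filter fun n => Finsupp.weight W n = N) := by
  classical
  ext α
  rw [coeff_comp, coeff_polyOf, coeff_polyOf]
  simp only [Finset.mem_filter]
  split_ifs <;> tauto

/-- The factorization theorem for `0-1` polynomials. -/
theorem factor01 [Nontrivial V] (hinj : Function.Injective (pt b)) {A : Finset (σ →₀ ℕ)}
    (hA : A.Nonempty)
    (hfac : ∀ p : MvPolynomial σ ℂ, Irreducible p → p ∣ polyOf A →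
      ∃ v : V, v ≠ 0 ∧ LineSupp b v p) :
    ∃ (J : Finset V) (B : V → Finset (σ →₀ ℕ)) (γ : σ →₀ ℕ),
      (∀ v ∈ J, v ≠ 0 ∧ ∀ n ∈ B v, ∀ n' ∈ B v, ∃ t : ℝ, pt b n - pt b n' = t • v) ∧
      (∀ v ∈ J, ∀ v' ∈ J, v ≠ v' → ∀ t : ℝ, v' ≠ t • v) ∧
      monomial γ 1 * polyOf A = ∏ v ∈ J, polyOf (B v) := by
  classical
  have hA0 : polyOf A ≠ 0 := by
    obtain ⟨α, hα⟩ := hA
    intro h
    have := congrArg (coeff α) h
    rw [coeff_polyOf, if_pos hα, coeff_zero] at this
    exact one_ne_zero this
  obtain ⟨J, q, hprod, hq, hJ⟩ := group_factors b (UniqueFactorizationMonoid.factors (polyOf A)).toList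
    (fun p hp => by
      rw [Multiset.mem_toList] at hp
      have h1 := UniqueFactorizationMonoid.irreducible_of_factor p hp
      exact ⟨h1.ne_zero, hfac p h1 (UniqueFactorizationMonoid.dvd_of_mem_factors hp)⟩)
  have hass : Associated (∏ v ∈ J, q v) (polyOf A) := by
    rw [← hprod, Multiset.prod_toList]
    exact UniqueFactorizationMonoid.factors_prod hA0
  obtain ⟨u, hu⟩ := hass
  obtain ⟨c, hc, hcu⟩ := MvPolynomial.isUnit_iff_eq_C_of_isReduced.1 u.isUnit
  have hc0 : c ≠ 0 := hc.ne_zero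
  have hmain : polyOf A = C c * ∏ v ∈ J, q v := by rw [← hu, hcu, mul_comm]
  -- faces
  have hface : ∀ v ∈ J, ∃ (B : Finset (σ →₀ ℕ)) (α : σ →₀ ℕ) (a : ℂ), a ≠ 0 ∧
      polyOf B = monomial α a * q v := by
    intro v hv
    obtain ⟨w, hwv, hw⟩ := exists_functional v (J.erase v) fun z hz t =>
      hJ v hv z (Finset.mem_of_mem_erase hz) (Finset.ne_of_mem_erase hz).symm t
    choose! N hN using fun v' (hv' : v' ∈ J) => exists_isTop (fun i => w (b i)) (hq v' hv').2.1
    obtain ⟨h1, h2⟩ := isTop_prod J q N hN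
    have hCtop : IsTop (fun i => w (b i)) 0 (C c : MvPolynomial σ ℂ) := by
      refine ⟨?_, ?_⟩
      · intro α hα
        rw [mem_support_iff, coeff_C] at hα
        split_ifs at hα with h
        · rw [← h, map_zero]
        · exact absurd rfl hα
      · intro h
        have := congrArg (coeff 0) h
        rw [coeff_comp, if_pos (map_zero _), coeff_zero, coeff_zero_C] at this
        exact hc0 this
    have hCcomp : comp (fun i => w (b i)) 0 (C c : MvPolynomial σ ℂ) = C c := by
      ext α
      rw [coeff_comp, coeff_C]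
      by_cases h : 0 = α
      · rw [if_pos h, ← h, if_pos (map_zero _)]
      · rw [if_neg h]; split_ifs <;> rfl
    have h3 : comp (fun i => w (b i)) (0 + ∑ i ∈ J, N i) (polyOf A) =
        C c * ∏ v' ∈ J, comp (fun i => w (b i)) (N v') (q v') := by
      rw [hmain, comp_mul hCtop.1 h1.1, h2, hCcomp]
    have h4 : ∀ v' ∈ J.erase v, ∃ (α : σ →₀ ℕ) (a : ℂ), a ≠ 0 ∧
        comp (fun i => w (b i)) (N v') (q v') = monomial α a := by
      intro v' hv'
      have hv'J := Finset.mem_of_mem_erase hv'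
      obtain ⟨α, hα, hα2⟩ := comp_of_transverse hinj (hw v' hv') (hq v' hv'J).2.2 (hN v' hv'J)
      exact ⟨α, _, mem_support_iff.1 hα, hα2⟩
    choose! α a ha hαa using h4
    refine ⟨A.filter fun n => Finsupp.weight (fun i => w (b i)) n = 0 + ∑ i ∈ J, N i,
      ∑ v' ∈ J.erase v, α v', c * ∏ v' ∈ J.erase v, a v', ?_, ?_⟩
    swap
    · rw [← comp_polyOf (fun i => w (b i)) (0 + ∑ i ∈ J, N i) A, h3, ← Finset.mul_prod_erase _ _ hv,
        comp_of_parallel hwv (hq v hv).2.2 (hN v hv), Finset.prod_congr rfl hαa,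
        ← MvPolynomial.C_mul_monomial]
      have : ∏ x ∈ J.erase v, (monomial (α x) (a x) : MvPolynomial σ ℂ) =
          monomial (∑ x ∈ J.erase v, α x) (∏ x ∈ J.erase v, a x) := by
        rw [MvPolynomial.monomial_sum_prod]
      rw [this]
      ring
    · exact mul_ne_zero hc0 (Finset.prod_ne_zero_iff.2 ha)
  choose! B α a ha hB using hface
  -- the product of the faces
  have hprodB : ∏ v ∈ J, polyOf (B v) =
      monomial (∑ v ∈ J, α v) ((∏ v ∈ J, a v) * c⁻¹) * polyOf A := by
    have e1 : (monomial (∑ v ∈ J, α v) ((∏ v ∈ J, a v) * c⁻¹) : MvPolynomial σ ℂ) * C c =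
        monomial (∑ v ∈ J, α v) (∏ v ∈ J, a v) := by
      rw [mul_comm, C_mul_monomial]
      congr 1
      field_simp
    rw [Finset.prod_congr rfl hB, Finset.prod_mul_distrib, ← MvPolynomial.monomial_sum_prod, hmain,
      ← mul_assoc, e1]
  set γ := ∑ v ∈ J, α v with hγ
  set k := (∏ v ∈ J, a v) * c⁻¹ with hk
  have hk0 : k ≠ 0 := mul_ne_zero (Finset.prod_ne_zero_iff.2 ha) (inv_ne_zero hc0)
  have hBline : ∀ v ∈ J, LineSupp b v (polyOf (B v)) := by
    intro v hv
    rw [hB v hv]
    refine LineSupp.mul ?_ (hq v hv).2.2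
    intro x hx y hy
    have e1 := Finset.mem_singleton.1 (support_monomial_subset hx)
    have e2 := Finset.mem_singleton.1 (support_monomial_subset hy)
    exact ⟨0, by rw [e1, e2, sub_self, zero_smul]⟩
  have hB0 : ∀ v ∈ J, polyOf (B v) ≠ 0 := by
    intro v hv
    rw [hB v hv]
    refine mul_ne_zero ?_ (hq v hv).2.1
    rw [Ne, monomial_eq_zero]
    exact ha v hv
  -- the constant is one
  have hk1 : k = 1 := by
    obtain ⟨w, hw⟩ := exists_functional' J fun v hv => (hq v hv).1
    choose! N hN using fun v' (hv' : v' ∈ J) => exists_isTop (fun i => w (b i)) (hB0 v' hv')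
    obtain ⟨h1, h2⟩ := isTop_prod J (fun v => polyOf (B v)) N hN
    have h4 : ∀ v' ∈ J, ∃ α : σ →₀ ℕ,
        comp (fun i => w (b i)) (N v') (polyOf (B v')) = monomial α 1 := by
      intro v' hv'
      obtain ⟨α, hα, hα2⟩ := comp_of_transverse hinj (hw v' hv') (hBline v' hv') (hN v' hv')
      refine ⟨α, ?_⟩
      rw [hα2, coeff_polyOf]
      rw [mem_support_iff, coeff_polyOf] at hα
      split_ifs at hα ⊢ with h
      · rfl
      · exact absurd rfl hα
    choose! δ hδ using h4
    have h5 : comp (fun i => w (b i)) (∑ i ∈ J, N i) (∏ v ∈ J, polyOf (B v)) =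
        monomial (∑ v ∈ J, δ v) 1 := by
      rw [h2, Finset.prod_congr rfl hδ, ← MvPolynomial.monomial_sum_prod, Finset.prod_const_one]
    -- coefficient comparison
    have h6 : ∃ n, coeff n (comp (fun i => w (b i)) (∑ i ∈ J, N i) (∏ v ∈ J, polyOf (B v))) = 1 :=
      ⟨∑ v ∈ J, δ v, by rw [h5, coeff_monomial, if_pos rfl]⟩
    obtain ⟨n, hn⟩ := h6
    rw [coeff_comp, hprodB] at hn
    split_ifs at hn with h7
    · rw [coeff_monomial_mul'] at hn
      split_ifs at hn with h8
      · rw [coeff_polyOf] at hn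
        split_ifs at hn with h9
        · simpa using hn
        · simp at hn
      · simp at hn
    · simp at hn
  refine ⟨J, B, γ, ?_, hJ, ?_⟩
  · intro v hv
    refine ⟨(hq v hv).1, fun n hn n' hn' => ?_⟩
    have hmem : ∀ n ∈ B v, n ∈ (polyOf (B v)).support := by
      intro n hn
      rw [mem_support_iff, coeff_polyOf, if_pos hn]
      exact one_ne_zero
    exact hBline v hv n (hmem n hn) n' (hmem n' hn')
  · rw [hprodB, hk1]

end Line

end Pool.Agent.PolyTile
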