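import Mathlib

/-!
Irreducible polynomials dividing all dilations `f(x^(m^k))` of a fixed polynomial have collinear
support.
-/

open MvPolynomial

namespace Pool.Agent.PolyTile

variable {σ : Type*} [Fintype σ] [DecidableEq σ]

/-- Rescaling the variables. -/
noncomputable def twist (ζ : σ → ℂ) : MvPolynomial σ ℂ →ₐ[ℂ] MvPolynomial σ ℂ :=
  aeval fun i => C (ζ i) * X i

/-- Raising the variables to powers. -/
noncomputable def dil (m : σ → ℕ) : MvPolynomial σ ℂ →ₐ[ℂ] MvPolynomial σ ℂ :=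
  aeval fun i => X i ^ m i

lemma twist_monomial (ζ : σ → ℂ) (α : σ →₀ ℕ) (a : ℂ) :
    twist ζ (monomial α a) = monomial α (a * ∏ i, ζ i ^ α i) := by
  rw [twist, aeval_monomial, Finsupp.prod_fintype _ _ (fun i => pow_zero _)]
  simp only [mul_pow, Finset.prod_mul_distrib]
  rw [monomial_eq (s := α), Finsupp.prod_fintype _ _ (fun i => pow_zero _)]
  simp only [← C_pow, ← map_prod, algebraMap_eq, C_mul]
  ring

lemma coeff_twist (ζ : σ → ℂ) (p : MvPolynomial σ ℂ) (α : σ →₀ ℕ) :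
    coeff α (twist ζ p) = coeff α p * ∏ i, ζ i ^ α i := by
  induction p using MvPolynomial.induction_on' with
  | monomial β a =>
    rw [twist_monomial, coeff_monomial, coeff_monomial]
    split_ifs with h
    · rw [h]
    · rw [zero_mul]
  | add p q hp hq => rw [map_add, coeff_add, coeff_add, hp, hq, add_mul]

lemma twist_twist (ζ η : σ → ℂ) (p : MvPolynomial σ ℂ) :
    twist ζ (twist η p) = twist (fun i => ζ i * η i) p := by
  ext α
  simp only [coeff_twist, mul_pow, Finset.prod_mul_distrib]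
  ring

lemma twist_one (p : MvPolynomial σ ℂ) : twist (fun _ => 1) p = p := by
  ext α
  simp [coeff_twist]

/-- Rescaling by nonzero factors is an automorphism. -/
noncomputable def twistEquiv (ζ : σ → ℂ) (hζ : ∀ i, ζ i ≠ 0) :
    MvPolynomial σ ℂ ≃* MvPolynomial σ ℂ where
  toFun := twist ζ
  invFun := twist fun i => (ζ i)⁻¹
  left_inv p := by
    rw [twist_twist]
    simp only [inv_mul_cancel₀ (hζ _), twist_one]
  right_inv p := by
    rw [twist_twist]
    simp only [mul_inv_cancel₀ (hζ _), twist_one]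
  map_mul' := map_mul _

lemma irreducible_twist {ζ : σ → ℂ} (hζ : ∀ i, ζ i ≠ 0) {p : MvPolynomial σ ℂ}
    (hp : Irreducible p) : Irreducible (twist ζ p) :=
  (MulEquiv.irreducible_iff (twistEquiv ζ hζ)).2 hp

lemma dil_monomial (m : σ → ℕ) (α : σ →₀ ℕ) (a : ℂ) :
    dil m (monomial α a) = monomial (Finsupp.equivFunOnFinite.symm fun i => m i * α i) a := by
  rw [dil, aeval_monomial, Finsupp.prod_fintype _ _ (fun i => pow_zero _)]
  rw [monomial_eq, Finsupp.prod_fintype _ _ (fun i => pow_zero _)]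
  simp only [← pow_mul, algebraMap_eq, Finsupp.equivFunOnFinite_symm_apply_apply]

lemma dil_dil (m m' : σ → ℕ) (f : MvPolynomial σ ℂ) :
    dil m (dil m' f) = dil (fun i => m i * m' i) f := by
  have : (dil m).comp (dil m') = dil (fun i => m i * m' i) := by
    ext i
    simp [dil, ← pow_mul]
  exact DFunLike.congr_fun this f

lemma twist_dil (ζ : σ → ℂ) (m : σ → ℕ) (h : ∀ i, ζ i ^ m i = 1) (f : MvPolynomial σ ℂ) :
    twist ζ (dil m f) = dil m f := by
  have : (twist ζ).comp (dil m) = dil m := by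
    ext i
    simp [dil, twist, mul_pow, ← C_pow, h]
  exact DFunLike.congr_fun this f

lemma degreeOf_dil_le (m : σ → ℕ) (f : MvPolynomial σ ℂ) (i : σ) :
    degreeOf i (dil m f) ≤ m i * degreeOf i f := by
  rw [degreeOf_le_iff]
  intro α hα
  rw [f.as_sum, map_sum] at hα
  have h1 := support_sum hα
  rw [Finset.mem_biUnion] at h1
  obtain ⟨β, hβ, hβα⟩ := h1
  rw [dil_monomial] at hβα
  have h2 := support_monomial_subset hβα
  rw [Finset.mem_singleton] at h2
  rw [h2, Finsupp.equivFunOnFinite_symm_apply_apply]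
  exact Nat.mul_le_mul_left _ ((degreeOf_le_iff.1 le_rfl) β hβ)

lemma dil_ne_zero (m : σ → ℕ) (hm : ∀ i, 0 < m i) {f : MvPolynomial σ ℂ} (hf : f ≠ 0) :
    dil m f ≠ 0 := by
  obtain ⟨β, hβ⟩ := MvPolynomial.ne_zero_iff.1 hf
  have hinj : Function.Injective fun α : σ →₀ ℕ =>
      (Finsupp.equivFunOnFinite.symm fun i => m i * α i : σ →₀ ℕ) := by
    intro α α' h
    ext i
    have := DFunLike.congr_fun h i
    simp only [Finsupp.equivFunOnFinite_symm_apply_apply] at this
    exact Nat.eq_of_mul_eq_mul_left (hm i) this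
  have key : coeff (Finsupp.equivFunOnFinite.symm fun i => m i * β i) (dil m f) = coeff β f := by
    conv_lhs => rw [f.as_sum]
    rw [map_sum, coeff_sum]
    rw [Finset.sum_eq_single β]
    · rw [dil_monomial, coeff_monomial, if_pos rfl]
    · intro γ _ hne
      rw [dil_monomial, coeff_monomial, if_neg]
      intro h
      exact hne (hinj h)
    · intro h
      rw [notMem_support_iff] at h
      rw [dil_monomial, coeff_monomial, if_pos rfl, h]
  intro h0
  rw [h0, coeff_zero] at key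
  exact hβ key.symm

lemma zpow_minor {x y : ℂ} (hx : x ≠ 0) (hy : y ≠ 0) {a a' b b' : ℤ}
    (h1 : x ^ a * y ^ a' = 1) (h2 : x ^ b * y ^ b' = 1) :
    x ^ (a * b' - a' * b) = 1 ∧ y ^ (a * b' - a' * b) = 1 := by
  constructor
  · have h3 : (x ^ a * y ^ a') ^ b' * ((x ^ b * y ^ b') ^ a')⁻¹ = 1 := by
      rw [h1, h2, one_zpow, one_zpow, inv_one, one_mul]
    rw [mul_zpow, mul_zpow, ← zpow_mul, ← zpow_mul, ← zpow_mul, ← zpow_mul, mul_inv,
      ← zpow_neg, ← zpow_neg] at h3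
    have h4 : x ^ (a * b') * y ^ (a' * b') * (x ^ (-(b * a')) * y ^ (-(b' * a'))) =
        x ^ (a * b' + -(b * a')) * y ^ (a' * b' + -(b' * a')) := by
      rw [zpow_add₀ hx, zpow_add₀ hy]; ring
    rw [h4, show a' * b' + -(b' * a') = 0 by ring, zpow_zero, mul_one] at h3
    rw [← h3]; congr 1; ring
  · have h3 : (x ^ b * y ^ b') ^ a * ((x ^ a * y ^ a') ^ b)⁻¹ = 1 := by
      rw [h1, h2, one_zpow, one_zpow, inv_one, one_mul]
    rw [mul_zpow, mul_zpow, ← zpow_mul, ← zpow_mul, ← zpow_mul, ← zpow_mul, mul_inv,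
      ← zpow_neg, ← zpow_neg] at h3
    have h4 : x ^ (b * a) * y ^ (b' * a) * (x ^ (-(a * b)) * y ^ (-(a' * b))) =
        x ^ (b * a + -(a * b)) * y ^ (b' * a + -(a' * b)) := by
      rw [zpow_add₀ hx, zpow_add₀ hy]; ring
    rw [h4, show b * a + -(a * b) = 0 by ring, zpow_zero, one_mul] at h3
    rw [← h3]; congr 1; ring

/-- The bound obtained by counting the conjugates of `p`. -/
lemma irr_bound (m : σ → ℕ) (hm : ∀ i, 0 < m i) {p f : MvPolynomial σ ℂ} (hp : Irreducible p)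
    (hf : f ≠ 0) (hd : p ∣ dil m f) {α β γ : σ →₀ ℕ} (hα : α ∈ p.support) (hβ : β ∈ p.support)
    (hγ : γ ∈ p.support) {i j : σ} {D : ℤ}
    (hD : D = ((α i : ℤ) - γ i) * ((β j : ℤ) - γ j) - ((α j : ℤ) - γ j) * ((β i : ℤ) - γ i))
    (hD0 : D ≠ 0) : m j ≤ D.natAbs ^ 2 * degreeOf i f := by
  have hij : i ≠ j := by
    rintro rfl
    apply hD0
    rw [hD]; ring
  set d := D.natAbs with hd'
  have hd0 : 0 < d := Int.natAbs_pos.2 hD0
  set A := (m i - 1) / d + 1 with hA
  set B := (m j - 1) / d + 1 with hB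
  let zi : ℂ := Complex.exp (2 * Real.pi * Complex.I / (m i : ℕ))
  let zj : ℂ := Complex.exp (2 * Real.pi * Complex.I / (m j : ℕ))
  have hzi : IsPrimitiveRoot zi (m i) := Complex.isPrimitiveRoot_exp _ (hm i).ne'
  have hzj : IsPrimitiveRoot zj (m j) := Complex.isPrimitiveRoot_exp _ (hm j).ne'
  have hzi0 : zi ≠ 0 := Complex.exp_ne_zero _
  have hzj0 : zj ≠ 0 := Complex.exp_ne_zero _
  let ζ : ℕ × ℕ → σ → ℂ := fun q => Function.update (Function.update (fun _ => 1) i (zi ^ q.1)) j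
    (zj ^ q.2)
  have hζj : ∀ q, ζ q j = zj ^ q.2 := fun q => Function.update_self _ _ _
  have hζi : ∀ q, ζ q i = zi ^ q.1 := fun q => by
    simp only [ζ]
    rw [Function.update_of_ne hij, Function.update_self]
  have hζk : ∀ q k, k ≠ i → k ≠ j → ζ q k = 1 := fun q k h1 h2 => by
    simp only [ζ]
    rw [Function.update_of_ne h2, Function.update_of_ne h1]
  have hζ0 : ∀ q k, ζ q k ≠ 0 := by
    intro q k
    by_cases h2 : k = j
    · rw [h2, hζj]; exact pow_ne_zero _ hzj0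
    · by_cases h1 : k = i
      · rw [h1, hζi]; exact pow_ne_zero _ hzi0
      · rw [hζk q k h1 h2]; exact one_ne_zero
  have hζm : ∀ q k, ζ q k ^ m k = 1 := by
    intro q k
    by_cases h2 : k = j
    · rw [h2, hζj, ← pow_mul, mul_comm, pow_mul, hzj.pow_eq_one, one_pow]
    · by_cases h1 : k = i
      · rw [h1, hζi, ← pow_mul, mul_comm, pow_mul, hzi.pow_eq_one, one_pow]
      · rw [hζk q k h1 h2, one_pow]
  have hprod : ∀ q (δ : σ →₀ ℕ), ∏ k, ζ q k ^ δ k = (zi ^ q.1) ^ δ i * (zj ^ q.2) ^ δ j := by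
    intro q δ
    rw [← Finset.prod_subset (Finset.subset_univ {i, j})]
    · rw [Finset.prod_pair hij, hζi, hζj]
    · intro k _ hk
      simp only [Finset.mem_insert, Finset.mem_singleton, not_or] at hk
      rw [hζk q k hk.1 hk.2, one_pow]
  let g : ℕ × ℕ → MvPolynomial σ ℂ := fun q => twist (ζ q) p
  have hgirr : ∀ q, Irreducible (g q) := fun q => irreducible_twist (hζ0 q) hp
  have hgdvd : ∀ q, g q ∣ dil m f := by
    intro q
    have h1 : twist (ζ q) p ∣ twist (ζ q) (dil m f) := map_dvd _ hd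
    rwa [twist_dil _ _ (hζm q)] at h1
  have hpair : ∀ q q' : ℕ × ℕ, q ∈ Finset.range A ×ˢ Finset.range B →
      q' ∈ Finset.range A ×ˢ Finset.range B → q ≠ q' → IsRelPrime (g q) (g q') := by
    intro q q' hq hq' hne
    rw [(hgirr q).isRelPrime_iff_not_dvd]
    intro hdvd
    have hass := (hgirr q).associated_of_dvd (hgirr q') hdvd
    obtain ⟨u, hu⟩ := hass
    obtain ⟨c, hc, hcu⟩ := MvPolynomial.isUnit_iff_eq_C_of_isReduced.1 u.isUnit
    have hcoef : ∀ δ ∈ p.support, ((zi ^ q.1) ^ δ i * (zj ^ q.2) ^ δ j) * c =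
        (zi ^ q'.1) ^ δ i * (zj ^ q'.2) ^ δ j := by
      intro δ hδ
      have h1 := congrArg (coeff δ) hu
      rw [hcu, mul_comm, coeff_C_mul, coeff_twist, coeff_twist, hprod, hprod] at h1
      rw [mem_support_iff] at hδ
      apply mul_left_cancel₀ hδ
      rw [← h1]; ring
    -- pass to integer powers
    let a : ℤ := (q'.1 : ℤ) - q.1
    let b : ℤ := (q'.2 : ℤ) - q.2
    let x : ℂ := zi ^ a
    let y : ℂ := zj ^ b
    have hx0 : x ≠ 0 := zpow_ne_zero _ hzi0
    have hy0 : y ≠ 0 := zpow_ne_zero _ hzj0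
    have hc0 : c ≠ 0 := by
      rintro rfl
      exact not_isUnit_zero hc
    have hcoef2 : ∀ δ ∈ p.support, x ^ (δ i : ℤ) * y ^ (δ j : ℤ) = c := by
      intro δ hδ
      have h1 := hcoef δ hδ
      have e1 : x ^ (δ i : ℤ) = (zi ^ q'.1) ^ δ i / (zi ^ q.1) ^ δ i := by
        simp only [x, a]
        rw [zpow_natCast, zpow_sub₀ hzi0, zpow_natCast, zpow_natCast, div_pow]
      have e2 : y ^ (δ j : ℤ) = (zj ^ q'.2) ^ δ j / (zj ^ q.2) ^ δ j := by
        simp only [y, b]
        rw [zpow_natCast, zpow_sub₀ hzj0, zpow_natCast, zpow_natCast, div_pow]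
      rw [e1, e2]
      have n1 : (zi ^ q.1) ^ δ i ≠ 0 := pow_ne_zero _ (pow_ne_zero _ hzi0)
      have n2 : (zj ^ q.2) ^ δ j ≠ 0 := pow_ne_zero _ (pow_ne_zero _ hzj0)
      rw [div_mul_div_comm, div_eq_iff (mul_ne_zero n1 n2), ← h1]; ring
    have hrel : ∀ δ ∈ p.support, x ^ ((δ i : ℤ) - γ i) * y ^ ((δ j : ℤ) - γ j) = 1 := by
      intro δ hδ
      rw [zpow_sub₀ hx0, zpow_sub₀ hy0]
      have h1 := hcoef2 δ hδ
      have h2 := hcoef2 γ hγ
      have n1 : x ^ (γ i : ℤ) ≠ 0 := zpow_ne_zero _ hx0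
      have n2 : y ^ (γ j : ℤ) ≠ 0 := zpow_ne_zero _ hy0
      rw [div_mul_div_comm, h1, h2, div_self hc0]
    have hxD : x ^ D = 1 := by
      rw [hD]; exact (zpow_minor hx0 hy0 (hrel α hα) (hrel β hβ)).1
    have hyD : y ^ D = 1 := by
      rw [hD]; exact (zpow_minor hx0 hy0 (hrel α hα) (hrel β hβ)).2
    rw [Finset.mem_product, Finset.mem_range, Finset.mem_range] at hq hq'
    have small : ∀ (M : ℕ), 0 < M → ∀ s t : ℕ, s < (M - 1) / d + 1 → t < (M - 1) / d + 1 →
        (M : ℤ) ∣ ((t : ℤ) - s) * D → s = t := by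
      intro M hM s t hs ht hdv
      by_contra hst
      have h1 : ((t : ℤ) - s) * D ≠ 0 := mul_ne_zero (by omega) hD0
      have h2 : M ≤ (((t : ℤ) - s) * D).natAbs := by
        have := Int.natAbs_dvd_natAbs.2 hdv
        rw [Int.natAbs_natCast] at this
        exact Nat.le_of_dvd (Int.natAbs_pos.2 h1) this
      rw [Int.natAbs_mul, ← hd'] at h2
      have h3 : ((t : ℤ) - s).natAbs ≤ (M - 1) / d := by omega
      have h4 : ((t : ℤ) - s).natAbs * d ≤ M - 1 :=
        (Nat.mul_le_mul_right d h3).trans (Nat.div_mul_le_self _ _)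
      omega
    apply hne
    apply Prod.ext
    · refine small (m i) (hm i) _ _ hq.1 hq'.1 ?_
      have : zi ^ (((q'.1 : ℤ) - q.1) * D) = 1 := by rw [zpow_mul]; exact hxD
      exact (hzi.zpow_eq_one_iff_dvd _).1 this
    · refine small (m j) (hm j) _ _ hq.2 hq'.2 ?_
      have : zj ^ (((q'.2 : ℤ) - q.2) * D) = 1 := by rw [zpow_mul]; exact hyD
      exact (hzj.zpow_eq_one_iff_dvd _).1 this
  have hprodvd : (∏ q ∈ Finset.range A ×ˢ Finset.range B, g q) ∣ dil m f := by
    apply Finset.prod_dvd_of_isRelPrime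
    · intro q hq q' hq' hne
      exact hpair q q' hq hq' hne
    · intro q _
      exact hgdvd q
  have hdil0 := dil_ne_zero m hm hf
  obtain ⟨h, hh⟩ := hprodvd
  have hg0 : ∀ q ∈ Finset.range A ×ˢ Finset.range B, g q ≠ 0 := fun q _ => (hgirr q).ne_zero
  have hG0 : (∏ q ∈ Finset.range A ×ˢ Finset.range B, g q) ≠ 0 := Finset.prod_ne_zero_iff.2 hg0
  have hh0 : h ≠ 0 := by
    rintro rfl
    rw [mul_zero] at hh
    exact hdil0 hh
  have hdeg : ∑ q ∈ Finset.range A ×ˢ Finset.range B, degreeOf i (g q) ≤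
      m i * degreeOf i f := by
    rw [← degreeOf_prod_eq _ _ hg0]
    refine le_trans ?_ (degreeOf_dil_le m f i)
    rw [hh, degreeOf_mul_eq hG0 hh0]
    exact Nat.le_add_right _ _
  have hdeg1 : ∀ q, 1 ≤ degreeOf i (g q) := by
    intro q
    have hsupp : ∀ δ ∈ p.support, δ ∈ (g q).support := by
      intro δ hδ
      rw [mem_support_iff] at hδ ⊢
      rw [coeff_twist]
      exact mul_ne_zero hδ (Finset.prod_ne_zero_iff.2 fun k _ => pow_ne_zero _ (hζ0 q k))
    by_contra hcon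
    have h0 : degreeOf i (g q) = 0 := by omega
    have hz : ∀ δ ∈ p.support, δ i = 0 := fun δ hδ =>
      Nat.le_zero.1 ((degreeOf_le_iff.1 h0.le) δ (hsupp δ hδ))
    apply hD0
    rw [hD, hz α hα, hz β hβ, hz γ hγ]
    simp
  have hcard : A * B ≤ m i * degreeOf i f := by
    calc A * B = ∑ _q ∈ Finset.range A ×ˢ Finset.range B, 1 := by simp
      _ ≤ _ := Finset.sum_le_sum fun q _ => hdeg1 q
      _ ≤ _ := hdeg
  have hAm : m i ≤ A * d := by
    have h1 := Nat.div_add_mod (m i - 1) d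
    have h2 := Nat.mod_lt (m i - 1) hd0
    have h3 := hm i
    rw [hA, add_mul, one_mul, mul_comm]
    omega
  have hBm : m j ≤ B * d := by
    have h1 := Nat.div_add_mod (m j - 1) d
    have h2 := Nat.mod_lt (m j - 1) hd0
    have h3 := hm j
    rw [hB, add_mul, one_mul, mul_comm]
    omega
  have h1 : m i * m j ≤ m i * (d ^ 2 * degreeOf i f) := by
    calc m i * m j ≤ (A * d) * (B * d) := Nat.mul_le_mul hAm hBm
      _ = (A * B) * d ^ 2 := by ring
      _ ≤ (m i * degreeOf i f) * d ^ 2 := Nat.mul_le_mul_right _ hcard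
      _ = _ := by ring
  exact Nat.le_of_mul_le_mul_left h1 (hm i)

/-- Irreducible polynomials dividing all dilations of a fixed polynomial have collinear support. -/
theorem irr_collinear (m : σ → ℕ) (hm : ∀ i, 2 ≤ m i) {p f : MvPolynomial σ ℂ}
    (hp : Irreducible p) (hf : f ≠ 0) (hd : ∀ k : ℕ, 1 ≤ k → p ∣ dil (fun i => m i ^ k) f)
    {α β γ : σ →₀ ℕ} (hα : α ∈ p.support) (hβ : β ∈ p.support) (hγ : γ ∈ p.support) (i j : σ) :
    ((α i : ℤ) - γ i) * ((β j : ℤ) - γ j) - ((α j : ℤ) - γ j) * ((β i : ℤ) - γ i) = 0 := by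
  by_contra hD0
  set D := ((α i : ℤ) - γ i) * ((β j : ℤ) - γ j) - ((α j : ℤ) - γ j) * ((β i : ℤ) - γ i) with hD
  have key : ∀ k, 1 ≤ k → m j ^ k ≤ D.natAbs ^ 2 * degreeOf i f := fun k hk =>
    irr_bound (fun i => m i ^ k) (fun i => pow_pos (by have := hm i; omega) _) hp hf (hd k hk)
      hα hβ hγ hD hD0
  set K := D.natAbs ^ 2 * degreeOf i f with hK
  have h1 := key (K + 1) (by omega)
  have h2 : K + 1 < 2 ^ (K + 1) := Nat.lt_two_pow_self
  have h3 : 2 ^ (K + 1) ≤ m j ^ (K + 1) := Nat.pow_le_pow_left (hm j) _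
  omega

end Pool.Agent.PolyTile
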