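import Mathlib
import Pool.Agent.Lib.PolyTile.Irr
import Pool.Agent.Lib.PolyTile.Factor

/-!
From a functional equation `S * F = c • M_* F` for a finitely supported function `F` to a
decomposition of `S` as a direct sum of collinear sets.
-/

open MvPolynomial

namespace Pool.Agent.PolyTile

/-- Extracting the combinatorial content of a product formula. -/
lemma extract {σ V : Type*} [DecidableEq V] {J : Finset V} {B : V → Finset (σ →₀ ℕ)}
    {A : Finset (σ →₀ ℕ)} {γ : σ →₀ ℕ}
    (h : monomial γ 1 * polyOf A = ∏ v ∈ J, polyOf (B v)) :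
    A.card = ∏ v ∈ J, (B v).card ∧
    (∀ f : V → σ →₀ ℕ, (∀ v ∈ J, f v ∈ B v) → ∃ n ∈ A, ∑ v ∈ J, f v = γ + n) ∧
    (∀ n ∈ A, ∃ f : V → σ →₀ ℕ, (∀ v ∈ J, f v ∈ B v) ∧ ∑ v ∈ J, f v = γ + n) := by
  classical
  have hexp : ∏ v ∈ J, polyOf (B v) =
      ∑ x ∈ Fintype.piFinset (fun v : J => B v), monomial (∑ v, x v) (1 : ℂ) := by
    rw [← Finset.prod_coe_sort J (fun v => polyOf (B v))]
    simp only [polyOf]
    rw [Finset.prod_univ_sum]
    refine Finset.sum_congr rfl fun x _ => ?_
    have := MvPolynomial.monomial_sum_prod Finset.univ (fun v : J => x v) (fun _ => (1 : ℂ))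
    rw [Finset.prod_const_one] at this
    exact this.symm
  have hcoef : ∀ μ, coeff μ (∏ v ∈ J, polyOf (B v)) =
      (((Fintype.piFinset (fun v : J => B v)).filter fun x => ∑ v, x v = μ).card : ℂ) := by
    intro μ
    rw [hexp, coeff_sum]
    simp only [coeff_monomial]
    rw [Finset.sum_ite, Finset.sum_const_zero, add_zero, Finset.sum_const, nsmul_eq_mul, mul_one]
  have hcoef' : ∀ μ, coeff μ (monomial γ 1 * polyOf A) = if γ ≤ μ ∧ μ - γ ∈ A then 1 else 0 := by
    intro μ
    rw [coeff_monomial_mul', coeff_polyOf]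
    split_ifs <;> simp_all
  refine ⟨?_, ?_, ?_⟩
  · have h1 := congrArg (eval (fun _ => (1 : ℂ))) h
    rw [map_mul, map_prod] at h1
    have hev : ∀ A : Finset (σ →₀ ℕ), eval (fun _ => (1 : ℂ)) (polyOf A) = A.card := by
      intro A
      rw [polyOf, map_sum]
      simp [eval_monomial, Finsupp.prod]
    simp only [hev] at h1
    simp only [eval_monomial, one_pow, Finsupp.prod, Finset.prod_const_one, mul_one, one_mul] at h1
    exact_mod_cast h1
  · intro f hf
    have h1 : coeff (∑ v ∈ J, f v) (∏ v ∈ J, polyOf (B v)) ≠ 0 := by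
      rw [hcoef, Nat.cast_ne_zero, ← Nat.pos_iff_ne_zero, Finset.card_pos]
      refine ⟨fun v : J => f v, Finset.mem_filter.2 ⟨?_, ?_⟩⟩
      · rw [Fintype.mem_piFinset]
        exact fun v => hf v v.2
      · exact Finset.sum_coe_sort J f
    rw [← h, hcoef'] at h1
    split_ifs at h1 with h2
    · exact ⟨_, h2.2, (add_tsub_cancel_of_le h2.1).symm⟩
    · exact absurd rfl h1
  · intro n hn
    have h1 : coeff (γ + n) (∏ v ∈ J, polyOf (B v)) ≠ 0 := by
      rw [← h, hcoef', if_pos ⟨le_self_add, by rw [add_tsub_cancel_left]; exact hn⟩]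
      exact one_ne_zero
    rw [hcoef, Nat.cast_ne_zero, ← Nat.pos_iff_ne_zero, Finset.card_pos] at h1
    obtain ⟨x, hx⟩ := h1
    rw [Finset.mem_filter, Fintype.mem_piFinset] at hx
    refine ⟨fun v => if hv : v ∈ J then x ⟨v, hv⟩ else 0, fun v hv => ?_, ?_⟩
    · simp only [dif_pos hv]
      exact hx.1 ⟨v, hv⟩
    · rw [← hx.2, ← Finset.sum_coe_sort J]
      refine Finset.sum_congr rfl fun v _ => ?_
      simp only [dif_pos v.2]

section Lattice

variable {V : Type*} [AddCommGroup V] [Module ℝ V]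

lemma pt_apply {σ : Type*} [Fintype σ] (b : σ → V) (α : σ →₀ ℕ) :
    pt b α = ∑ i, (α i : ℝ) • b i := by
  rw [pt]
  simp only [LinearMap.toAddMonoidHom_coe, Finsupp.linearCombination_apply]
  rw [Finsupp.sum_fintype _ _ (fun i => by simp)]
  simp only [Nat.cast_smul_eq_nsmul]

/-- Finitely many vectors have nonnegative integer coordinates, up to a shift, with respect to
a suitable rationally independent family of eigenvectors. -/
lemma exists_lattice {ι : Type} [Fintype ι] [DecidableEq ι] (e : Module.Basis ι ℝ V) (m : ι → ℕ)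
    (M : V →ₗ[ℝ] V) (hM : ∀ i, M (e i) = (m i : ℝ) • e i) (Y : Finset V) :
    ∃ (σ : Type) (_ : Fintype σ) (_ : DecidableEq σ) (b : σ → V) (m' : σ → ℕ) (β : σ →₀ ℕ)
      (N : V → σ →₀ ℕ), Function.Injective (pt b) ∧ (∀ i, M (b i) = (m' i : ℝ) • b i) ∧
      (∀ i, ∃ j, m' i = m j) ∧ ∀ y ∈ Y, pt b (N y) = y + pt b β := by
  classical
  let T : Finset ℝ := Y.biUnion fun y => Finset.univ.image fun i => e.repr y i
  let G : Submodule ℤ ℝ := Submodule.span ℤ (T : Set ℝ)
  have hfin : Module.Finite ℤ G := Module.Finite.span_of_finite ℤ T.finite_toSet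
  have hfree : Module.Free ℤ G := inferInstance
  let κ := Module.Free.ChooseBasisIndex ℤ G
  let g : Module.Basis κ ℤ G := Module.Free.chooseBasis ℤ G
  have hκ : Fintype κ := inferInstance
  let r := Fintype.card κ
  let eq : κ ≃ Fin r := Fintype.equivFin κ
  let b : ι × Fin r → V := fun q => ((g (eq.symm q.2) : G) : ℝ) • e q.1
  have hrepr : ∀ (c : ι × Fin r → ℝ) (i : ι), e.repr (∑ q, c q • b q) i =
      ∑ l, c (i, l) * ((g (eq.symm l) : G) : ℝ) := by
    intro c i
    rw [map_sum, Finsupp.finsetSum_apply, Fintype.sum_prod_type]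
    rw [Finset.sum_eq_single i]
    · refine Finset.sum_congr rfl fun l _ => ?_
      simp [b]
    · intro j _ hj
      refine Finset.sum_eq_zero fun l _ => ?_
      simp [b, hj]
    · intro h; exact absurd (Finset.mem_univ _) h
  have hindep : ∀ c : Fin r → ℤ, ∑ l, (c l : ℝ) * ((g (eq.symm l) : G) : ℝ) = 0 → c = 0 := by
    intro c hc
    have h1 : ∑ l, c l • g (eq.symm l) = 0 := by
      apply Subtype.ext
      rw [Submodule.coe_sum, Submodule.coe_zero, ← hc]
      refine Finset.sum_congr rfl fun l _ => ?_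
      rw [Submodule.coe_smul, zsmul_eq_mul]
    have h2 : LinearIndependent ℤ (fun l => g (eq.symm l)) :=
      g.linearIndependent.comp _ eq.symm.injective
    rw [Fintype.linearIndependent_iff] at h2
    funext l
    exact h2 c h1 l
  have hcoord : ∀ y ∈ Y, ∀ i, ∃ c : Fin r → ℤ,
      e.repr y i = ∑ l, (c l : ℝ) * ((g (eq.symm l) : G) : ℝ) := by
    intro y hy i
    have hmem : e.repr y i ∈ G := by
      apply Submodule.subset_span
      simp only [T, Finset.coe_biUnion, Set.mem_iUnion]
      exact ⟨y, hy, by simp⟩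
    refine ⟨fun l => g.repr ⟨_, hmem⟩ (eq.symm l), ?_⟩
    have h1 := g.sum_repr ⟨_, hmem⟩
    have h2 := congrArg (Subtype.val) h1
    rw [Submodule.coe_sum] at h2
    refine h2.symm.trans ?_
    rw [← Equiv.sum_comp eq.symm]
    refine Finset.sum_congr rfl fun l _ => ?_
    rw [Submodule.coe_smul, zsmul_eq_mul]
  choose! c hc using hcoord
  let β : ι × Fin r →₀ ℕ := Finsupp.equivFunOnFinite.symm fun q => ∑ y ∈ Y, (c y q.1 q.2).natAbs
  let N : V → ι × Fin r →₀ ℕ := fun y => Finsupp.equivFunOnFinite.symm fun q =>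
    (c y q.1 q.2 + β q).toNat
  refine ⟨ι × Fin r, inferInstance, inferInstance, b, fun q => m q.1, β, N, ?_, ?_, ?_, ?_⟩
  · intro α α' h
    rw [pt_apply, pt_apply] at h
    ext ⟨i, l⟩
    have h1 := congrArg (fun x => e.repr x i) h
    simp only [hrepr] at h1
    have h2 := hindep (fun l => (α (i, l) : ℤ) - α' (i, l)) (by
      push_cast
      simp only [sub_mul, Finset.sum_sub_distrib]
      rw [h1, sub_self])
    have h3 := congrFun h2 l
    simp only [Pi.zero_apply] at h3
    omega
  · rintro ⟨i, l⟩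
    simp only [b]
    rw [map_smul, hM, smul_comm]
  · exact fun q => ⟨q.1, rfl⟩
  · intro y hy
    apply e.repr.injective
    ext i
    rw [map_add, Finsupp.add_apply, pt_apply, pt_apply, hrepr, hrepr, hc y hy,
      ← Finset.sum_add_distrib]
    refine Finset.sum_congr rfl fun l _ => ?_
    rw [← add_mul]
    congr 1
    have h1 : (c y i l).natAbs ≤ β (i, l) := by
      simp only [β, Finsupp.equivFunOnFinite_symm_apply_apply]
      exact Finset.single_le_sum (f := fun y => (c y i l).natAbs) (fun _ _ => Nat.zero_le _) hy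
    have h2 : 0 ≤ c y i l + β (i, l) := by omega
    have h3 : ((N y (i, l) : ℕ) : ℤ) = c y i l + β (i, l) := by
      simp only [N, Finsupp.equivFunOnFinite_symm_apply_apply]
      exact Int.toNat_of_nonneg h2
    exact_mod_cast h3

end Lattice

section Main

variable {V : Type*} [AddCommGroup V] [Module ℝ V]

/-- The decomposition theorem. -/
theorem direct_sum [Nontrivial V] {ι : Type} [Fintype ι] [DecidableEq ι] (e : Module.Basis ι ℝ V)
    (m : ι → ℕ) (hm : ∀ i, 2 ≤ m i) (M : V ≃ₗ[ℝ] V) (hM : ∀ i, M (e i) = (m i : ℝ) • e i)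
    (S : Finset V) (hS : S.Nonempty) (F : V →₀ ℂ) (hF : F ≠ 0) (lam : ℂ)
    (hrel : ∀ z, lam * F (M.symm z) = ∑ s ∈ S, F (z - s)) :
    ∃ (J : Finset V) (B : V → Finset V) (s₀ : V),
      (∀ v ∈ J, v ≠ 0 ∧ ∀ x ∈ B v, ∀ y ∈ B v, ∃ t : ℝ, x - y = t • v) ∧
      (∀ v ∈ J, ∀ v' ∈ J, v ≠ v' → ∀ t : ℝ, v' ≠ t • v) ∧
      S.card = ∏ v ∈ J, (B v).card ∧
      (∀ f : V → V, (∀ v ∈ J, f v ∈ B v) → ∃ s ∈ S, ∑ v ∈ J, f v = s₀ + s) ∧
      (∀ s ∈ S, ∃ f : V → V, (∀ v ∈ J, f v ∈ B v) ∧ ∑ v ∈ J, f v = s₀ + s) := by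
  classical
  obtain ⟨σ, _, _, b, m', β, N, hinj, hMb, hm', hN⟩ :=
    exists_lattice e m M.toLinearMap hM (S ∪ F.support)
  have hm2 : ∀ i, 2 ≤ m' i := fun i => by obtain ⟨j, hj⟩ := hm' i; rw [hj]; exact hm j
  -- multiplication of exponents by `m'`
  let mu : (σ →₀ ℕ) → (σ →₀ ℕ) := fun α => Finsupp.equivFunOnFinite.symm fun i => m' i * α i
  have hmu : ∀ α, pt b (mu α) = M (pt b α) := by
    intro α
    rw [pt_apply, pt_apply, map_sum]
    refine Finset.sum_congr rfl fun i _ => ?_
    simp only [mu, Finsupp.equivFunOnFinite_symm_apply_apply]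
    rw [map_smul]
    have := hMb i
    simp only [LinearEquiv.coe_coe] at this
    rw [this, smul_smul]
    push_cast
    rw [mul_comm]
  have hNinj : ∀ y ∈ S ∪ F.support, ∀ y' ∈ S ∪ F.support, N y = N y' → y = y' := by
    intro y hy y' hy' h
    have h1 := hN y hy
    rw [h, hN y' hy'] at h1
    exact (add_right_cancel h1).symm
  let A := S.image N
  let pF : MvPolynomial σ ℂ := ∑ y ∈ F.support, monomial (N y) (F y)
  have hpS : polyOf A = ∑ s ∈ S, monomial (N s) (1 : ℂ) := by
    rw [polyOf, Finset.sum_image]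
    intro s hs s' hs' h
    exact hNinj s (Finset.mem_union_left _ hs) s' (Finset.mem_union_left _ hs') h
  have hpF : pF ≠ 0 := by
    obtain ⟨y₀, hy₀⟩ := Finsupp.ne_iff.1 hF
    intro h
    have h1 := congrArg (coeff (N y₀)) h
    have hy₀' : y₀ ∈ F.support := Finsupp.mem_support_iff.2 hy₀
    simp only [pF, coeff_sum, coeff_monomial, coeff_zero] at h1
    rw [Finset.sum_eq_single y₀] at h1
    · rw [if_pos rfl] at h1
      exact hy₀ h1
    · intro y hy hne
      rw [if_neg]
      intro h2
      exact hne (hNinj y (Finset.mem_union_right _ hy) y₀ (Finset.mem_union_right _ hy₀') h2)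
    · intro h2; exact absurd hy₀' h2
  -- the relation for finitely supported functions
  have hfs : ∑ s ∈ S, F.mapDomain (fun y => s + y) = lam • F.mapDomain M := by
    ext z
    rw [Finsupp.finsetSum_apply, Finsupp.smul_apply, smul_eq_mul]
    have h1 : F.mapDomain M z = F (M.symm z) := by
      conv_lhs => rw [← M.apply_symm_apply z]
      exact Finsupp.mapDomain_apply M.injective _ _
    rw [h1, hrel]
    refine Finset.sum_congr rfl fun s _ => ?_
    have h2 : z = s + (z - s) := by abel
    conv_lhs => rw [h2]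
    exact Finsupp.mapDomain_apply (add_right_injective s) _ _
  -- the exponent map
  let ν : V → σ →₀ ℕ := fun z =>
    if h : ∃ μ : σ →₀ ℕ, pt b μ = z + pt b (β + β + mu β) then h.choose else 0
  have hν : ∀ z μ, pt b μ = z + pt b (β + β + mu β) → ν z = μ := by
    intro z μ h
    have hex : ∃ μ : σ →₀ ℕ, pt b μ = z + pt b (β + β + mu β) := ⟨μ, h⟩
    simp only [ν, dif_pos hex]
    exact hinj (hex.choose_spec.trans h.symm)
  let Θ : (V →₀ ℂ) →ₗ[ℂ] MvPolynomial σ ℂ :=
    Finsupp.lsum ℂ fun z => (monomial (ν z) : ℂ →ₗ[ℂ] MvPolynomial σ ℂ)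
  have hΘ : ∀ z a, Θ (Finsupp.single z a) = monomial (ν z) a := by
    intro z a
    simp [Θ]
  have hpoly : monomial (mu β) 1 * polyOf A * pF =
      C lam * monomial (β + β) 1 * dil m' pF := by
    have h1 := congrArg Θ hfs
    have h2 : Θ (∑ s ∈ S, F.mapDomain (fun y => s + y)) =
        monomial (mu β) 1 * polyOf A * pF := by
      rw [map_sum, hpS]
      simp only [pF]
      rw [mul_assoc, Finset.sum_mul_sum, Finset.mul_sum]
      refine Finset.sum_congr rfl fun s hs => ?_
      rw [Finsupp.mapDomain, Finsupp.sum, map_sum, Finset.mul_sum]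
      refine Finset.sum_congr rfl fun y hy => ?_
      rw [hΘ, monomial_mul, monomial_mul, one_mul, one_mul]
      congr 2
      refine hν _ _ ?_
      rw [map_add, map_add, map_add, map_add, hN s (Finset.mem_union_left _ hs),
        hN y (Finset.mem_union_right _ hy)]
      abel
    have h3 : Θ (lam • F.mapDomain M) = C lam * monomial (β + β) 1 * dil m' pF := by
      rw [map_smul, Finsupp.mapDomain, Finsupp.sum, map_sum, smul_eq_C_mul, mul_assoc]
      congr 1
      simp only [pF]
      rw [map_sum (dil m'), Finset.mul_sum]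
      refine Finset.sum_congr rfl fun y hy => ?_
      rw [hΘ, dil_monomial, monomial_mul, one_mul]
      congr 2
      refine hν _ _ ?_
      have h4 : pt b (Finsupp.equivFunOnFinite.symm fun i => m' i * (N y) i) = M (pt b (N y)) :=
        hmu _
      rw [map_add, map_add, map_add, map_add, h4, hN y (Finset.mem_union_right _ hy), map_add,
        hmu]
      abel
    rw [← h2, ← h3, h1]
  have hA : A.Nonempty := hS.image _
  have hA0 : polyOf A ≠ 0 := by
    obtain ⟨α, hα⟩ := hA
    intro h
    have := congrArg (coeff α) h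
    rw [coeff_polyOf, if_pos hα, coeff_zero] at this
    exact one_ne_zero this
  have hlam : lam ≠ 0 := by
    rintro rfl
    rw [C_0, zero_mul, zero_mul] at hpoly
    have h1 : (monomial (mu β) 1 : MvPolynomial σ ℂ) ≠ 0 := by
      rw [Ne, monomial_eq_zero]; exact one_ne_zero
    exact mul_ne_zero (mul_ne_zero h1 hA0) hpF hpoly
  -- irreducible factors have collinear support
  have hfac : ∀ p : MvPolynomial σ ℂ, Irreducible p → p ∣ polyOf A →
      ∃ v : V, v ≠ 0 ∧ LineSupp b v p := by
    intro p hp hpA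
    by_cases hX : ∃ i, p ∣ X i
    · obtain ⟨i, hi⟩ := hX
      obtain ⟨v, hv⟩ := exists_ne (0 : V)
      have hXi : Irreducible (X i : MvPolynomial σ ℂ) := (X_prime).irreducible
      obtain ⟨u, hu⟩ := (hp.associated_of_dvd hXi hi).symm
      obtain ⟨c, hc, hcu⟩ := MvPolynomial.isUnit_iff_eq_C_of_isReduced.1 u.isUnit
      refine ⟨v, hv, ?_⟩
      have hsupp : ∀ α ∈ p.support, α = Finsupp.single i 1 := by
        intro α hα
        rw [mem_support_iff, ← hu, hcu, mul_comm, coeff_C_mul, coeff_X'] at hα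
        by_contra hne
        rw [if_neg (fun h => hne h.symm), mul_zero] at hα
        exact hα rfl
      intro α hα α' hα'
      exact ⟨0, by rw [hsupp α hα, hsupp α' hα', sub_self, zero_smul]⟩
    · push Not at hX
      have hprime : Prime p := hp.prime
      have hmon : ∀ γ : σ →₀ ℕ, ¬ p ∣ monomial γ 1 := by
        intro γ hγ
        rw [monomial_eq, C_1, one_mul, Finsupp.prod] at hγ
        obtain ⟨i, -, hi⟩ := hprime.exists_mem_finset_dvd hγ
        exact hX i (hprime.dvd_of_dvd_pow hi)
      have hstep : ∀ k : ℕ, p ∣ dil (fun i => m' i ^ (k + 1)) pF := by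
        have hC : ¬ p ∣ C lam := by
          intro h
          exact hp.not_isUnit (isUnit_of_dvd_unit h ((isUnit_iff_ne_zero.2 hlam).map C))
        intro k
        induction k with
        | zero =>
          have h1 : p ∣ C lam * monomial (β + β) 1 * dil m' pF := by
            rw [← hpoly]
            exact (hpA.mul_left _).mul_right _
          rcases hprime.dvd_or_dvd h1 with h2 | h2
          · rcases hprime.dvd_or_dvd h2 with h3 | h3
            · exact absurd h3 hC
            · exact absurd h3 (hmon _)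
          · simpa using h2
        | succ k ih =>
          have h0 := congrArg (dil fun i => m' i ^ (k + 1)) hpoly
          rw [map_mul, map_mul, map_mul, map_mul, dil_dil, dil_monomial, dil_monomial] at h0
          have h1 : p ∣ (dil fun i => m' i ^ (k + 1)) (C lam) *
              (monomial (Finsupp.equivFunOnFinite.symm fun i => m' i ^ (k + 1) * (β + β) i) 1) *
              dil (fun i => m' i ^ (k + 1) * m' i) pF := by
            rw [← h0]
            exact ih.mul_left _
          rcases hprime.dvd_or_dvd h1 with h2 | h2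
          · rcases hprime.dvd_or_dvd h2 with h3 | h3
            · rw [← algebraMap_eq, AlgHom.commutes, algebraMap_eq] at h3
              exact absurd h3 hC
            · exact absurd h3 (hmon _)
          · exact h2
      have hcol : ∀ α ∈ p.support, ∀ β ∈ p.support, ∀ γ ∈ p.support, ∀ i j,
          ((α i : ℤ) - γ i) * ((β j : ℤ) - γ j) - ((α j : ℤ) - γ j) * ((β i : ℤ) - γ i) = 0 := by
        intro α hα β hβ γ hγ i j
        refine irr_collinear m' hm2 hp hpF (fun k hk => ?_) hα hβ hγ i j
        obtain ⟨k, rfl⟩ := Nat.exists_eq_add_of_le' hk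
        exact hstep k
      by_cases hone : ∀ α ∈ p.support, ∀ γ ∈ p.support, α = γ
      · obtain ⟨v, hv⟩ := exists_ne (0 : V)
        exact ⟨v, hv, fun α hα γ hγ => ⟨0, by rw [hone α hα γ hγ, sub_self, zero_smul]⟩⟩
      · push Not at hone
        obtain ⟨α, hα, γ, hγ, hne⟩ := hone
        have hline : ∀ δ ∈ p.support, ∃ t : ℝ, pt b δ - pt b γ = t • (pt b α - pt b γ) := by
          intro δ hδ
          obtain ⟨i, hi⟩ := Finsupp.ne_iff.1 hne
          have hi' : ((α i : ℝ) - γ i) ≠ 0 := by
            rw [sub_ne_zero]; exact_mod_cast hi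
          refine ⟨((δ i : ℝ) - γ i) / ((α i : ℝ) - γ i), ?_⟩
          simp only [pt_apply, ← Finset.sum_sub_distrib, ← sub_smul]
          rw [Finset.smul_sum]
          refine Finset.sum_congr rfl fun j _ => ?_
          rw [smul_smul]
          congr 1
          have h1 := hcol α hα δ hδ γ hγ i j
          have h2 : ((α i : ℝ) - γ i) * ((δ j : ℝ) - γ j) =
              ((α j : ℝ) - γ j) * ((δ i : ℝ) - γ i) := by
            have h3 : ((α i : ℤ) - γ i) * ((δ j : ℤ) - γ j) =
              ((α j : ℤ) - γ j) * ((δ i : ℤ) - γ i) := by linarith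
            exact_mod_cast h3
          field_simp
          linarith
        refine ⟨pt b α - pt b γ, sub_ne_zero.2 fun h => hne (hinj h), fun δ hδ δ' hδ' => ?_⟩
        obtain ⟨t, ht⟩ := hline δ hδ
        obtain ⟨t', ht'⟩ := hline δ' hδ'
        refine ⟨t - t', ?_⟩
        rw [sub_smul, ← ht, ← ht']
        abel
  obtain ⟨J, B', γ, hB1, hB2, hB3⟩ := factor01 hinj hA hfac
  obtain ⟨hcard, hex1, hex2⟩ := extract hB3
  -- transfer to `V`
  refine ⟨J, fun v => (B' v).image (pt b), pt b γ + pt b β, ?_, hB2, ?_, ?_, ?_⟩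
  · intro v hv
    refine ⟨(hB1 v hv).1, ?_⟩
    intro x hx y hy
    obtain ⟨n, hn, rfl⟩ := Finset.mem_image.1 hx
    obtain ⟨n', hn', rfl⟩ := Finset.mem_image.1 hy
    exact (hB1 v hv).2 n hn n' hn'
  · have h1 : A.card = S.card := by
      rw [Finset.card_image_of_injOn]
      intro s hs s' hs' h
      exact hNinj s (Finset.mem_union_left _ hs) s' (Finset.mem_union_left _ hs') h
    rw [← h1, hcard]
    refine Finset.prod_congr rfl fun v _ => ?_
    rw [Finset.card_image_of_injective _ hinj]
  · intro f hf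
    have h1 : ∀ v ∈ J, ∃ n ∈ B' v, pt b n = f v := fun v hv => Finset.mem_image.1 (hf v hv)
    choose! n hn hnf using h1
    obtain ⟨a, ha, hsum⟩ := hex1 n hn
    obtain ⟨s, hs, rfl⟩ := Finset.mem_image.1 ha
    refine ⟨s, hs, ?_⟩
    rw [← Finset.sum_congr rfl hnf, ← map_sum, hsum, map_add, hN s (Finset.mem_union_left _ hs)]
    abel
  · intro s hs
    obtain ⟨n, hn, hsum⟩ := hex2 (N s) (Finset.mem_image_of_mem _ hs)
    refine ⟨fun v => pt b (n v), fun v hv => Finset.mem_image_of_mem _ (hn v hv), ?_⟩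
    rw [← map_sum, hsum, map_add, hN s (Finset.mem_union_left _ hs)]
    abel

end Main

end Pool.Agent.PolyTile
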