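import Mathlib
import Pool.Agent.Lib.PolyTile.Factor

/-!
The vertices of the convex hull of a self-affine set, and the invariance of its normal fan under
a power of the expansion.
-/

open Set Filter Topology
open scoped Pointwise

namespace Pool.Agent.PolyTile

section Alg

variable {E : Type*} [AddCommGroup E] [Module ℝ E]

/-- `a` is the unique maximizer of `w` on `A`. -/
def Umx (w : E →ₗ[ℝ] ℝ) (A : Finset E) (a : E) : Prop := a ∈ A ∧ ∀ x ∈ A, x ≠ a → w x < w a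

lemma Umx.le {w : E →ₗ[ℝ] ℝ} {A : Finset E} {a : E} (h : Umx w A a) {x : E} (hx : x ∈ A) :
    w x ≤ w a := by
  by_cases hxa : x = a
  · rw [hxa]
  · exact (h.2 x hx hxa).le

lemma exists_umx (w : E →ₗ[ℝ] ℝ) {A : Finset E} (hA : A.Nonempty)
    (hinj : ∀ x ∈ A, ∀ y ∈ A, x ≠ y → w (x - y) ≠ 0) : ∃ a, Umx w A a := by
  obtain ⟨a, ha, hmax⟩ := A.exists_max_image w hA
  refine ⟨a, ha, fun x hx hxa => lt_of_le_of_ne (hmax x hx) fun h => hinj x hx a ha hxa ?_⟩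
  rw [map_sub, h, sub_self]

lemma small_pert (w w' : E →ₗ[ℝ] ℝ) (Y : Finset E) (hY : ∀ y ∈ Y, 0 < w y) :
    ∃ ε₀ > 0, ∀ ε : ℝ, 0 < ε → ε < ε₀ → ∀ y ∈ Y, 0 < (w + ε • w') y := by
  have h : ∀ᶠ ε in 𝓝 (0 : ℝ), ∀ y ∈ Y, 0 < (w + ε • w') y := by
    rw [Filter.eventually_all_finset]
    intro y hy
    have hc : Continuous fun ε : ℝ => (w + ε • w') y := by
      simp only [LinearMap.add_apply, LinearMap.smul_apply, smul_eq_mul]
      fun_prop
    have h0 : Tendsto (fun ε : ℝ => (w + ε • w') y) (𝓝 0) (𝓝 (w y)) :=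
      hc.tendsto' 0 _ (by simp)
    exact h0.eventually_const_lt (hY y hy)
  obtain ⟨ε₀, hε₀, hb⟩ := Metric.eventually_nhds_iff.1 h
  refine ⟨ε₀, hε₀, fun ε h1 h2 => hb ?_⟩
  rw [dist_zero_right, Real.norm_eq_abs, abs_of_pos h1]
  exact h2

/-- Perturbation to a generic functional keeping finitely many strict inequalities. -/
lemma generic_pert (w : E →ₗ[ℝ] ℝ) (Y : Finset E) (hY : ∀ y ∈ Y, 0 < w y) (Z : Finset E)
    (hZ : ∀ z ∈ Z, z ≠ 0) :
    ∃ w' : E →ₗ[ℝ] ℝ, (∀ y ∈ Y, 0 < w' y) ∧ ∀ z ∈ Z, w' z ≠ 0 := by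
  obtain ⟨η, hη⟩ := exists_functional' Z hZ
  obtain ⟨ε₀, hε₀, h⟩ := small_pert w η Y hY
  have hfin : (⋃ z ∈ Z, {ε : ℝ | (w + ε • η) z = 0}).Finite := by
    refine Set.Finite.biUnion Z.finite_toSet fun z hz => Set.Subsingleton.finite ?_
    intro a ha b hb
    have e1 : w z + a * η z = 0 := ha
    have e2 : w z + b * η z = 0 := hb
    have e3 : (a - b) * η z = 0 := by linarith
    rcases mul_eq_zero.1 e3 with e4 | e4
    · linarith
    · exact absurd e4 (hη z hz)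
  obtain ⟨ε, hε, hεn⟩ := (Ioo_infinite hε₀).exists_notMem_finset hfin.toFinset
  rw [Set.Finite.mem_toFinset] at hεn
  exact ⟨w + ε • η, h ε hε.1 hε.2, fun z hz h0 => hεn (mem_iUnion₂.2 ⟨z, hz, h0⟩)⟩

/-- Adding a small multiple of a functional exposing `a`. -/
lemma pert_umx {w wa : E →ₗ[ℝ] ℝ} {X : Finset E} {a : E} (hmax : ∀ x ∈ X, w x ≤ w a)
    (ha : Umx wa X a) (Y : Finset E) (hY : ∀ y ∈ Y, 0 < w y) :
    ∃ ε : ℝ, 0 < ε ∧ Umx (w + ε • wa) X a ∧ ∀ y ∈ Y, 0 < (w + ε • wa) y := by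
  obtain ⟨ε₀, hε₀, h⟩ := small_pert w wa Y hY
  refine ⟨ε₀ / 2, by positivity, ⟨ha.1, fun x hx hxa => ?_⟩, h _ (by positivity) (by linarith)⟩
  have h1 := hmax x hx
  have h2 := ha.2 x hx hxa
  simp only [LinearMap.add_apply, LinearMap.smul_apply, smul_eq_mul]
  have : ε₀ / 2 * wa x < ε₀ / 2 * wa a := mul_lt_mul_of_pos_left h2 (by positivity)
  linarith

/-- Faces of convex hulls. -/
lemma conv_face {A : Finset E} {w : E →ₗ[ℝ] ℝ} {c : ℝ} (hA : ∀ y ∈ A, w y ≤ c) {x : E}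
    (hx : x ∈ convexHull ℝ (A : Set E)) : w x ≤ c ∧
      ∀ [DecidablePred fun y => w y = c], w x = c →
        x ∈ convexHull ℝ ((A.filter fun y => w y = c : Finset E) : Set E) := by
  rw [Finset.mem_convexHull'] at hx
  obtain ⟨l, hl0, hl1, rfl⟩ := hx
  have h1 : ∑ y ∈ A, l y * (c - w y) = c - w (∑ y ∈ A, l y • y) := by
    rw [map_sum]
    simp only [map_smul, smul_eq_mul, mul_sub, Finset.sum_sub_distrib]
    rw [← Finset.sum_mul, hl1, one_mul]
  have h2 : ∀ y ∈ A, 0 ≤ l y * (c - w y) := fun y hy =>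
    mul_nonneg (hl0 y hy) (sub_nonneg.2 (hA y hy))
  have h3 : 0 ≤ c - w (∑ y ∈ A, l y • y) := by rw [← h1]; exact Finset.sum_nonneg h2
  refine ⟨by linarith, ?_⟩
  intro _ heq
  rw [heq, sub_self] at h1
  have h4 := (Finset.sum_eq_zero_iff_of_nonneg h2).1 h1
  have h5 : ∀ y ∈ A, w y ≠ c → l y = 0 := by
    intro y hy hne
    rcases mul_eq_zero.1 (h4 y hy) with h | h
    · exact h
    · exact absurd (by linarith) hne
  rw [Finset.mem_convexHull']
  refine ⟨l, fun y hy => hl0 y (Finset.mem_filter.1 hy).1, ?_, ?_⟩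
  · rw [← hl1]
    refine Finset.sum_subset (Finset.filter_subset _ _) fun y hy hny => ?_
    exact h5 y hy fun h => hny (Finset.mem_filter.2 ⟨hy, h⟩)
  · refine Finset.sum_subset (Finset.filter_subset _ _) fun y hy hny => ?_
    rw [h5 y hy fun h => hny (Finset.mem_filter.2 ⟨hy, h⟩), zero_smul]

lemma conv_le {A : Finset E} {w : E →ₗ[ℝ] ℝ} {c : ℝ} (hA : ∀ y ∈ A, w y ≤ c) {x : E}
    (hx : x ∈ convexHull ℝ (A : Set E)) : w x ≤ c := (conv_face hA hx).1

lemma conv_umx {A : Finset E} {w : E →ₗ[ℝ] ℝ} {a : E} (ha : Umx w A a) {x : E}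
    (hx : x ∈ convexHull ℝ (A : Set E)) (h : w a ≤ w x) : x = a := by
  classical
  have h1 := conv_face (fun y hy => ha.le hy) hx
  have h2 := h1.2 (le_antisymm h1.1 h)
  have h3 : (A.filter fun y => w y = w a) = {a} := by
    ext y
    rw [Finset.mem_filter, Finset.mem_singleton]
    constructor
    · rintro ⟨hy, hw⟩
      by_contra hne
      exact absurd hw (ha.2 y hy hne).ne
    · rintro rfl
      exact ⟨ha.1, rfl⟩
  rw [h3, Finset.coe_singleton, convexHull_singleton] at h2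
  exact h2

end Alg

section Fan

variable {E : Type*} [AddCommGroup E] [Module ℝ E]

/-- The data of the vertices of a self-affine set. -/
structure Vert (M : E ≃ₗ[ℝ] E) (S : Finset E) (P : Set E) (X : Finset E) : Prop where
  sub : (X : Set E) ⊆ P
  hull : P ⊆ convexHull ℝ (X : Set E)
  exposed : ∀ a ∈ X, ∃ w : E →ₗ[ℝ] ℝ, Umx w X a
  eq : M '' P = P + (S : Set E)

variable {M : E ≃ₗ[ℝ] E} {S : Finset E} {P : Set E} {X : Finset E}

lemma Vert.vertex_eq (h : Vert M S P X) {w : E →ₗ[ℝ] ℝ} {a s b : E} (ha : Umx w X a)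
    (hs : Umx w S s) (hb : Umx (w.comp (M : E →ₗ[ℝ] E)) X b) : M b = a + s := by
  have h1 : M b ∈ P + (S : Set E) := by
    rw [← h.eq]; exact ⟨b, h.sub hb.1, rfl⟩
  obtain ⟨y, hy, s', hs', hys⟩ := h1
  have h2 : a + s ∈ M '' P := by
    rw [h.eq]; exact ⟨a, h.sub ha.1, s, hs.1, rfl⟩
  obtain ⟨p, hp, hps⟩ := h2
  have h3 : w (M p) ≤ w (M b) := conv_le (w := w.comp (M : E →ₗ[ℝ] E)) (fun y hy => hb.le hy)
    (h.hull hp)
  have h4 : w y ≤ w a := conv_le (fun y hy => ha.le hy) (h.hull hy)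
  have h5 : w s' ≤ w s := hs.le hs'
  rw [hps, ← hys, map_add, map_add] at h3
  have h6 : y = a := conv_umx ha (h.hull hy) (by linarith)
  have h7 : s' = s := by
    by_contra hne
    have := hs.2 s' hs' hne
    linarith
  rw [← hys, h6, h7]

/-- The normal fan is invariant under a power of `M`. -/
theorem Vert.fan (h : Vert M S P X) (hX : X.Nonempty) (hS : S.Nonempty) :
    ∃ N : ℕ, 0 < N ∧ ∀ (w : E →ₗ[ℝ] ℝ) (a : E), a ∈ X →
      ((∀ x ∈ X, w x ≤ w a) ↔ ∀ x ∈ X, w ((M ^ N) x) ≤ w ((M ^ N) a)) := by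
  classical
  -- the relation between vertices
  let R : E → E → Prop := fun a b => ∃ w : E →ₗ[ℝ] ℝ, Umx w X a ∧ (∃ s, Umx w S s) ∧
    Umx (w.comp (M : E →ₗ[ℝ] E)) X b
  have hRuniq : ∀ a a' b, R a b → R a' b → a' = a := by
    rintro a a' b ⟨w, hw1, ⟨s, hs⟩, hw2⟩ ⟨w', hw1', ⟨s', hs'⟩, hw2'⟩
    have e1 := h.vertex_eq hw1 hs hw2
    have e2 := h.vertex_eq hw1' hs' hw2'
    by_contra hne
    have e3 := hw1.2 a' hw1'.1 hne
    have e4 := hs.le hs'.1
    have e5 : w (a + s) = w (a' + s') := by rw [← e1, ← e2]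
    rw [map_add, map_add] at e5
    linarith
  -- differences
  let Z : Finset E := ((X ×ˢ X).image (fun q => q.1 - q.2) ∪ (S ×ˢ S).image (fun q => q.1 - q.2)).filter
    fun z => z ≠ 0
  have hZX : ∀ x ∈ X, ∀ y ∈ X, x ≠ y → x - y ∈ Z := fun x hx y hy hxy =>
    Finset.mem_filter.2 ⟨Finset.mem_union_left _ (Finset.mem_image.2
      ⟨(x, y), Finset.mem_product.2 ⟨hx, hy⟩, rfl⟩), sub_ne_zero.2 hxy⟩
  have hZS : ∀ x ∈ S, ∀ y ∈ S, x ≠ y → x - y ∈ Z := fun x hx y hy hxy =>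
    Finset.mem_filter.2 ⟨Finset.mem_union_right _ (Finset.mem_image.2
      ⟨(x, y), Finset.mem_product.2 ⟨hx, hy⟩, rfl⟩), sub_ne_zero.2 hxy⟩
  have hZ0 : ∀ z ∈ Z, z ≠ 0 := fun z hz => (Finset.mem_filter.1 hz).2
  let Zk : ℕ → Finset E := fun n => (Finset.range (n + 1)).biUnion fun k => Z.image (M ^ k : E ≃ₗ[ℝ] E)
  have hZk0 : ∀ n, ∀ z ∈ Zk n, z ≠ 0 := by
    intro n z hz
    obtain ⟨k, -, hz⟩ := Finset.mem_biUnion.1 hz
    obtain ⟨y, hy, rfl⟩ := Finset.mem_image.1 hz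
    exact fun h0 => hZ0 y hy ((LinearEquiv.map_eq_zero_iff _).1 h0)
  have hZk : ∀ n k, k ≤ n → ∀ z ∈ Z, (M ^ k) z ∈ Zk n := fun n k hk z hz =>
    Finset.mem_biUnion.2 ⟨k, Finset.mem_range.2 (by omega), Finset.mem_image_of_mem _ hz⟩
  -- generic functionals have unique maximizers along the orbit
  have hgen : ∀ n (w : E →ₗ[ℝ] ℝ), (∀ z ∈ Zk n, w z ≠ 0) → ∀ k ≤ n,
      (∃ a, Umx (w.comp ((M ^ k : E ≃ₗ[ℝ] E) : E →ₗ[ℝ] E)) X a) ∧
      ∃ s, Umx (w.comp ((M ^ k : E ≃ₗ[ℝ] E) : E →ₗ[ℝ] E)) S s := by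
    intro n w hw k hk
    constructor
    · refine exists_umx _ hX fun x hx y hy hxy => ?_
      exact hw _ (hZk n k hk _ (hZX x hx y hy hxy))
    · refine exists_umx _ hS fun x hx y hy hxy => ?_
      exact hw _ (hZk n k hk _ (hZS x hx y hy hxy))
  have hcomp : ∀ (w : E →ₗ[ℝ] ℝ) (k : ℕ), (w.comp ((M ^ k : E ≃ₗ[ℝ] E) : E →ₗ[ℝ] E)).comp
      (M : E →ₗ[ℝ] E) = w.comp ((M ^ (k + 1) : E ≃ₗ[ℝ] E) : E →ₗ[ℝ] E) := by
    intro w k
    ext x
    simp only [LinearMap.comp_apply, LinearEquiv.coe_coe]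
    rw [pow_succ]; rfl
  have hzero : ∀ (w : E →ₗ[ℝ] ℝ), w.comp ((M ^ 0 : E ≃ₗ[ℝ] E) : E →ₗ[ℝ] E) = w := by
    intro w
    ext x
    rw [pow_zero]; rfl
  have hRtot : ∀ b ∈ X, ∃ a ∈ X, R a b := by
    intro b hb
    obtain ⟨wb, hwb⟩ := h.exposed b hb
    obtain ⟨w, hw1, hw2⟩ := generic_pert (wb.comp (M.symm : E →ₗ[ℝ] E))
      ((X.erase b).image fun x => M (b - x)) (by
        intro y hy
        obtain ⟨x, hx, rfl⟩ := Finset.mem_image.1 hy
        simp only [LinearMap.comp_apply, LinearEquiv.coe_coe, M.symm_apply_apply, map_sub]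
        exact sub_pos.2 (hwb.2 x (Finset.mem_of_mem_erase hx) (Finset.ne_of_mem_erase hx)))
      (Zk 1) (hZk0 1)
    obtain ⟨⟨a, ha⟩, ⟨s, hs⟩⟩ := hgen 1 w hw2 0 (by omega)
    rw [hzero] at ha hs
    refine ⟨a, ha.1, w, ha, ⟨s, hs⟩, hb, fun x hx hxb => ?_⟩
    have := hw1 (M (b - x)) (Finset.mem_image_of_mem _ (Finset.mem_erase.2 ⟨hxb, hx⟩))
    rw [map_sub, map_sub] at this
    exact sub_pos.1 this
  have hRsurj : ∀ a ∈ X, ∃ b ∈ X, R a b := by
    intro a ha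
    obtain ⟨wa, hwa⟩ := h.exposed a ha
    obtain ⟨w, hw1, hw2⟩ := generic_pert wa ((X.erase a).image fun x => a - x) (by
        intro y hy
        obtain ⟨x, hx, rfl⟩ := Finset.mem_image.1 hy
        rw [map_sub]
        exact sub_pos.2 (hwa.2 x (Finset.mem_of_mem_erase hx) (Finset.ne_of_mem_erase hx)))
      (Zk 1) (hZk0 1)
    obtain ⟨-, ⟨s, hs⟩⟩ := hgen 1 w hw2 0 (by omega)
    obtain ⟨⟨b, hb⟩, -⟩ := hgen 1 w hw2 1 le_rfl
    rw [hzero] at hs
    rw [pow_one] at hb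
    refine ⟨b, hb.1, w, ⟨ha, fun x hx hxa => ?_⟩, ⟨s, hs⟩, hb⟩
    have := hw1 (a - x) (Finset.mem_image_of_mem _ (Finset.mem_erase.2 ⟨hxa, hx⟩))
    rw [map_sub] at this
    exact sub_pos.1 this
  choose g hgX hgR using fun b : X => hRtot b b.2
  let G : X → X := fun b => ⟨g b, hgX b⟩
  have hGsurj : Function.Surjective G := by
    rintro ⟨a, ha⟩
    obtain ⟨b, hb, hab⟩ := hRsurj a ha
    exact ⟨⟨b, hb⟩, Subtype.ext (hRuniq _ _ b hab (hgR ⟨b, hb⟩))⟩
  have hGbij : Function.Bijective G := Finite.injective_iff_bijective.1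
    (Finite.injective_iff_surjective.2 hGsurj)
  let σ : Equiv.Perm X := Equiv.ofBijective G hGbij
  obtain ⟨N, hN0, hN⟩ := isOfFinOrder_iff_pow_eq_one.1 (isOfFinOrder_of_finite σ)
  have hiter : ∀ x, G^[N] x = x := by
    intro x
    have h1 : (σ ^ N) x = x := by rw [hN]; rfl
    rwa [Equiv.Perm.coe_pow] at h1
  -- generic functionals
  have hkey : ∀ (w : E →ₗ[ℝ] ℝ), (∀ z ∈ Zk N, w z ≠ 0) → ∀ a, Umx w X a →
      Umx (w.comp ((M ^ N : E ≃ₗ[ℝ] E) : E →ₗ[ℝ] E)) X a := by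
    intro w hw a ha
    choose! b hb using fun k (hk : k ≤ N) => (hgen N w hw k hk).1
    have hb0 : b 0 = a := by
      by_contra hne
      have h1 := hb 0 (Nat.zero_le _)
      rw [hzero] at h1
      have h2 := ha.2 _ h1.1 hne
      have h3 := h1.2 _ ha.1 (Ne.symm hne)
      linarith
    have hstep : ∀ k (hk : k < N), G ⟨b (k + 1), (hb (k + 1) hk).1⟩ = ⟨b k, (hb k hk.le).1⟩ := by
      intro k hk
      apply Subtype.ext
      refine hRuniq _ _ (b (k + 1)) ?_ (hgR ⟨b (k + 1), _⟩)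
      refine ⟨_, hb k hk.le, (hgen N w hw k hk.le).2, ?_⟩
      rw [hcomp]
      exact hb (k + 1) hk
    have hall : ∀ k (hk : k ≤ N), G^[k] ⟨b k, (hb k hk).1⟩ = ⟨b 0, (hb 0 (Nat.zero_le _)).1⟩ := by
      intro k
      induction k with
      | zero => intro hk; rfl
      | succ k ih =>
        intro hk
        rw [Function.iterate_succ_apply, hstep k hk, ih (Nat.le_of_succ_le hk)]
    have h1 := hall N le_rfl
    rw [hiter] at h1
    have h2 : b N = a := by rw [← hb0]; exact congrArg Subtype.val h1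
    rw [← h2]
    exact hb N le_rfl
  refine ⟨N, hN0, fun w a ha => ⟨fun hmax x hx => ?_, fun hmax x hx => ?_⟩⟩
  · by_contra hcon
    push Not at hcon
    obtain ⟨wa, hwa⟩ := h.exposed a ha
    obtain ⟨ε, hε, h1, h2⟩ := pert_umx hmax hwa {(M ^ N) x - (M ^ N) a} (by
      intro y hy
      rw [Finset.mem_singleton.1 hy, map_sub]
      exact sub_pos.2 hcon)
    obtain ⟨w', hw1, hw2⟩ := generic_pert (w + ε • wa)
      (insert ((M ^ N) x - (M ^ N) a) ((X.erase a).image fun x => a - x)) (by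
        intro y hy
        rcases Finset.mem_insert.1 hy with rfl | hy
        · exact h2 _ (Finset.mem_singleton_self _)
        · obtain ⟨x, hx, rfl⟩ := Finset.mem_image.1 hy
          rw [map_sub]
          exact sub_pos.2 (h1.2 x (Finset.mem_of_mem_erase hx) (Finset.ne_of_mem_erase hx)))
      (Zk N) (hZk0 N)
    have h3 : Umx w' X a := ⟨ha, fun x hx hxa => by
      have := hw1 (a - x) (Finset.mem_insert_of_mem (Finset.mem_image_of_mem _
        (Finset.mem_erase.2 ⟨hxa, hx⟩)))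
      rw [map_sub] at this
      exact sub_pos.1 this⟩
    have h4 := (hkey w' hw2 a h3).le hx
    have h5 := hw1 _ (Finset.mem_insert_self _ _)
    rw [map_sub] at h5
    simp only [LinearMap.comp_apply, LinearEquiv.coe_coe] at h4
    linarith
  · by_contra hcon
    push Not at hcon
    obtain ⟨wa, hwa⟩ := h.exposed a ha
    obtain ⟨ε, hε, h1, h2⟩ := pert_umx (w := w.comp ((M ^ N : E ≃ₗ[ℝ] E) : E →ₗ[ℝ] E)) hmax hwa
      {(M ^ N).symm x - (M ^ N).symm a} (by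
      intro y hy
      rw [Finset.mem_singleton.1 hy, map_sub]
      simp only [LinearMap.comp_apply, LinearEquiv.coe_coe, LinearEquiv.apply_symm_apply]
      exact sub_pos.2 hcon)
    let w₁ : E →ₗ[ℝ] ℝ := w + ε • wa.comp ((M ^ N : E ≃ₗ[ℝ] E).symm : E →ₗ[ℝ] E)
    have hw₁ : ∀ z, w₁ ((M ^ N) z) =
        (w.comp ((M ^ N : E ≃ₗ[ℝ] E) : E →ₗ[ℝ] E) + ε • wa) z := by
      intro z
      simp only [w₁, LinearMap.add_apply, LinearMap.smul_apply, LinearMap.comp_apply,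
        LinearEquiv.coe_coe, LinearEquiv.symm_apply_apply]
    obtain ⟨w', hw1, hw2⟩ := generic_pert w₁
      (insert (x - a) ((X.erase a).image fun x => (M ^ N) (a - x))) (by
        intro y hy
        rcases Finset.mem_insert.1 hy with rfl | hy
        · have := h2 _ (Finset.mem_singleton_self _)
          rw [← hw₁, map_sub, LinearEquiv.apply_symm_apply, LinearEquiv.apply_symm_apply] at this
          exact this
        · obtain ⟨x, hx, rfl⟩ := Finset.mem_image.1 hy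
          rw [hw₁, map_sub]
          exact sub_pos.2 (h1.2 x (Finset.mem_of_mem_erase hx) (Finset.ne_of_mem_erase hx)))
      (Zk N) (hZk0 N)
    have h3 : Umx (w'.comp ((M ^ N : E ≃ₗ[ℝ] E) : E →ₗ[ℝ] E)) X a := ⟨ha, fun x hx hxa => by
      have := hw1 ((M ^ N) (a - x)) (Finset.mem_insert_of_mem (Finset.mem_image_of_mem _
        (Finset.mem_erase.2 ⟨hxa, hx⟩)))
      rw [map_sub, map_sub] at this
      exact sub_pos.1 this⟩
    obtain ⟨⟨a', ha'⟩, -⟩ := hgen N w' hw2 0 (Nat.zero_le _)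
    rw [hzero] at ha'
    have h4 := hkey w' hw2 a' ha'
    have h5 : a' = a := by
      by_contra hne
      have e1 := h3.2 a' ha'.1 hne
      have e2 := h4.2 a ha (Ne.symm hne)
      linarith
    rw [h5] at ha'
    have h6 := ha'.le hx
    have h7 := hw1 _ (Finset.mem_insert_self _ _)
    rw [map_sub] at h7
    linarith

end Fan

end Pool.Agent.PolyTile
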