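import Mathlib

/-!
Self-affine tiles: basic measure-theoretic facts.
-/

open Set Filter Topology MeasureTheory
open scoped Pointwise

namespace Pool.Agent.PolyTile

variable {E : Type*} [NormedAddCommGroup E] [NormedSpace ℝ E] [FiniteDimensional ℝ E]
  [MeasurableSpace E] [BorelSpace E]

/-- A self-affine tile. -/
structure Tile (M : E ≃ₗ[ℝ] E) (S : Finset E) (P : Set E) : Prop where
  compact : IsCompact P
  int : (interior P).Nonempty
  eq : M '' P = P + (S : Set E)
  card : (S.card : ℝ) = |LinearMap.det (M : E →ₗ[ℝ] E)|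

/-- Measure of a finite union equal to the sum of measures: null intersections. -/
lemma null_inter {ι : Type*} (μ : Measure E) (s : Finset ι) (A : ι → Set E)
    (hA : ∀ i, MeasurableSet (A i)) (hfin : ∀ i, μ (A i) ≠ ⊤)
    (h : ∑ i ∈ s, μ (A i) ≤ μ (⋃ i ∈ s, A i)) {i j : ι} (hi : i ∈ s) (hj : j ∈ s) (hij : i ≠ j) :
    μ (A i ∩ A j) = 0 := by
  classical
  have hjs : j ∈ s.erase i := Finset.mem_erase.2 ⟨hij.symm, hj⟩
  have e1 : ∑ k ∈ s, μ (A k) = μ (A i ∪ A j) + μ (A i ∩ A j) +
      ∑ k ∈ (s.erase i).erase j, μ (A k) := by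
    rw [measure_union_add_inter _ (hA j), ← Finset.add_sum_erase s _ hi,
      ← Finset.add_sum_erase (s.erase i) _ hjs, add_assoc]
  have e2 : μ (⋃ k ∈ s, A k) ≤ μ (A i ∪ A j) + ∑ k ∈ (s.erase i).erase j, μ (A k) := by
    have hsub : (⋃ k ∈ s, A k) ⊆ (A i ∪ A j) ∪ ⋃ k ∈ (s.erase i).erase j, A k := by
      intro x hx
      obtain ⟨k, hk, hxk⟩ := mem_iUnion₂.1 hx
      by_cases h1 : k = i
      · exact Or.inl (Or.inl (h1 ▸ hxk))
      · by_cases h2 : k = j
        · exact Or.inl (Or.inr (h2 ▸ hxk))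
        · exact Or.inr (mem_iUnion₂.2 ⟨k, Finset.mem_erase.2 ⟨h2, Finset.mem_erase.2 ⟨h1, hk⟩⟩, hxk⟩)
    exact (measure_mono hsub).trans ((measure_union_le _ _).trans
      (add_le_add le_rfl (measure_biUnion_finset_le _ _)))
  have hfin2 : μ (A i ∪ A j) + ∑ k ∈ (s.erase i).erase j, μ (A k) ≠ ⊤ := by
    refine ENNReal.add_ne_top.2 ⟨?_, ?_⟩
    · exact ((measure_union_le _ _).trans_lt (ENNReal.add_lt_top.2
        ⟨(hfin i).lt_top, (hfin j).lt_top⟩)).ne
    · exact ENNReal.sum_ne_top.2 fun k _ => hfin k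
  have e3 : μ (A i ∩ A j) + (μ (A i ∪ A j) + ∑ k ∈ (s.erase i).erase j, μ (A k)) ≤
      0 + (μ (A i ∪ A j) + ∑ k ∈ (s.erase i).erase j, μ (A k)) := by
    calc _ = ∑ k ∈ s, μ (A k) := by rw [e1]; ring
      _ ≤ _ := h.trans e2
      _ = _ := by rw [zero_add]
  exact le_antisymm ((ENNReal.add_le_add_iff_right hfin2).1 e3) zero_le

variable (μ : Measure E) [μ.IsAddHaarMeasure]

lemma add_eq_iUnion (P : Set E) (S : Finset E) : P + (S : Set E) = ⋃ s ∈ S, (fun x => x + s) '' P := by
  ext x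
  simp only [Set.mem_add, mem_iUnion, mem_image, Finset.mem_coe]
  constructor
  · rintro ⟨y, hy, s, hs, rfl⟩
    exact ⟨s, hs, y, hy, rfl⟩
  · rintro ⟨s, hs, y, hy, rfl⟩
    exact ⟨y, hy, s, hs, rfl⟩

lemma measure_translate (P : Set E) (s : E) : μ ((fun x => x + s) '' P) = μ P := by
  rw [image_add_right, measure_preimage_add_right]

variable {M : E ≃ₗ[ℝ] E} {S : Finset E} {P : Set E}

namespace Tile

lemma pos (h : Tile M S P) : 0 < μ P :=
  (isOpen_interior.measure_pos μ h.int).trans_le (measure_mono interior_subset)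

lemma finite (h : Tile M S P) : μ P ≠ ⊤ := h.compact.measure_lt_top.ne

lemma measure_image (M : E ≃ₗ[ℝ] E) (P : Set E) :
    μ (M '' P) = ENNReal.ofReal |LinearMap.det (M : E →ₗ[ℝ] E)| * μ P :=
  Measure.addHaar_image_linearMap μ (M : E →ₗ[ℝ] E) P

lemma measure_add_le (P : Set E) (S : Finset E) : μ (P + (S : Set E)) ≤ S.card * μ P := by
  rw [add_eq_iUnion]
  refine (measure_biUnion_finset_le _ _).trans ?_
  simp only [measure_translate]
  rw [Finset.sum_const, nsmul_eq_mul]

lemma sum_le (h : Tile M S P) :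
    ∑ s ∈ S, μ ((fun x => x + s) '' P) ≤ μ (⋃ s ∈ S, (fun x => x + s) '' P) := by
  rw [← add_eq_iUnion, ← h.eq, measure_image, ← h.card]
  simp only [measure_translate]
  rw [Finset.sum_const, nsmul_eq_mul, ENNReal.ofReal_natCast]

lemma null (h : Tile M S P) {s s' : E} (hs : s ∈ S) (hs' : s' ∈ S) (hne : s ≠ s') :
    μ (((fun x => x + s) '' P) ∩ ((fun x => x + s') '' P)) = 0 := by
  refine null_inter μ S (fun s => (fun x => x + s) '' P) (fun s => ?_) (fun s => ?_) (h.sum_le μ)
    hs hs' hne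
  · exact (h.compact.image (by fun_prop)).measurableSet
  · rw [measure_translate]; exact h.finite μ

/-- The almost everywhere relation of the indicator functions. -/
lemma indicator_rel (h : Tile M S P) :
    ∀ᵐ x ∂μ, P.indicator (fun _ => (1 : ℂ)) (M.symm x) =
      ∑ s ∈ S, P.indicator (fun _ => (1 : ℂ)) (x - s) := by
  classical
  have hnull : ∀ᵐ x ∂μ, ∀ s ∈ S, ∀ s' ∈ S, s ≠ s' → ¬ (x - s ∈ P ∧ x - s' ∈ P) := by
    rw [Filter.eventually_all_finset]
    intro s hs
    rw [Filter.eventually_all_finset]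
    intro s' hs'
    by_cases hne : s = s'
    · exact Filter.Eventually.of_forall fun x h => absurd hne h
    · have h1 := h.null μ hs hs' hne
      rw [← compl_mem_ae_iff] at h1
      filter_upwards [h1] with x hx _ hcon
      exact hx ⟨⟨x - s, hcon.1, sub_add_cancel _ _⟩, ⟨x - s', hcon.2, sub_add_cancel _ _⟩⟩
  filter_upwards [hnull] with x hx
  have hmem : M.symm x ∈ P ↔ ∃ s ∈ S, x - s ∈ P := by
    constructor
    · intro h1
      have h2 : x ∈ M '' P := ⟨_, h1, M.apply_symm_apply x⟩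
      rw [h.eq, Set.mem_add] at h2
      obtain ⟨y, hy, s, hs, rfl⟩ := h2
      exact ⟨s, hs, by rwa [add_sub_cancel_right]⟩
    · rintro ⟨s, hs, h1⟩
      have h2 : x ∈ P + (S : Set E) := ⟨x - s, h1, s, hs, sub_add_cancel _ _⟩
      rw [← h.eq] at h2
      obtain ⟨y, hy, rfl⟩ := h2
      rwa [M.symm_apply_apply]
  by_cases hm : M.symm x ∈ P
  · rw [indicator_of_mem hm]
    obtain ⟨s, hs, hsP⟩ := hmem.1 hm
    rw [Finset.sum_eq_single s, indicator_of_mem hsP]
    · intro s' hs' hne
      exact indicator_of_notMem (fun hcon => hx s hs s' hs' hne.symm ⟨hsP, hcon⟩) _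
    · exact fun hcon => absurd hs hcon
  · rw [indicator_of_notMem hm]
    symm
    refine Finset.sum_eq_zero fun s hs => ?_
    exact indicator_of_notMem (fun hcon => hm (hmem.2 ⟨s, hs, hcon⟩)) _

/-- Composition of tiles. -/
lemma comp [DecidableEq E] {M' : E ≃ₗ[ℝ] E} {S' : Finset E} (h : Tile M S P)
    (h' : Tile M' S' P) :
    Tile (M' * M) (S' + S.image M') P ∧ (S' + S.image M').card = S'.card * S.card := by
  let μ : Measure E := Measure.addHaar
  have heq : (M' * M : E ≃ₗ[ℝ] E) '' P = P + ((S' + S.image M' : Finset E) : Set E) := by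
    have h1 : (M' * M : E ≃ₗ[ℝ] E) '' P = M' '' (M '' P) := by
      rw [image_image]; rfl
    rw [h1, h.eq, Finset.coe_add, Finset.coe_image, ← add_assoc, ← h'.eq]
    exact Set.image_add M'
  have hdet : |LinearMap.det ((M' * M : E ≃ₗ[ℝ] E) : E →ₗ[ℝ] E)| = (S'.card : ℝ) * S.card := by
    have : ((M' * M : E ≃ₗ[ℝ] E) : E →ₗ[ℝ] E) = (M' : E →ₗ[ℝ] E) * (M : E →ₗ[ℝ] E) := rfl
    rw [this, map_mul, abs_mul, ← h.card, ← h'.card]
  have hle : (S' + S.image M').card ≤ S'.card * S.card :=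
    Finset.card_add_le.trans (Nat.mul_le_mul_left _ Finset.card_image_le)
  have hge : S'.card * S.card ≤ (S' + S.image M').card := by
    have h1 : μ ((M' * M : E ≃ₗ[ℝ] E) '' P) ≤ (S' + S.image M').card * μ P := by
      rw [heq]; exact measure_add_le μ _ _
    rw [measure_image, hdet] at h1
    have h2 := (ENNReal.mul_le_mul_iff_left (h.pos μ).ne' (h.finite μ)).1 h1
    have h3 : ENNReal.ofReal ((S'.card : ℝ) * S.card) = ((S'.card * S.card : ℕ) : ENNReal) := by
      rw [← Nat.cast_mul, ENNReal.ofReal_natCast]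
    rw [h3] at h2
    exact_mod_cast h2
  have hcard := le_antisymm hle hge
  exact ⟨⟨h.compact, h.int, heq, by rw [hcard, hdet]; push_cast; ring⟩, hcard⟩

end Tile

/-- The digit sets of the powers. -/
noncomputable def pw [DecidableEq E] (M : E ≃ₗ[ℝ] E) (S : Finset E) : ℕ → Finset E
  | 0 => {0}
  | k + 1 => S + (pw M S k).image M

lemma tile_zero (h : Tile M S P) : Tile (1 : E ≃ₗ[ℝ] E) {0} P where
  compact := h.compact
  int := h.int
  eq := by
    have : ((1 : E ≃ₗ[ℝ] E) : E → E) = id := rfl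
    rw [this, image_id, Finset.coe_singleton, add_singleton]
    simp
  card := by
    have : ((1 : E ≃ₗ[ℝ] E) : E →ₗ[ℝ] E) = LinearMap.id := rfl
    rw [this, LinearMap.det_id]
    simp

lemma tile_pow [DecidableEq E] (h : Tile M S P) (k : ℕ) : Tile (M ^ k) (pw M S k) P := by
  induction k with
  | zero => exact tile_zero h
  | succ k ih =>
    rw [pow_succ']
    exact (ih.comp h).1

lemma card_pw_succ [DecidableEq E] (h : Tile M S P) (k : ℕ) :
    (pw M S (k + 1)).card = S.card * (pw M S k).card := ((tile_pow h k).comp h).2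

/-- The digit sets are uniformly separated. -/
lemma separated [DecidableEq E] (h : Tile M S P) :
    ∃ δ > 0, ∀ k, ∀ s ∈ pw M S k, ∀ s' ∈ pw M S k, s ≠ s' → δ ≤ ‖s - s'‖ := by
  let μ : Measure E := Measure.addHaar
  obtain ⟨c, hc⟩ := h.int
  obtain ⟨r, hr, hball⟩ := Metric.isOpen_iff.1 isOpen_interior c hc
  refine ⟨r, hr, fun k s hs s' hs' hne => ?_⟩
  by_contra hcon
  push Not at hcon
  have hnull := (tile_pow h k).null μ hs hs' hne
  have hopen : IsOpen (Metric.ball (c + s) r ∩ Metric.ball (c + s') r) :=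
    Metric.isOpen_ball.inter Metric.isOpen_ball
  have hne' : (Metric.ball (c + s) r ∩ Metric.ball (c + s') r).Nonempty := by
    refine ⟨c + s, Metric.mem_ball_self hr, ?_⟩
    rw [Metric.mem_ball, dist_eq_norm, add_sub_add_left_eq_sub]
    exact hcon
  have hpos := hopen.measure_pos μ hne'
  have hsub : Metric.ball (c + s) r ∩ Metric.ball (c + s') r ⊆
      ((fun x => x + s) '' P) ∩ ((fun x => x + s') '' P) := by
    have aux : ∀ t : E, Metric.ball (c + t) r ⊆ (fun x => x + t) '' P := by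
      intro t x hx
      refine ⟨x - t, interior_subset (hball ?_), sub_add_cancel _ _⟩
      rw [Metric.mem_ball, dist_eq_norm] at hx ⊢
      rwa [show x - t - c = x - (c + t) by abel]
    exact inter_subset_inter (aux s) (aux s')
  have := (measure_mono hsub).trans_eq hnull
  exact absurd hpos (not_lt.2 this)

end Pool.Agent.PolyTile
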