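import Mathlib
import Pool.Agent.Lib.PolyTile.Fan
import Pool.Agent.Lib.PolyTile.Tile

/-!
Edges of the convex hull of a self-affine polyhedron.
-/

open Set Filter Topology MeasureTheory
open scoped Pointwise

namespace Pool.Agent.PolyTile

section Exists

variable {E : Type*} [NormedAddCommGroup E] [NormedSpace ℝ E]

/-- Passing to the vertices. -/
lemma exists_vert {M : E ≃ₗ[ℝ] E} {S : Finset E} {P : Set E} (X₀ : Finset E)
    (h1 : (X₀ : Set E) ⊆ P) (h2 : P ⊆ convexHull ℝ (X₀ : Set E)) (hP : P.Nonempty)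
    (heq : M '' P = P + (S : Set E)) : ∃ X : Finset E, X.Nonempty ∧ Vert M S P X := by
  classical
  let X := X₀.filter fun a => ∃ w : E →ₗ[ℝ] ℝ, Umx w X₀ a
  have hXX : ∀ x ∈ X, x ∈ X₀ := fun x hx => (Finset.mem_filter.1 hx).1
  have hX₀ : X₀.Nonempty := by
    obtain ⟨p, hp⟩ := hP
    by_contra hcon
    rw [Finset.not_nonempty_iff_eq_empty] at hcon
    have := h2 hp
    rw [hcon] at this
    simp at this
  let Z : Finset E := ((X₀ ×ˢ X₀).image (fun q => q.1 - q.2)).filter fun z => z ≠ 0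
  have hZX : ∀ x ∈ X₀, ∀ y ∈ X₀, x ≠ y → x - y ∈ Z := fun x hx y hy hxy =>
    Finset.mem_filter.2 ⟨Finset.mem_image.2
      ⟨(x, y), Finset.mem_product.2 ⟨hx, hy⟩, rfl⟩, sub_ne_zero.2 hxy⟩
  have hZ0 : ∀ z ∈ Z, z ≠ 0 := fun z hz => (Finset.mem_filter.1 hz).2
  refine ⟨X, ?_, ?_, ?_, ?_, heq⟩
  · obtain ⟨w, -, hw⟩ := generic_pert (0 : E →ₗ[ℝ] ℝ) ∅ (by simp) Z hZ0
    obtain ⟨a, ha⟩ := exists_umx w hX₀ fun x hx y hy hxy => hw _ (hZX x hx y hy hxy)
    exact ⟨a, Finset.mem_filter.2 ⟨ha.1, w, ha⟩⟩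
  · exact fun x hx => h1 (hXX x hx)
  · intro x hx
    by_contra hcon
    obtain ⟨f, u, hf1, hf2⟩ := geometric_hahn_banach_closed_point (convex_convexHull ℝ (X : Set E))
      (X.finite_toSet.isClosed_convexHull ℝ) hcon
    obtain ⟨w, hw1, hw2⟩ := generic_pert (f : E →ₗ[ℝ] ℝ) (X.image fun y => x - y) (by
      intro z hz
      obtain ⟨y, hy, rfl⟩ := Finset.mem_image.1 hz
      have e1 : f y < u := hf1 y (subset_convexHull ℝ _ hy)
      have e2 : f (x - y) = f x - f y := map_sub f x y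
      change 0 < f (x - y)
      rw [e2]
      linarith) Z hZ0
    obtain ⟨a, ha⟩ := exists_umx w hX₀ fun x hx y hy hxy => hw2 _ (hZX x hx y hy hxy)
    have haX : a ∈ X := Finset.mem_filter.2 ⟨ha.1, w, ha⟩
    have h3 : w x ≤ w a := conv_le (fun y hy => ha.le hy) (h2 hx)
    have h4 := hw1 (x - a) (Finset.mem_image_of_mem _ haX)
    rw [map_sub] at h4
    linarith
  · intro a ha
    obtain ⟨w, hw⟩ := (Finset.mem_filter.1 ha).2
    exact ⟨w, ha, fun x hx hxa => hw.2 x (hXX x hx) hxa⟩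

end Exists

section OneDim

/-- Finite separated subsets of an interval. -/
lemma card_separated (D : Finset ℝ) {L δ : ℝ} (hL : 0 ≤ L) (hδ : 0 < δ)
    (hD : ∀ x ∈ D, 0 ≤ x ∧ x ≤ L)
    (hsep : ∀ x ∈ D, ∀ y ∈ D, x ≠ y → δ ≤ |x - y|) : (D.card : ℝ) ≤ L / δ + 1 := by
  have hinj : Set.InjOn (fun x : ℝ => ⌊x / δ⌋₊) (D : Set ℝ) := by
    intro x hx y hy hxy
    by_contra hne
    have h1 := hsep x hx y hy hne
    have hx0 : 0 ≤ x / δ := div_nonneg (hD x hx).1 hδ.le
    have hy0 : 0 ≤ y / δ := div_nonneg (hD y hy).1 hδ.le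
    have a1 := Nat.floor_le hx0
    have a2 := Nat.lt_floor_add_one (x / δ)
    have b1 := Nat.floor_le hy0
    have b2 := Nat.lt_floor_add_one (y / δ)
    have hxy' : ((⌊x / δ⌋₊ : ℕ) : ℝ) = ((⌊y / δ⌋₊ : ℕ) : ℝ) := by exact_mod_cast hxy
    have h2 : |x / δ - y / δ| < 1 := by
      rw [abs_lt]; constructor <;> linarith
    rw [← sub_div, abs_div, abs_of_pos hδ, div_lt_one hδ] at h2
    linarith
  have hmaps : ∀ x ∈ D, ⌊x / δ⌋₊ ∈ Finset.range (⌊L / δ⌋₊ + 1) := by
    intro x hx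
    rw [Finset.mem_range, Nat.lt_succ_iff]
    exact Nat.floor_le_floor (div_le_div_of_nonneg_right (hD x hx).2 hδ.le)
  have h1 := Finset.card_le_card_of_injOn _ hmaps hinj
  rw [Finset.card_range] at h1
  have h2 : ((⌊L / δ⌋₊ : ℕ) : ℝ) ≤ L / δ := Nat.floor_le (div_nonneg hL hδ.le)
  have h3 : (D.card : ℝ) ≤ ((⌊L / δ⌋₊ + 1 : ℕ) : ℝ) := by exact_mod_cast h1
  push_cast at h3
  linarith

/-- Growth comparison. -/
lemma le_of_pow_le {a b C : ℝ} (ha : 0 ≤ a) (hb : 0 < b) (h : ∀ k : ℕ, a ^ k ≤ C * b ^ k) :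
    a ≤ b := by
  by_contra hcon
  push Not at hcon
  have h1 : 1 < a / b := by rwa [one_lt_div hb]
  obtain ⟨k, hk⟩ := pow_unbounded_of_one_lt C h1
  have h2 := h k
  rw [div_pow, lt_div_iff₀ (pow_pos hb k)] at hk
  linarith

/-- Lower bound for the number of digits on an edge. -/
lemma lower_bound {A : Set ℝ} {D' : Finset ℝ} {μ : ℝ} (hμ1 : 1 < μ)
    (hA01 : ∀ t ∈ A, 0 ≤ t ∧ t ≤ 1) (h1A : (1 : ℝ) ∈ A) (h0D : (0 : ℝ) ∈ D')
    (hforw' : ∀ t ∈ A, ∀ x ∈ D', ∃ t' ∈ A, t + x = μ * t')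
    (hback' : ∀ t' ∈ A, ∃ t ∈ A, ∃ x ∈ D', t + x = μ * t')
    (hconv : ∃ (κ : Type) (_ : Finite κ) (Q : κ → Set ℝ), (∀ k, Convex ℝ (Q k)) ∧ A = ⋃ k, Q k) :
    μ ≤ D'.card := by
  classical
  have hμpos : 0 < μ := by linarith
  have hAinf : A.Infinite := by
    intro hfin
    let Ap := hfin.toFinset.filter fun t => 0 < t
    have hne : Ap.Nonempty := ⟨1, Finset.mem_filter.2 ⟨hfin.mem_toFinset.2 h1A, one_pos⟩⟩
    obtain ⟨x, hx, hmin⟩ := Ap.exists_min_image id hne
    obtain ⟨hxA, hx0⟩ := Finset.mem_filter.1 hx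
    obtain ⟨t', ht', he⟩ := hforw' x (hfin.mem_toFinset.1 hxA) 0 h0D
    rw [add_zero] at he
    have ht'0 : 0 < t' := by
      by_contra hcon
      push Not at hcon
      have := mul_nonpos_of_nonneg_of_nonpos hμpos.le hcon
      linarith
    have h1 := hmin t' (Finset.mem_filter.2 ⟨hfin.mem_toFinset.2 ht', ht'0⟩)
    simp only [id] at h1
    nlinarith
  have hvolA : 0 < volume A := by
    obtain ⟨κ, _, Q, hQ, hAu⟩ := hconv
    have hex : ∃ k, (Q k).Infinite := by
      by_contra hcon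
      push Not at hcon
      apply hAinf
      rw [hAu]
      exact Set.finite_iUnion hcon
    obtain ⟨k, hk⟩ := hex
    obtain ⟨p, hp, q, hq, hpq⟩ := hk.nontrivial
    wlog hlt : p < q generalizing p q
    · exact this q hq p hp hpq.symm (lt_of_le_of_ne (not_lt.1 hlt) hpq.symm)
    have hsub : Icc p q ⊆ A := by
      refine ((hQ k).ordConnected.out hp hq).trans ?_
      rw [hAu]
      exact subset_iUnion Q k
    refine lt_of_lt_of_le ?_ (measure_mono hsub)
    rw [Real.volume_Icc]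
    exact ENNReal.ofReal_pos.2 (sub_pos.2 hlt)
  have hvolfin : volume A ≠ ⊤ := by
    have hsub : A ⊆ Icc 0 1 := fun t ht => hA01 t ht
    exact ((measure_mono hsub).trans_lt (by rw [Real.volume_Icc]; exact ENNReal.ofReal_lt_top)).ne
  have h1 : (fun t => μ * t) '' A ⊆ ⋃ x ∈ D', (fun t => t + x) '' A := by
    rintro _ ⟨t', ht', rfl⟩
    obtain ⟨t, ht, x, hx, he⟩ := hback' t' ht'
    exact mem_iUnion₂.2 ⟨x, hx, t, ht, he⟩
  have h2 : volume ((fun t => μ * t) '' A) = ENNReal.ofReal μ * volume A := by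
    have := Measure.addHaar_smul (volume : Measure ℝ) μ A
    rw [Module.finrank_self, pow_one, abs_of_pos hμpos] at this
    exact this
  have h3 : volume (⋃ x ∈ D', (fun t => t + x) '' A) ≤ D'.card * volume A := by
    refine (measure_biUnion_finset_le _ _).trans ?_
    simp only [image_add_right, measure_preimage_add_right]
    rw [Finset.sum_const, nsmul_eq_mul]
  have h4 := (measure_mono h1).trans h3
  rw [h2] at h4
  have h5 := (ENNReal.mul_le_mul_iff_left hvolA.ne' hvolfin).1 h4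
  rw [← ENNReal.ofReal_natCast] at h5
  exact (ENNReal.ofReal_le_ofReal_iff (by positivity)).1 h5

/-- The one-dimensional digit sets. -/
noncomputable def dk (D' : Finset ℝ) (μ : ℝ) : ℕ → Finset ℝ
  | 0 => {0}
  | k + 1 => (D' ×ˢ dk D' μ k).image fun q => q.1 + μ * q.2

lemma dk_bound {D' : Finset ℝ} {μ : ℝ} (hμ : 0 ≤ μ) (hDnn : ∀ x ∈ D', 0 ≤ x)
    (hDle : ∀ x ∈ D', x ≤ μ - 1) (k : ℕ) : ∀ t ∈ dk D' μ k, 0 ≤ t ∧ t ≤ μ ^ k - 1 := by
  induction k with
  | zero =>
    intro t ht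
    rw [dk, Finset.mem_singleton] at ht
    rw [ht]; simp
  | succ k ih =>
    intro t ht
    rw [dk] at ht
    obtain ⟨⟨x, t'⟩, hq, rfl⟩ := Finset.mem_image.1 ht
    obtain ⟨hx, ht'⟩ := Finset.mem_product.1 hq
    simp only at hx ht' ⊢
    have h1 := hDnn x hx
    have h2 := hDle x hx
    obtain ⟨h3, h4⟩ := ih t' ht'
    constructor
    · exact add_nonneg h1 (mul_nonneg hμ h3)
    · have : μ * t' ≤ μ * (μ ^ k - 1) := mul_le_mul_of_nonneg_left h4 hμ
      rw [pow_succ']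
      linarith

end OneDim

section Edge

variable {E : Type*} [NormedAddCommGroup E] [NormedSpace ℝ E] [FiniteDimensional ℝ E]
  [MeasurableSpace E] [BorelSpace E]
variable {M : E ≃ₗ[ℝ] E} {S : Finset E} {P : Set E} {X : Finset E}

/-- The base points of the one-dimensional digit sets. -/
def ck (M : E ≃ₗ[ℝ] E) (p : E) : ℕ → E
  | 0 => 0
  | k + 1 => p + M (ck M p k)

/-- Upper bound for the number of digits on an edge. -/
lemma upper_bound (hT : Tile M S P) {u : E} (hu0 : u ≠ 0) {μ : ℝ} (hμ1 : 1 < μ)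
    (hμ : M u = μ • u) {D' : Finset ℝ} {p : E} (hD'S : ∀ x ∈ D', p + x • u ∈ S)
    (hDnn : ∀ x ∈ D', 0 ≤ x) (hDle : ∀ x ∈ D', x ≤ μ - 1) : (D'.card : ℝ) ≤ μ := by
  classical
  have hμpos : 0 < μ := by linarith
  obtain ⟨δ, hδ, hsep⟩ := separated hT
  have hstep : ∀ k x t, ck M p (k + 1) + (x + μ * t) • u = (p + x • u) + M (ck M p k + t • u) := by
    intro k x t
    rw [ck, map_add, map_smul, hμ, add_smul, smul_smul, mul_comm μ t]
    abel
  have hmem : ∀ k, ∀ t ∈ dk D' μ k, ck M p k + t • u ∈ pw M S k := by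
    intro k
    induction k with
    | zero =>
      intro t ht
      rw [dk, Finset.mem_singleton] at ht
      rw [ht, ck, pw]
      simp
    | succ k ih =>
      intro t ht
      rw [dk] at ht
      obtain ⟨⟨x, t'⟩, hq, rfl⟩ := Finset.mem_image.1 ht
      obtain ⟨hx, ht'⟩ := Finset.mem_product.1 hq
      simp only
      rw [hstep, pw]
      exact Finset.add_mem_add (hD'S x hx) (Finset.mem_image_of_mem _ (ih t' ht'))
  have hcardk : ∀ k, (dk D' μ k).card = D'.card ^ k := by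
    intro k
    induction k with
    | zero => rw [dk, pow_zero, Finset.card_singleton]
    | succ k ih =>
      have h1 : (pw M S (k + 1)).card = S.card * ((pw M S k).image M).card := by
        rw [card_pw_succ hT, Finset.card_image_of_injective _ M.injective]
      rw [pw] at h1
      have h2 := Finset.card_add_iff.1 h1
      rw [dk, Finset.card_image_of_injOn, Finset.card_product, ih, pow_succ, mul_comm]
      rintro ⟨x, t⟩ hq ⟨x', t'⟩ hq' he
      simp only at he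
      rw [Finset.mem_coe, Finset.mem_product] at hq hq'
      have h3 := @h2 (p + x • u, M (ck M p k + t • u))
        ⟨hD'S x hq.1, Finset.mem_coe.2 (Finset.mem_image_of_mem _ (hmem k t hq.2))⟩
        (p + x' • u, M (ck M p k + t' • u))
        ⟨hD'S x' hq'.1, Finset.mem_coe.2 (Finset.mem_image_of_mem _ (hmem k t' hq'.2))⟩
        (by simp only; rw [← hstep, ← hstep, he])
      rw [Prod.mk.injEq] at h3
      have h4 := smul_left_injective ℝ hu0 (add_left_cancel h3.1)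
      have h5 := smul_left_injective ℝ hu0 (add_left_cancel (M.injective h3.2))
      exact Prod.ext h4 h5
  have hunorm : 0 < ‖u‖ := norm_pos_iff.2 hu0
  refine le_of_pow_le (C := ‖u‖ / δ + 1) (Nat.cast_nonneg _) hμpos fun k => ?_
  have hpk : 1 ≤ μ ^ k := one_le_pow₀ hμ1.le
  have h1 := card_separated (dk D' μ k) (L := μ ^ k) (δ := δ / ‖u‖) (by linarith)
    (div_pos hδ hunorm)
    (fun x hx => ⟨(dk_bound hμpos.le hDnn hDle k x hx).1, by
      have := (dk_bound hμpos.le hDnn hDle k x hx).2; linarith⟩)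
    (fun x hx y hy hxy => by
      have e1 := hsep k _ (hmem k x hx) _ (hmem k y hy) (fun h => hxy
        (smul_left_injective ℝ hu0 (add_left_cancel h)))
      rw [add_sub_add_left_eq_sub, ← sub_smul, norm_smul, Real.norm_eq_abs] at e1
      rwa [div_le_iff₀ hunorm])
  rw [hcardk] at h1
  push_cast at h1
  have h2 : μ ^ k / (δ / ‖u‖) + 1 ≤ (‖u‖ / δ + 1) * μ ^ k := by
    have : μ ^ k / (δ / ‖u‖) = ‖u‖ / δ * μ ^ k := by field_simp
    rw [this]
    nlinarith
  linarith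

/-- The edge theorem. -/
theorem edge (hT : Tile M S P) (hV : Vert M S P X) (hS : S.Nonempty)
    (hfan : ∀ (w : E →ₗ[ℝ] ℝ) (a : E), a ∈ X →
      ((∀ x ∈ X, w x ≤ w a) ↔ ∀ x ∈ X, w (M x) ≤ w (M a)))
    (hM1 : ∀ u, M u = u → u = 0)
    (hconv : ∃ (κ : Type) (_ : Finite κ) (Q : κ → Set E), (∀ k, Convex ℝ (Q k)) ∧ P = ⋃ k, Q k)
    (w : E →ₗ[ℝ] ℝ) {a b : E} (ha : a ∈ X) (hb : b ∈ X) (hab : a ≠ b)
    (hmax : ∀ x ∈ X, w x ≤ w a) (hwb : w b = w a)
    (hline : ∀ x ∈ X, w x = w a → ∃ t : ℝ, 0 ≤ t ∧ t ≤ 1 ∧ x = a + t • (b - a)) :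
    ∃ n : ℕ, 2 ≤ n ∧ M (b - a) = (n : ℝ) • (b - a) ∧
      (∃ s ∈ S, ∃ s' ∈ S, ∃ t : ℝ, t ≠ 0 ∧ s - s' = t • (b - a)) ∧
      ∀ c, (∀ s ∈ S, w s ≤ c) → (∃ s ∈ S, w s = c) →
      ∀ [DecidablePred fun s => w s = c], (S.filter fun s => w s = c).card = n := by
  classical
  set u := b - a with hu
  have hu0 : u ≠ 0 := sub_ne_zero.2 hab.symm
  have hwu : w u = 0 := by rw [hu, map_sub, hwb, sub_self]
  let A : Set ℝ := {t | a + t • u ∈ P}
  have h0A : (0 : ℝ) ∈ A := by
    simp only [A, mem_ofPred_eq, zero_smul, add_zero]; exact hV.sub ha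
  have h1A : (1 : ℝ) ∈ A := by
    simp only [A, mem_ofPred_eq, one_smul, hu, add_sub_cancel]; exact hV.sub hb
  -- the segment
  have hseg : ∀ x, x ∈ convexHull ℝ ((X.filter fun y => w y = w a : Finset E) : Set E) →
      ∃ t : ℝ, 0 ≤ t ∧ t ≤ 1 ∧ x = a + t • u := by
    intro x hx
    have hsub : ((X.filter fun y => w y = w a : Finset E) : Set E) ⊆ segment ℝ a b := by
      intro y hy
      rw [Finset.mem_coe, Finset.mem_filter] at hy
      obtain ⟨t, ht0, ht1, rfl⟩ := hline y hy.1 hy.2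
      exact ⟨1 - t, t, by linarith, ht0, by ring, by rw [hu, smul_sub, sub_smul, one_smul]; abel⟩
    obtain ⟨p, q, hp, hq, hpq, rfl⟩ := convexHull_min hsub (convex_segment a b) hx
    refine ⟨q, hq, by linarith, ?_⟩
    rw [hu, smul_sub, show p = 1 - q by linarith, sub_smul, one_smul]
    abel
  have hface : ∀ x ∈ P, w x = w a → ∃ t ∈ A, 0 ≤ t ∧ t ≤ 1 ∧ x = a + t • u := by
    intro x hx hwx
    obtain ⟨t, ht0, ht1, rfl⟩ := hseg x ((conv_face hmax (hV.hull hx)).2 hwx)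
    exact ⟨t, hx, ht0, ht1, rfl⟩
  have hPmax : ∀ x ∈ P, w x ≤ w a := fun x hx => conv_le hmax (hV.hull hx)
  have hA01 : ∀ t ∈ A, 0 ≤ t ∧ t ≤ 1 := by
    intro t ht
    obtain ⟨t', -, h0, h1, he⟩ := hface (a + t • u) ht (by rw [map_add, map_smul, hwu]; simp)
    have : t = t' := by
      have e1 := add_left_cancel he
      exact smul_left_injective ℝ hu0 e1
    rw [this]
    exact ⟨h0, h1⟩
  -- the image
  have hmaxM : ∀ x ∈ X, w (M x) ≤ w (M a) := (hfan w a ha).1 hmax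
  have hmaxb : ∀ x ∈ X, w x ≤ w b := fun x hx => hwb ▸ hmax x hx
  have hwMb : w (M b) = w (M a) :=
    le_antisymm (hmaxM b hb) ((hfan w b hb).1 hmaxb a ha)
  have hwMu : w (M u) = 0 := by rw [hu, map_sub, map_sub, hwMb, sub_self]
  have hPmaxM : ∀ x ∈ P, w (M x) ≤ w (M a) := fun x hx =>
    conv_le (w := w.comp (M : E →ₗ[ℝ] E)) hmaxM (hV.hull hx)
  have hfaceM : ∀ x ∈ P, w (M x) = w (M a) → ∃ t ∈ A, x = a + t • u := by
    intro x hx hwx
    have h1 := (conv_face (w := w.comp (M : E →ₗ[ℝ] E)) (c := w (M a)) hmaxM (hV.hull hx)).2 hwx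
    have h2 : (X.filter fun y => (w.comp (M : E →ₗ[ℝ] E)) y = w (M a)) ⊆
        X.filter fun y => w y = w a := by
      intro y hy
      rw [Finset.mem_filter] at hy ⊢
      refine ⟨hy.1, le_antisymm (hmax y hy.1) ?_⟩
      have h3 : ∀ x ∈ X, w (M x) ≤ w (M y) := fun x hx => by
        have : w (M y) = w (M a) := hy.2
        rw [this]; exact hmaxM x hx
      exact (hfan w y hy.1).2 h3 a ha
    obtain ⟨t, ht0, ht1, rfl⟩ := hseg x (convexHull_mono (Finset.coe_subset.2 h2) h1)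
    exact ⟨t, hx, rfl⟩
  -- maximum over `S`
  obtain ⟨s₀, hs₀, hs₀max⟩ := S.exists_max_image w hS
  set c := w s₀ with hc
  have hsum : w (M a) = w a + c := by
    apply le_antisymm
    · have h1 : M a ∈ P + (S : Set E) := by rw [← hV.eq]; exact ⟨a, hV.sub ha, rfl⟩
      obtain ⟨y, hy, s, hs, hys⟩ := h1
      rw [← hys, map_add]
      exact add_le_add (hPmax y hy) (hs₀max s hs)
    · have h1 : a + s₀ ∈ M '' P := by rw [hV.eq]; exact ⟨a, hV.sub ha, s₀, hs₀, rfl⟩
      obtain ⟨p, hp, hps⟩ := h1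
      have := hPmaxM p hp
      rw [hps, map_add] at this
      exact this
  let D := S.filter fun s => w s = c
  have hforw : ∀ t ∈ A, ∀ s ∈ D, ∃ t' ∈ A, a + t • u + s = M a + t' • M u := by
    intro t ht s hs
    obtain ⟨hsS, hsc⟩ := Finset.mem_filter.1 hs
    have h1 : a + t • u + s ∈ M '' P := by rw [hV.eq]; exact ⟨_, ht, s, hsS, rfl⟩
    obtain ⟨p, hp, hps⟩ := h1
    have h2 : w (M p) = w (M a) := by
      rw [hps, map_add, map_add, map_smul, hwu, smul_zero, add_zero, hsum, hsc]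
    obtain ⟨t', ht', rfl⟩ := hfaceM p hp h2
    exact ⟨t', ht', by rw [← hps, map_add, map_smul]⟩
  have hback : ∀ t' ∈ A, ∃ t ∈ A, ∃ s ∈ D, a + t • u + s = M a + t' • M u := by
    intro t' ht'
    have h1 : M (a + t' • u) ∈ P + (S : Set E) := by rw [← hV.eq]; exact ⟨_, ht', rfl⟩
    obtain ⟨y, hy, s, hs, hys⟩ := h1
    have h2 : w y + w s = w a + c := by
      rw [← map_add]
      exact (congrArg w hys).trans (by
        rw [map_add, map_smul, map_add, map_smul, hwMu, smul_zero, add_zero, hsum])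
    have h3 := hPmax y hy
    have h4 := hs₀max s hs
    have h5 : w y = w a := by linarith
    have h6 : w s = c := by linarith
    obtain ⟨t, ht, -, -, rfl⟩ := hface y hy h5
    exact ⟨t, ht, s, Finset.mem_filter.2 ⟨hs, h6⟩, by rw [← map_smul, ← map_add]; exact hys⟩
  -- the eigenvalue
  have hs₀D : s₀ ∈ D := Finset.mem_filter.2 ⟨hs₀, rfl⟩
  obtain ⟨μ, hμ⟩ : ∃ μ : ℝ, M u = μ • u := by
    obtain ⟨p, -, hp⟩ := hforw 0 h0A s₀ hs₀D
    obtain ⟨q, -, hq⟩ := hforw 1 h1A s₀ hs₀D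
    have h1 : u = (q - p) • M u := by
      rw [sub_smul]
      rw [zero_smul, add_zero] at hp
      rw [one_smul] at hq
      have e1 : a + u + s₀ - (a + s₀) = M a + q • M u - (M a + p • M u) := by rw [hq, hp]
      have e2 : a + u + s₀ - (a + s₀) = u := by abel
      have e3 : M a + q • M u - (M a + p • M u) = q • M u - p • M u := by abel
      rw [e2, e3] at e1
      exact e1
    have h2 : q - p ≠ 0 := by
      intro h
      rw [h, zero_smul] at h1
      exact hu0 h1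
    refine ⟨(q - p)⁻¹, ?_⟩
    rw [eq_inv_smul_iff₀ h2]
    exact h1.symm
  have hμ0 : μ ≠ 0 := by
    rintro rfl
    rw [zero_smul] at hμ
    exact hu0 ((LinearEquiv.map_eq_zero_iff _).1 hμ)
  have hμnn : 0 ≤ μ := by
    obtain ⟨wa, hwa⟩ := hV.exposed a ha
    have h1 := (hfan wa a ha).1 (fun x hx => hwa.le hx) b hb
    have h2 := hwa.2 b hb hab.symm
    have h3 : wa (M u) ≤ 0 := by rw [hu, map_sub, map_sub]; linarith
    have h4 : wa u < 0 := by rw [hu, map_sub]; linarith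
    rw [hμ, map_smul, smul_eq_mul] at h3
    by_contra hcon
    push Not at hcon
    have := mul_pos_of_neg_of_neg hcon h4
    linarith
  have hμpos : 0 < μ := lt_of_le_of_ne hμnn (Ne.symm hμ0)
  -- parametrization of `D`
  have hDpar : ∀ s ∈ D, ∃ τ : ℝ, s = M a - a + τ • u := by
    intro s hs
    obtain ⟨p, -, hp⟩ := hforw 0 h0A s hs
    refine ⟨p * μ, ?_⟩
    rw [zero_smul, add_zero, hμ, smul_smul] at hp
    rw [eq_sub_of_add_eq' hp]
    abel
  choose! τ hτ using hDpar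
  let D' : Finset ℝ := D.image τ
  have hτinj : Set.InjOn τ D := by
    intro s hs s' hs' h
    rw [hτ s hs, hτ s' hs', h]
  have hcardD : D'.card = D.card := Finset.card_image_of_injOn hτinj
  have hforw' : ∀ t ∈ A, ∀ x ∈ D', ∃ t' ∈ A, t + x = μ * t' := by
    intro t ht x hx
    obtain ⟨s, hs, rfl⟩ := Finset.mem_image.1 hx
    obtain ⟨t', ht', he⟩ := hforw t ht s hs
    refine ⟨t', ht', ?_⟩
    have h1 : (t + τ s) • u = (μ * t') • u := by
      have e1 : a + t • u + s = M a + (t + τ s) • u := by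
        conv_lhs => rw [hτ s hs]
        rw [add_smul]; abel
      rw [e1, hμ, smul_smul] at he
      rw [mul_comm]
      exact add_left_cancel he
    exact smul_left_injective ℝ hu0 h1
  have hback' : ∀ t' ∈ A, ∃ t ∈ A, ∃ x ∈ D', t + x = μ * t' := by
    intro t' ht'
    obtain ⟨t, ht, s, hs, he⟩ := hback t' ht'
    refine ⟨t, ht, τ s, Finset.mem_image_of_mem _ hs, ?_⟩
    have h1 : (t + τ s) • u = (μ * t') • u := by
      have e1 : a + t • u + s = M a + (t + τ s) • u := by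
        conv_lhs => rw [hτ s hs]
        rw [add_smul]; abel
      rw [e1, hμ, smul_smul] at he
      rw [mul_comm]
      exact add_left_cancel he
    exact smul_left_injective ℝ hu0 h1
  have hDnn : ∀ x ∈ D', 0 ≤ x := by
    intro x hx
    obtain ⟨t', ht', he⟩ := hforw' 0 h0A x hx
    rw [zero_add] at he
    rw [he]
    exact mul_nonneg hμnn (hA01 t' ht').1
  have hDle : ∀ x ∈ D', x ≤ μ - 1 := by
    intro x hx
    obtain ⟨t', ht', he⟩ := hforw' 1 h1A x hx
    have : μ * t' ≤ μ * 1 := mul_le_mul_of_nonneg_left (hA01 t' ht').2 hμnn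
    linarith
  have h0D : (0 : ℝ) ∈ D' := by
    obtain ⟨t, ht, x, hx, he⟩ := hback' 0 h0A
    rw [mul_zero] at he
    have h1 := (hA01 t ht).1
    have h2 := hDnn x hx
    have : x = 0 := by linarith
    rwa [← this]
  have hμ1 : 1 < μ := by
    have h1 : 1 ≤ μ := by have := hDle 0 h0D; linarith
    refine lt_of_le_of_ne h1 fun h => ?_
    rw [← h, one_smul] at hμ
    exact hu0 (hM1 u hμ)
  have hlow : μ ≤ D'.card := by
    refine lower_bound hμ1 (fun t ht => hA01 t ht) h1A h0D hforw' hback' ?_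
    obtain ⟨κ, hκ, Q, hQ, hPQ⟩ := hconv
    refine ⟨κ, hκ, fun k => {t : ℝ | a + t • u ∈ Q k}, fun k => ?_, ?_⟩
    · intro x hx y hy α β hα hβ hαβ
      have h1 := hQ k hx hy hα hβ hαβ
      have e1 : α • (a + x • u) + β • (a + y • u) = a + (α • x + β • y) • u := by
        rw [smul_add, smul_add, smul_smul, smul_smul, smul_eq_mul, smul_eq_mul, add_smul]
        have : α • a + β • a = a := by rw [← add_smul, hαβ, one_smul]
        calc _ = (α • a + β • a) + ((α * x) • u + (β * y) • u) := by abel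
          _ = _ := by rw [this]
      rw [e1] at h1
      exact h1
    · ext t
      simp only [A, mem_ofPred_eq, hPQ, mem_iUnion]
  have hup : (D'.card : ℝ) ≤ μ := by
    refine upper_bound hT hu0 hμ1 hμ (p := M a - a) (fun x hx => ?_) hDnn hDle
    obtain ⟨s, hs, rfl⟩ := Finset.mem_image.1 hx
    rw [← hτ s hs]
    exact (Finset.mem_filter.1 hs).1
  have hμD : μ = D'.card := le_antisymm hlow hup
  have hone : 1 < D'.card := by
    have : (1 : ℝ) < D'.card := by rw [← hμD]; exact hμ1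
    exact_mod_cast this
  refine ⟨D'.card, hone, ?_, ?_, ?_⟩
  · rw [hμ, hμD]
  · obtain ⟨x, hx, hx0⟩ := Finset.exists_mem_ne hone 0
    obtain ⟨s, hs, rfl⟩ := Finset.mem_image.1 hx
    obtain ⟨s', hs', hs0⟩ := Finset.mem_image.1 h0D
    refine ⟨s, (Finset.mem_filter.1 hs).1, s', (Finset.mem_filter.1 hs').1, τ s, hx0, ?_⟩
    have e1 := hτ s hs
    have e2 := hτ s' hs'
    rw [hs0, zero_smul, add_zero] at e2
    rw [sub_eq_iff_eq_add]
    conv_rhs => rw [e2]
    rw [add_comm]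
    exact e1
  · intro c' hc'1 hc'2 _
    have hcc : c' = c := by
      obtain ⟨s, hs, hsc⟩ := hc'2
      exact le_antisymm (hsc ▸ hs₀max s hs) (hc'1 s₀ hs₀)
    subst hcc
    rw [hcardD]
    simp only [D]
    congr 1
    ext s
    simp only [Finset.mem_filter]

end Edge

end Pool.Agent.PolyTile
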