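import Mathlib
import Pool.Agent.Lib.PolyTile.Edge

/-!
Edge directions span, and the eigenbasis.
-/

open Set Filter Topology MeasureTheory
open scoped Pointwise

namespace Pool.Agent.PolyTile

section Pencil

variable {E : Type*} [AddCommGroup E] [Module ℝ E]

/-- Choosing endpoints on a collinear face. -/
lemma endpoints {X : Finset E} {w : E →ₗ[ℝ] ℝ} {a₀ b₀ : E} (ha₀ : a₀ ∈ X) (hb₀ : b₀ ∈ X)
    (hab : a₀ ≠ b₀) (hmax : ∀ x ∈ X, w x ≤ w a₀) (hwb : w b₀ = w a₀)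
    (hcol : ∀ x ∈ X, w x = w a₀ → ∃ t : ℝ, x - a₀ = t • (b₀ - a₀)) :
    ∃ a ∈ X, ∃ b ∈ X, a ≠ b ∧ w a = w a₀ ∧ w b = w a ∧ (∃ t : ℝ, t ≠ 0 ∧ b - a = t • (b₀ - a₀)) ∧
      ∀ x ∈ X, w x = w a → ∃ t : ℝ, 0 ≤ t ∧ t ≤ 1 ∧ x = a + t • (b - a) := by
  classical
  have hu0 : b₀ - a₀ ≠ 0 := sub_ne_zero.2 hab.symm
  choose! t ht using hcol
  let F := X.filter fun x => w x = w a₀
  have hF : F.Nonempty := ⟨a₀, Finset.mem_filter.2 ⟨ha₀, rfl⟩⟩
  obtain ⟨a, haF, hamin⟩ := F.exists_min_image t hF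
  obtain ⟨b, hbF, hbmax⟩ := F.exists_max_image t hF
  obtain ⟨ha, hwa⟩ := Finset.mem_filter.1 haF
  obtain ⟨hb, hwb'⟩ := Finset.mem_filter.1 hbF
  have h0 : t a₀ = 0 := by
    have h1 := ht a₀ ha₀ rfl
    rw [sub_self] at h1
    exact (smul_eq_zero.1 h1.symm).resolve_right hu0
  have h1 : t b₀ = 1 := by
    have h1 := ht b₀ hb₀ hwb
    have h2 : (t b₀ - 1) • (b₀ - a₀) = 0 := by rw [sub_smul, ← h1, one_smul, sub_self]
    have := (smul_eq_zero.1 h2).resolve_right hu0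
    linarith
  have hlt : t a < t b := by
    have e1 := hamin a₀ (Finset.mem_filter.2 ⟨ha₀, rfl⟩)
    have e2 := hbmax b₀ (Finset.mem_filter.2 ⟨hb₀, hwb⟩)
    linarith
  have hba : b - a = (t b - t a) • (b₀ - a₀) := by
    rw [sub_smul, ← ht a ha hwa, ← ht b hb hwb']; abel
  refine ⟨a, ha, b, hb, ?_, hwa, by rw [hwb', hwa], ⟨t b - t a, by linarith, hba⟩, ?_⟩
  · rintro rfl; exact lt_irrefl _ hlt
  · intro x hx hwx
    rw [hwa] at hwx
    have e1 := hamin x (Finset.mem_filter.2 ⟨hx, hwx⟩)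
    have e2 := hbmax x (Finset.mem_filter.2 ⟨hx, hwx⟩)
    have h3 : 0 < t b - t a := by linarith
    refine ⟨(t x - t a) / (t b - t a), div_nonneg (by linarith) h3.le,
      (div_le_one h3).2 (by linarith), ?_⟩
    rw [hba, smul_smul, div_mul_cancel₀ _ h3.ne', sub_smul, ← ht a ha hwa, ← ht x hx hwx]
    abel

/-- For each functional which is not constant on `X` there is an edge on which it is not
constant. -/
theorem exists_edge {X : Finset E} (ℓ : E →ₗ[ℝ] ℝ) {x₀ y₀ : E} (hx₀ : x₀ ∈ X) (hy₀ : y₀ ∈ X)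
    (hℓ : ℓ x₀ ≠ ℓ y₀) :
    ∃ (w : E →ₗ[ℝ] ℝ) (a b : E), a ∈ X ∧ b ∈ X ∧ a ≠ b ∧ (∀ x ∈ X, w x ≤ w a) ∧ w b = w a ∧
      (∀ x ∈ X, w x = w a → ∃ t : ℝ, 0 ≤ t ∧ t ≤ 1 ∧ x = a + t • (b - a)) ∧ ℓ (b - a) ≠ 0 := by
  classical
  have hXne : X.Nonempty := ⟨x₀, hx₀⟩
  obtain ⟨xm, hxm, hmin⟩ := X.exists_min_image ℓ hXne
  obtain ⟨xp, hxp, hmax⟩ := X.exists_max_image ℓ hXne
  have hlt : ℓ xm < ℓ xp := by
    rcases lt_or_gt_of_ne hℓ with h | h
    · linarith [hmin x₀ hx₀, hmax y₀ hy₀]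
    · linarith [hmin y₀ hy₀, hmax x₀ hx₀]
  let Z : Finset E := ((X ×ˢ X).image (fun q => q.1 - q.2)).filter fun z => z ≠ 0
  have hZX : ∀ x ∈ X, ∀ y ∈ X, x ≠ y → x - y ∈ Z := fun x hx y hy hxy =>
    Finset.mem_filter.2 ⟨Finset.mem_image.2
      ⟨(x, y), Finset.mem_product.2 ⟨hx, hy⟩, rfl⟩, sub_ne_zero.2 hxy⟩
  have hZ0 : ∀ z ∈ Z, z ≠ 0 := fun z hz => (Finset.mem_filter.1 hz).2
  obtain ⟨w0, hw01, hw02⟩ := generic_pert (-ℓ) ((X.filter fun y => ℓ xm < ℓ y).image fun y => xm - y)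
    (by
      intro z hz
      obtain ⟨y, hy, rfl⟩ := Finset.mem_image.1 hz
      have := (Finset.mem_filter.1 hy).2
      rw [LinearMap.neg_apply, map_sub]
      linarith) Z hZ0
  let Z1 : Finset E := ((Z ×ˢ Z).image fun q => w0 q.1 • q.2 - w0 q.2 • q.1).filter fun z => z ≠ 0
  obtain ⟨w1, hw11, hw12⟩ := generic_pert ℓ ((X.filter fun y => ℓ y = ℓ xm).image fun y => xp - y)
    (by
      intro z hz
      obtain ⟨y, hy, rfl⟩ := Finset.mem_image.1 hz
      have := (Finset.mem_filter.1 hy).2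
      rw [map_sub]
      linarith) Z1 (fun z hz => (Finset.mem_filter.1 hz).2)
  let W : ℝ → E →ₗ[ℝ] ℝ := fun t => (1 - t) • w0 + t • w1
  have hWc : ∀ x, Continuous fun t => W t x := by
    intro x
    simp only [W, LinearMap.add_apply, LinearMap.smul_apply, smul_eq_mul]
    fun_prop
  let T : Finset E → Set ℝ := fun Y => ⋃ x ∈ Y, ⋂ y ∈ X, {t | W t y ≤ W t x}
  have hTclosed : ∀ Y, IsClosed (T Y) := by
    intro Y
    refine Y.finite_toSet.isClosed_biUnion fun x _ => ?_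
    exact isClosed_biInter fun y _ => isClosed_le (hWc y) (hWc x)
  let Xm := X.filter fun y => ℓ y = ℓ xm
  let Xp := X.filter fun y => ℓ xm < ℓ y
  have hcover : Icc (0 : ℝ) 1 ⊆ T Xm ∪ T Xp := by
    intro t _
    obtain ⟨x, hx, hxmax⟩ := X.exists_max_image (W t) hXne
    have hmem : t ∈ ⋂ y ∈ X, {t | W t y ≤ W t x} := mem_iInter₂.2 fun y hy => hxmax y hy
    rcases (hmin x hx).lt_or_eq with h | h
    · exact Or.inr (mem_iUnion₂.2 ⟨x, Finset.mem_filter.2 ⟨hx, h⟩, hmem⟩)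
    · exact Or.inl (mem_iUnion₂.2 ⟨x, Finset.mem_filter.2 ⟨hx, h.symm⟩, hmem⟩)
  have hpre : IsPreconnected (Icc (0 : ℝ) 1) := isPreconnected_Icc
  rw [isPreconnected_closed_iff] at hpre
  obtain ⟨t, ht, htm, htp⟩ := hpre (T Xm) (T Xp) (hTclosed _) (hTclosed _) hcover (by
      refine ⟨0, ⟨le_rfl, zero_le_one⟩, ?_⟩
      rcases hcover ⟨le_rfl, zero_le_one⟩ with h | h
      · exact h
      · exfalso
        obtain ⟨x, hx, hx'⟩ := mem_iUnion₂.1 h
        have h1 := mem_iInter₂.1 hx' xm hxm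
        have h2 := hw01 (xm - x) (Finset.mem_image_of_mem _ hx)
        rw [map_sub] at h2
        simp only [W, mem_ofPred_eq, sub_zero, one_smul, zero_smul, add_zero] at h1
        linarith) (by
      refine ⟨1, ⟨zero_le_one, le_rfl⟩, ?_⟩
      rcases hcover ⟨zero_le_one, le_rfl⟩ with h | h
      · exfalso
        obtain ⟨x, hx, hx'⟩ := mem_iUnion₂.1 h
        have h1 := mem_iInter₂.1 hx' xp hxp
        have h2 := hw11 (xp - x) (Finset.mem_image_of_mem _ hx)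
        rw [map_sub] at h2
        simp only [W, mem_ofPred_eq, sub_self, zero_smul, one_smul, zero_add] at h1
        linarith
      · exact h)
  obtain ⟨x, hx, hx'⟩ := mem_iUnion₂.1 htm
  obtain ⟨y, hy, hy'⟩ := mem_iUnion₂.1 htp
  obtain ⟨hxX, hxℓ⟩ := Finset.mem_filter.1 hx
  obtain ⟨hyX, hyℓ⟩ := Finset.mem_filter.1 hy
  have hxmax : ∀ z ∈ X, W t z ≤ W t x := fun z hz => mem_iInter₂.1 hx' z hz
  have hymax : ∀ z ∈ X, W t z ≤ W t y := fun z hz => mem_iInter₂.1 hy' z hz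
  have hWxy : W t y = W t x := le_antisymm (hxmax y hyX) (hymax x hxX)
  have hxy : x ≠ y := by rintro rfl; linarith
  have hcol : ∀ z ∈ X, W t z = W t x → ∃ c : ℝ, z - x = c • (y - x) := by
    intro z hz hWz
    by_cases hzx : z = x
    · exact ⟨0, by rw [hzx, sub_self, zero_smul]⟩
    set p := y - x with hp
    set q := z - x with hq
    have hpZ : p ∈ Z := hZX y hyX x hxX hxy.symm
    have hqZ : q ∈ Z := hZX z hz x hxX hzx
    have hwp : w0 p ≠ 0 := hw02 p hpZ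
    have e1 : (1 - t) * w0 p + t * w1 p = 0 := by
      have : W t p = 0 := by rw [hp, map_sub, hWxy, sub_self]
      simpa [W] using this
    have e2 : (1 - t) * w0 q + t * w1 q = 0 := by
      have : W t q = 0 := by rw [hq, map_sub, hWz, sub_self]
      simpa [W] using this
    have hr : w0 p • q - w0 q • p = 0 := by
      by_contra hne
      have h1 := hw12 (w0 p • q - w0 q • p) (Finset.mem_filter.2 ⟨Finset.mem_image.2
        ⟨(p, q), Finset.mem_product.2 ⟨hpZ, hqZ⟩, rfl⟩, hne⟩)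
      apply h1
      rw [map_sub, map_smul, map_smul, smul_eq_mul, smul_eq_mul]
      have ht0 : t ≠ 0 := by
        rintro rfl
        apply hwp
        linarith
      have e3 : t * (w0 p * w1 q - w0 q * w1 p) = 0 := by linear_combination w0 p * e2 - w0 q * e1
      exact (mul_eq_zero.1 e3).resolve_left ht0
    refine ⟨w0 q / w0 p, ?_⟩
    rw [sub_eq_zero] at hr
    rw [div_eq_inv_mul, mul_smul, ← hr, smul_smul, inv_mul_cancel₀ hwp, one_smul]
  obtain ⟨a, ha, b, hb, hab, hwa, hwb, ⟨c, hc, hbc⟩, hseg⟩ :=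
    endpoints hxX hyX hxy hxmax hWxy hcol
  refine ⟨W t, a, b, ha, hb, hab, fun z hz => by rw [hwa]; exact hxmax z hz, hwb, hseg, ?_⟩
  rw [hbc, map_smul, smul_eq_mul, map_sub]
  exact mul_ne_zero hc (by linarith)

end Pencil

section Basis

variable {E : Type} [NormedAddCommGroup E] [NormedSpace ℝ E] [FiniteDimensional ℝ E]
  [MeasurableSpace E] [BorelSpace E]
variable {M : E ≃ₗ[ℝ] E} {S : Finset E} {P : Set E} {X : Finset E}

lemma nonconst (hT : Tile M S P) (hV : Vert M S P X) {ℓ : E →ₗ[ℝ] ℝ} (hℓ : ℓ ≠ 0) :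
    ∃ x ∈ X, ∃ y ∈ X, ℓ x ≠ ℓ y := by
  by_contra hcon
  push Not at hcon
  obtain ⟨c, hc⟩ := hT.int
  have hXne : X.Nonempty := by
    by_contra h
    rw [Finset.not_nonempty_iff_eq_empty] at h
    have := hV.hull (interior_subset hc)
    rw [h] at this
    simp at this
  obtain ⟨a, ha⟩ := hXne
  have hconst : ∀ x ∈ P, ℓ x = ℓ a := by
    intro x hx
    apply le_antisymm
    · exact conv_le (fun y hy => (hcon y hy a ha).le) (hV.hull hx)
    · have := conv_le (w := -ℓ) (c := - ℓ a) (fun y hy => by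
        rw [LinearMap.neg_apply, hcon y hy a ha]) (hV.hull hx)
      rw [LinearMap.neg_apply] at this
      linarith
  apply hℓ
  ext v
  rw [LinearMap.zero_apply]
  have h1 : ∀ᶠ t in 𝓝 (0 : ℝ), c + t • v ∈ interior P := by
    have hcont : Continuous fun t : ℝ => c + t • v := by fun_prop
    have h2 : Tendsto (fun t : ℝ => c + t • v) (𝓝 0) (𝓝 c) := hcont.tendsto' 0 c (by simp)
    exact h2 (isOpen_interior.mem_nhds hc)
  obtain ⟨ε, hε, h2⟩ := Metric.eventually_nhds_iff.1 h1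
  have h3 := hconst _ (interior_subset (h2 (y := ε / 2) (by
    rw [dist_zero_right, Real.norm_eq_abs, abs_of_pos (by positivity)]; linarith)))
  have h4 := hconst _ (interior_subset hc)
  rw [map_add, map_smul, smul_eq_mul, h4] at h3
  have h5 : ε / 2 * ℓ v = 0 := by linarith
  exact (mul_eq_zero.1 h5).resolve_left (by positivity)

omit [MeasurableSpace E] [BorelSpace E] in
lemma reindex_fin {ι : Type*} (e0 : Module.Basis ι ℝ E) :
    ∃ (d : ℕ) (e : Module.Basis (Fin d) ℝ E), ∀ i, ∃ j, e i = e0 j := by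
  have _ : Finite ι := Module.Finite.finite_basis e0
  obtain ⟨n, ⟨eq⟩⟩ := Finite.exists_equiv_fin ι
  exact ⟨n, e0.reindex eq, fun i => ⟨eq.symm i, by simp⟩⟩

omit [MeasurableSpace E] [BorelSpace E] in
lemma basis_of_span (U : Set E) (h : (⊤ : Submodule ℝ E) ≤ Submodule.span ℝ U) :
    ∃ (d : ℕ) (e : Module.Basis (Fin d) ℝ E), ∀ i, e i ∈ U := by
  obtain ⟨d, e, he⟩ := reindex_fin (Module.Basis.ofSpan h)
  refine ⟨d, e, fun i => ?_⟩
  obtain ⟨j, hj⟩ := he i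
  rw [hj]
  exact Module.Basis.ofSpan_subset h (mem_range_self j)

/-- There is a basis of eigenvectors with integer eigenvalues. -/
theorem exists_eigenbasis (hT : Tile M S P) (hV : Vert M S P X) (hS : S.Nonempty)
    (hfan : ∀ (w : E →ₗ[ℝ] ℝ) (a : E), a ∈ X →
      ((∀ x ∈ X, w x ≤ w a) ↔ ∀ x ∈ X, w (M x) ≤ w (M a)))
    (hM1 : ∀ u, M u = u → u = 0)
    (hconv : ∃ (κ : Type) (_ : Finite κ) (Q : κ → Set E), (∀ k, Convex ℝ (Q k)) ∧ P = ⋃ k, Q k) :
    ∃ (d : ℕ) (e : Module.Basis (Fin d) ℝ E) (m : Fin d → ℕ), (∀ i, 2 ≤ m i) ∧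
      ∀ i, M (e i) = (m i : ℝ) • e i := by
  classical
  let 𝒰 : Set E := {u | ∃ n : ℕ, 2 ≤ n ∧ M u = (n : ℝ) • u}
  have hspan : (⊤ : Submodule ℝ E) ≤ Submodule.span ℝ 𝒰 := by
    by_contra hcon
    have hlt : Submodule.span ℝ 𝒰 < ⊤ := lt_top_iff_ne_top.2 fun h => hcon (le_of_eq h.symm)
    obtain ⟨ℓ, hℓ, hker⟩ := Submodule.exists_le_ker_of_lt_top _ hlt
    obtain ⟨x, hx, y, hy, hxy⟩ := nonconst hT hV hℓ
    obtain ⟨w, a, b, ha, hb, hab, hmax, hwb, hline, hne⟩ := exists_edge ℓ hx hy hxy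
    obtain ⟨n, hn, hMn, -⟩ := edge hT hV hS hfan hM1 hconv w ha hb hab hmax hwb hline
    exact hne (hker (Submodule.subset_span ⟨n, hn, hMn⟩))
  obtain ⟨d, e, he⟩ := basis_of_span 𝒰 hspan
  choose m hm hMm using he
  exact ⟨d, e, m, hm, hMm⟩

end Basis

end Pool.Agent.PolyTile
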