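import Mathlib
import Pool.Agent.Lib.PolyTile.Span
import Pool.Agent.Lib.PolyTile.Direct

/-!
The product structure of the digit set.
-/

open Set Filter Topology MeasureTheory
open scoped Pointwise

namespace Pool.Agent.PolyTile

section FaceCard

variable {E : Type*} [AddCommGroup E] [Module ℝ E]

/-- The number of points in a face of a direct sum of collinear sets. -/
lemma face_card [DecidableEq E] {S J : Finset E} {T' : E → Finset ℝ} {σ0 : E}
    (hS1 : ∀ t : E → ℝ, (∀ v ∈ J, t v ∈ T' v) → σ0 + ∑ v ∈ J, t v • v ∈ S)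
    (hS2 : ∀ s ∈ S, ∃ t : E → ℝ, (∀ v ∈ J, t v ∈ T' v) ∧ s = σ0 + ∑ v ∈ J, t v • v)
    (hne : ∀ v ∈ J, (T' v).Nonempty) {v : E} (hv : v ∈ J) (hv0 : v ≠ 0) {w : E →ₗ[ℝ] ℝ}
    (hwv : w v = 0) (hw : ∀ v' ∈ J.erase v, w v' ≠ 0) :
    ∃ c, (∀ s ∈ S, w s ≤ c) ∧ (∃ s ∈ S, w s = c) ∧
      ∀ [DecidablePred fun s => w s = c], (S.filter fun s => w s = c).card = (T' v).card := by
  classical
  choose! m hm hmax using fun v' (hv' : v' ∈ J) => (T' v').exists_max_image (fun x => x * w v')
    (hne v' hv')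
  have hws : ∀ t : E → ℝ, w (σ0 + ∑ v' ∈ J, t v' • v') = w σ0 + ∑ v' ∈ J, t v' * w v' := by
    intro t
    rw [map_add, map_sum]
    simp only [map_smul, smul_eq_mul]
  refine ⟨w σ0 + ∑ v' ∈ J, m v' * w v', ?_, ?_, ?_⟩
  · intro s hs
    obtain ⟨t, ht, rfl⟩ := hS2 s hs
    rw [hws]
    have := Finset.sum_le_sum fun v' hv' => hmax v' hv' (t v') (ht v' hv')
    linarith
  · exact ⟨_, hS1 m hm, hws m⟩
  · intro _
    have hfilter : (S.filter fun s => w s = w σ0 + ∑ v' ∈ J, m v' * w v') =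
        (T' v).image fun x => σ0 + ∑ v' ∈ J.erase v, m v' • v' + x • v := by
      ext s
      rw [Finset.mem_filter, Finset.mem_image]
      constructor
      · rintro ⟨hs, hsw⟩
        obtain ⟨t, ht, rfl⟩ := hS2 s hs
        rw [hws] at hsw
        have h1 := add_left_cancel hsw
        have h2 := (Finset.sum_eq_sum_iff_of_le fun v' hv' => hmax v' hv' (t v') (ht v' hv')).1 h1
        refine ⟨t v, ht v hv, ?_⟩
        rw [← Finset.add_sum_erase J _ hv]
        have h3 : ∑ v' ∈ J.erase v, m v' • v' = ∑ v' ∈ J.erase v, t v' • v' := by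
          refine Finset.sum_congr rfl fun v' hv' => ?_
          have := h2 v' (Finset.mem_of_mem_erase hv')
          rw [mul_right_cancel₀ (hw v' hv') this]
        rw [h3]
        abel
      · rintro ⟨x, hx, rfl⟩
        have h1 : σ0 + ∑ v' ∈ J.erase v, m v' • v' + x • v =
            σ0 + ∑ v' ∈ J, (Function.update m v x) v' • v' := by
          rw [← Finset.add_sum_erase J _ hv, Function.update_self]
          have : ∑ v' ∈ J.erase v, (Function.update m v x) v' • v' =
              ∑ v' ∈ J.erase v, m v' • v' := by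
            refine Finset.sum_congr rfl fun v' hv' => ?_
            rw [Function.update_of_ne (Finset.ne_of_mem_erase hv')]
          rw [this]
          abel
        refine ⟨?_, ?_⟩
        · rw [h1]
          refine hS1 _ fun v' hv' => ?_
          by_cases h : v' = v
          · rw [h, Function.update_self]; exact hx
          · rw [Function.update_of_ne h]; exact hm v' hv'
        · rw [← Finset.add_sum_erase J (fun v' => m v' * w v') hv, hwv, mul_zero, zero_add,
            map_add, map_add, map_sum, map_smul, hwv, smul_zero, add_zero]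
          simp only [map_smul, smul_eq_mul]
    rw [hfilter, Finset.card_image_of_injective]
    intro x y hxy
    exact smul_left_injective ℝ hv0 (add_left_cancel hxy)

end FaceCard

section Main

variable {E : Type} [NormedAddCommGroup E] [NormedSpace ℝ E] [FiniteDimensional ℝ E]
  [MeasurableSpace E] [BorelSpace E]
variable {M : E ≃ₗ[ℝ] E} {S : Finset E} {P : Set E} {X : Finset E}

/-- The digit set is a direct sum of sets on lines spanned by an eigenbasis. -/
theorem product_structure [Nontrivial E] (hT : Tile M S P) (hV : Vert M S P X) (hXne : X.Nonempty)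
    (hS : S.Nonempty)
    (hfan : ∀ (w : E →ₗ[ℝ] ℝ) (a : E), a ∈ X →
      ((∀ x ∈ X, w x ≤ w a) ↔ ∀ x ∈ X, w (M x) ≤ w (M a)))
    (hM1 : ∀ u, M u = u → u = 0)
    (hconv : ∃ (κ : Type) (_ : Finite κ) (Q : κ → Set E), (∀ k, Convex ℝ (Q k)) ∧ P = ⋃ k, Q k)
    (F : E →₀ ℂ) (hF : F ≠ 0) (lam : ℂ) (hrel : ∀ z, lam * F (M.symm z) = ∑ s ∈ S, F (z - s)) :
    ∃ (d : ℕ) (e : Module.Basis (Fin d) ℝ E) (n : Fin d → ℕ) (T : Fin d → Finset ℝ) (σ0 : E),
      (∀ i, 2 ≤ n i) ∧ (∀ i, M (e i) = (n i : ℝ) • e i) ∧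
      (∀ t : Fin d → ℝ, (∀ i, t i ∈ T i) → σ0 + ∑ i, t i • e i ∈ S) ∧
      ∀ s ∈ S, ∃ t : Fin d → ℝ, (∀ i, t i ∈ T i) ∧ s = σ0 + ∑ i, t i • e i := by
  classical
  obtain ⟨d0, e0, m0, hm0, hMe0⟩ := exists_eigenbasis hT hV hS hfan hM1 hconv
  obtain ⟨J, B, s0, hJ1, hJ2, hcard, hB1, hB2⟩ :=
    direct_sum e0 m0 hm0 M hMe0 S hS F hF lam hrel
  obtain ⟨s1, hs1⟩ := hS
  obtain ⟨β, hβ, -⟩ := hB2 s1 hs1
  -- real parameters
  have hpar : ∀ v ∈ J, ∀ y ∈ B v, ∃ t : ℝ, y = β v + t • v := by
    intro v hv y hy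
    obtain ⟨t, ht⟩ := (hJ1 v hv).2 y hy (β v) (hβ v hv)
    exact ⟨t, by rw [← ht]; abel⟩
  choose! τ hτ using hpar
  let T' : E → Finset ℝ := fun v => (B v).image (τ v)
  have hτinj : ∀ v ∈ J, Set.InjOn (τ v) (B v) := by
    intro v hv y hy y' hy' h
    rw [hτ v hv y hy, hτ v hv y' hy', h]
  have hT'card : ∀ v ∈ J, (T' v).card = (B v).card := fun v hv =>
    Finset.card_image_of_injOn (hτinj v hv)
  have hT'ne : ∀ v ∈ J, (T' v).Nonempty := fun v hv =>
    ⟨τ v (β v), Finset.mem_image_of_mem _ (hβ v hv)⟩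
  let σ0 : E := ∑ v ∈ J, β v - s0
  have hS1 : ∀ t : E → ℝ, (∀ v ∈ J, t v ∈ T' v) → σ0 + ∑ v ∈ J, t v • v ∈ S := by
    intro t ht
    obtain ⟨s, hs, he⟩ := hB1 (fun v => β v + t v • v) (fun v hv => by
      obtain ⟨y, hy, hty⟩ := Finset.mem_image.1 (ht v hv)
      rw [← hty, ← hτ v hv y hy]
      exact hy)
    rw [Finset.sum_add_distrib] at he
    have : σ0 + ∑ v ∈ J, t v • v = s := by
      simp only [σ0]
      rw [sub_add_eq_add_sub, he, add_sub_cancel_left]
    rw [this]
    exact hs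
  have hS2 : ∀ s ∈ S, ∃ t : E → ℝ, (∀ v ∈ J, t v ∈ T' v) ∧ s = σ0 + ∑ v ∈ J, t v • v := by
    intro s hs
    obtain ⟨f, hf, he⟩ := hB2 s hs
    refine ⟨fun v => τ v (f v), fun v hv => Finset.mem_image_of_mem _ (hf v hv), ?_⟩
    have h1 : ∑ v ∈ J, f v = ∑ v ∈ J, β v + ∑ v ∈ J, τ v (f v) • v := by
      rw [← Finset.sum_add_distrib]
      exact Finset.sum_congr rfl fun v hv => hτ v hv _ (hf v hv)
    rw [h1] at he
    simp only [σ0]
    rw [sub_add_eq_add_sub, he, add_sub_cancel_left]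
  -- eigenvectors
  have hkey : ∀ v ∈ J, 2 ≤ (T' v).card → M v = ((T' v).card : ℝ) • v := by
    intro v hv hv2
    have hv0 : v ≠ 0 := (hJ1 v hv).1
    let Z : Finset E := J.erase v ∪
      ((X ×ˢ X).image (fun q => q.1 - q.2)).filter fun z => ∀ t : ℝ, z ≠ t • v
    obtain ⟨w, hwv, hw⟩ := exists_functional v Z (by
      intro z hz t
      rcases Finset.mem_union.1 hz with hz | hz
      · exact hJ2 v hv z (Finset.mem_of_mem_erase hz) (Finset.ne_of_mem_erase hz).symm t
      · exact (Finset.mem_filter.1 hz).2 t)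
    obtain ⟨c, hc1, hc2, hc3⟩ := face_card hS1 hS2 hT'ne hv hv0 hwv
      (fun v' hv' => hw v' (Finset.mem_union_left _ hv'))
    have hSw := @hc3 (Classical.decPred _)
    obtain ⟨a0, ha0, hmax⟩ := X.exists_max_image w hXne
    -- a second maximizer
    have hex : ∃ b0 ∈ X, b0 ≠ a0 ∧ w b0 = w a0 := by
      by_contra hcon
      push Not at hcon
      have humx : Umx (w.comp (M : E →ₗ[ℝ] E)) X a0 := by
        refine ⟨ha0, fun x hx hxa => ?_⟩
        have h1 := (hfan w a0 ha0).1 hmax x hx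
        refine lt_of_le_of_ne h1 fun h2 => ?_
        have h3 : ∀ y ∈ X, w (M y) ≤ w (M x) := fun y hy => by
          have h4 := (hfan w a0 ha0).1 hmax y hy
          simp only [LinearMap.comp_apply, LinearEquiv.coe_coe] at h2
          rw [h2]; exact h4
        have h4 := (hfan w x hx).2 h3 a0 ha0
        exact hcon x hx hxa (le_antisymm (hmax x hx) h4)
      have hsub : ∀ s ∈ S, w s = c → s = M a0 - a0 := by
        intro s hs hsc
        have h1 : a0 + s ∈ M '' P := by rw [hV.eq]; exact ⟨a0, hV.sub ha0, s, hs, rfl⟩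
        obtain ⟨p, hp, hps⟩ := h1
        have h2 : w (M a0) ≤ w (M p) := by
          have h3 : M a0 ∈ P + (S : Set E) := by rw [← hV.eq]; exact ⟨a0, hV.sub ha0, rfl⟩
          obtain ⟨y, hy, s', hs', hys⟩ := h3
          have h4 : w y ≤ w a0 := conv_le hmax (hV.hull hy)
          have h5 := hc1 s' hs'
          have h6 : w (M a0) = w y + w s' := (congrArg w hys).symm.trans (map_add w y s')
          rw [hps, map_add, h6, hsc]
          linarith
        have h3 : p = a0 := conv_umx humx (hV.hull hp) h2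
        rw [h3] at hps
        rw [hps]; abel
      have hle1 : (S.filter fun s => w s = c).card ≤ 1 := by
        rw [Finset.card_le_one]
        intro s hs s' hs'
        obtain ⟨h1, h2⟩ := Finset.mem_filter.1 hs
        obtain ⟨h3, h4⟩ := Finset.mem_filter.1 hs'
        rw [hsub s h1 h2, hsub s' h3 h4]
      have : (S.filter fun s => w s = c).card = (T' v).card := by
        rw [← hSw]
      omega
    obtain ⟨b0, hb0, hba, hwb⟩ := hex
    -- collinearity
    have hcolv : ∀ x ∈ X, w x = w a0 → ∃ t : ℝ, x - a0 = t • v := by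
      intro x hx hwx
      by_contra hcon
      push Not at hcon
      refine hw (x - a0) (Finset.mem_union_right _ (Finset.mem_filter.2 ⟨Finset.mem_image.2
        ⟨(x, a0), Finset.mem_product.2 ⟨hx, ha0⟩, rfl⟩, hcon⟩)) ?_
      rw [map_sub, hwx, sub_self]
    obtain ⟨r, hr⟩ := hcolv b0 hb0 hwb
    have hr0 : r ≠ 0 := by
      rintro rfl
      rw [zero_smul, sub_eq_zero] at hr
      exact hba hr
    obtain ⟨a, ha, b, hb, hab, hwa, hwb', ⟨q, hq, hbq⟩, hseg⟩ := endpoints ha0 hb0 hba.symm hmax hwb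
      (fun x hx hwx => by
        obtain ⟨t, ht⟩ := hcolv x hx hwx
        exact ⟨t / r, by rw [ht, hr, smul_smul, div_mul_cancel₀ _ hr0]⟩)
    obtain ⟨n, hn2, hMn, -, hn⟩ := edge hT hV ⟨s1, hs1⟩ hfan hM1 hconv w ha hb hab
      (fun x hx => by rw [hwa]; exact hmax x hx) hwb' hseg
    have hn' := @hn c hc1 hc2 (Classical.decPred _)
    have hnT : n = (T' v).card := by rw [← hn', hSw]
    rw [← hnT]
    have hbv : b - a = (q * r) • v := by rw [hbq, hr, smul_smul]
    rw [hbv, map_smul, smul_comm] at hMn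
    exact smul_right_injective E (mul_ne_zero hq hr0) hMn
  -- the set of directions
  let J' := J.filter fun v => 2 ≤ (T' v).card
  have hspan : (⊤ : Submodule ℝ E) ≤ Submodule.span ℝ (J' : Set E) := by
    by_contra hcon
    have hlt : Submodule.span ℝ (J' : Set E) < ⊤ := lt_top_iff_ne_top.2 fun h =>
      hcon (le_of_eq h.symm)
    obtain ⟨ℓ, hℓ, hker⟩ := Submodule.exists_le_ker_of_lt_top _ hlt
    obtain ⟨x, hx, y, hy, hxy⟩ := nonconst hT hV hℓ
    obtain ⟨w, a, b, ha, hb, hab, hmax, hwb, hline, hne⟩ := exists_edge ℓ hx hy hxy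
    obtain ⟨n, hn, hMn, ⟨s, hs, s', hs', t, ht, hss⟩, -⟩ :=
      edge hT hV ⟨s1, hs1⟩ hfan hM1 hconv w ha hb hab hmax hwb hline
    have hconst : ∀ s ∈ S, ℓ s = ℓ (σ0 + ∑ v ∈ J, τ v (β v) • v) := by
      intro s hs
      obtain ⟨t, ht, rfl⟩ := hS2 s hs
      rw [map_add, map_add, map_sum, map_sum]
      congr 1
      refine Finset.sum_congr rfl fun v hv => ?_
      by_cases h2 : 2 ≤ (T' v).card
      · have : ℓ v = 0 := hker (Submodule.subset_span (Finset.mem_coe.2
          (Finset.mem_filter.2 ⟨hv, h2⟩)))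
        rw [map_smul, map_smul, this, smul_zero, smul_zero]
      · have h3 : (T' v).card ≤ 1 := by omega
        rw [Finset.card_le_one] at h3
        rw [h3 _ (ht v hv) _ (Finset.mem_image_of_mem _ (hβ v hv))]
    have h1 : ℓ (s - s') = 0 := by rw [map_sub, hconst s hs, hconst s' hs', sub_self]
    rw [hss, map_smul, smul_eq_mul] at h1
    exact mul_ne_zero ht hne h1
  obtain ⟨d, e, he⟩ := basis_of_span (J' : Set E) hspan
  have heJ : ∀ i, e i ∈ J' := he
  let n : Fin d → ℕ := fun i => (T' (e i)).card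
  have hn2 : ∀ i, 2 ≤ n i := fun i => (Finset.mem_filter.1 (heJ i)).2
  have hMe : ∀ i, M (e i) = (n i : ℝ) • e i := fun i =>
    hkey _ (Finset.mem_filter.1 (heJ i)).1 (hn2 i)
  have hdet : LinearMap.det (M : E →ₗ[ℝ] E) = ∏ i, (n i : ℝ) := by
    rw [← LinearMap.det_toMatrix e]
    have : LinearMap.toMatrix e e (M : E →ₗ[ℝ] E) = Matrix.diagonal fun i => (n i : ℝ) := by
      ext i j
      rw [LinearMap.toMatrix_apply, Matrix.diagonal_apply]
      simp only [LinearEquiv.coe_coe]
      rw [hMe, map_smul, Finsupp.smul_apply, Module.Basis.repr_self, Finsupp.single_apply]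
      by_cases h : i = j
      · rw [if_pos h, if_pos h.symm, h]; simp
      · rw [if_neg h, if_neg (fun h' => h h'.symm)]; simp
    rw [this, Matrix.det_diagonal]
  have hSprod : S.card = ∏ v ∈ J', (T' v).card := by
    rw [hcard, ← Finset.prod_congr rfl hT'card]
    symm
    refine Finset.prod_subset (Finset.filter_subset _ _) fun v hv hvn => ?_
    have h1 : ¬ 2 ≤ (T' v).card := fun h => hvn (Finset.mem_filter.2 ⟨hv, h⟩)
    have h2 := Finset.card_pos.2 (hT'ne v hv)
    omega
  have himg : Finset.univ.image e = J' := by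
    have hsub : Finset.univ.image e ⊆ J' := by
      intro v hv
      obtain ⟨i, -, rfl⟩ := Finset.mem_image.1 hv
      exact heJ i
    have h1 : ∏ v ∈ Finset.univ.image e, (T' v).card = ∏ i, n i := by
      rw [Finset.prod_image fun i _ j _ h => e.injective h]
    have h2 : ∏ i, n i = S.card := by
      have h3 := hT.card
      rw [hdet, abs_of_nonneg (Finset.prod_nonneg fun i _ => Nat.cast_nonneg _)] at h3
      exact_mod_cast h3.symm
    have h3 : (∏ v ∈ J' \ Finset.univ.image e, (T' v).card) * S.card = S.card := by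
      conv_lhs => rw [← h2, ← h1]
      rw [Finset.prod_sdiff hsub, ← hSprod]
    have hSpos : 0 < S.card := Finset.card_pos.2 ⟨s1, hs1⟩
    have h4 : ∏ v ∈ J' \ Finset.univ.image e, (T' v).card = 1 :=
      Nat.eq_of_mul_eq_mul_right hSpos (by rw [h3, one_mul])
    refine Finset.Subset.antisymm hsub fun v hv => ?_
    by_contra hvn
    have h5 : (T' v).card ∣ 1 := by
      rw [← h4]
      exact Finset.dvd_prod_of_mem (fun v => (T' v).card) (Finset.mem_sdiff.2 ⟨hv, hvn⟩)
    have h6 := (Finset.mem_filter.1 hv).2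
    have h7 := Nat.dvd_one.1 h5
    omega
  -- conclusion
  let σ1 : E := σ0 + ∑ v ∈ J \ J', τ v (β v) • v
  have hsumJ : ∀ t : E → ℝ, (∀ v ∈ J, t v ∈ T' v) →
      σ0 + ∑ v ∈ J, t v • v = σ1 + ∑ i, t (e i) • e i := by
    intro t ht
    have h1 : ∑ v ∈ J, t v • v = ∑ v ∈ J \ J', t v • v + ∑ v ∈ J', t v • v :=
      (Finset.sum_sdiff (Finset.filter_subset _ _)).symm
    have h2 : ∑ v ∈ J \ J', t v • v = ∑ v ∈ J \ J', τ v (β v) • v := by
      refine Finset.sum_congr rfl fun v hv => ?_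
      obtain ⟨hvJ, hvn⟩ := Finset.mem_sdiff.1 hv
      have h3 : (T' v).card ≤ 1 := by
        by_contra h
        exact hvn (Finset.mem_filter.2 ⟨hvJ, by omega⟩)
      rw [Finset.card_le_one] at h3
      rw [h3 _ (ht v hvJ) _ (Finset.mem_image_of_mem _ (hβ v hvJ))]
    have h3 : ∑ v ∈ J', t v • v = ∑ i, t (e i) • e i := by
      rw [← himg, Finset.sum_image fun i _ j _ h => e.injective h]
    rw [h1, h2, h3]
    simp only [σ1]
    abel
  refine ⟨d, e, n, fun i => T' (e i), σ1, hn2, hMe, ?_, ?_⟩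
  · intro t ht
    let t' : E → ℝ := fun v => if h : ∃ i, e i = v then t h.choose else τ v (β v)
    have ht'e : ∀ i, t' (e i) = t i := by
      intro i
      have hex : ∃ j, e j = e i := ⟨i, rfl⟩
      simp only [t', dif_pos hex]
      congr 1
      exact e.injective hex.choose_spec
    have ht' : ∀ v ∈ J, t' v ∈ T' v := by
      intro v hv
      by_cases hex : ∃ i, e i = v
      · obtain ⟨i, rfl⟩ := hex
        rw [ht'e]; exact ht i
      · simp only [t', dif_neg hex]
        exact Finset.mem_image_of_mem _ (hβ v hv)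
    have h1 := hS1 t' ht'
    rw [hsumJ t' ht'] at h1
    simp only [ht'e] at h1
    exact h1
  · intro s hs
    obtain ⟨t, ht, rfl⟩ := hS2 s hs
    refine ⟨fun i => t (e i), fun i => ht _ (Finset.mem_filter.1 (heJ i)).1, hsumJ t ht⟩

end Main

end Pool.Agent.PolyTile
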