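import Mathlib
import Pool.Agent.Lib.PolyTile.Product
import Pool.Agent.Lib.PolyTile.HRep
import Pool.Agent.Lib.PolyTile.Box

/-!
Assembling the proof: polyhedral self-affine tiles are parallelepipeds.
-/

open Set Filter Topology MeasureTheory
open scoped Pointwise

namespace Pool.Agent.PolyTile

/-- Polyhedral self-affine tiles are parallelepipeds. -/
theorem assemble {d : ℕ} [Nontrivial (Fin d → ℝ)] (M₀ : (Fin d → ℝ) ≃ₗ[ℝ] (Fin d → ℝ))
    (S₀ : Finset (Fin d → ℝ)) (G : Set (Fin d → ℝ)) (hT₀ : Tile M₀ S₀ G)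
    (hcl : G = closure (interior G)) (hconn : IsConnected (interior G))
    (𝒬 : Finset (Set (Fin d → ℝ)))
    (hQ : ∀ Q ∈ 𝒬, ∃ V : Finset (Fin d → ℝ), Q = convexHull ℝ (V : Set (Fin d → ℝ)))
    (hG : G = ⋃ Q ∈ 𝒬, Q) (hexp : ∀ N : ℕ, 0 < N → ∀ u, (M₀ ^ N) u = u → u = 0) :
    ∃ f : (Fin d → ℝ) ≃ᵃ[ℝ] (Fin d → ℝ), G = f '' Icc 0 1 := by
  classical
  have hGne : G.Nonempty := hT₀.int.mono interior_subset
  choose! V hV using hQ
  -- vertices
  let X₀ : Finset (Fin d → ℝ) := 𝒬.biUnion V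
  have hX1 : (X₀ : Set (Fin d → ℝ)) ⊆ G := by
    intro x hx
    obtain ⟨Q, hQm, hxQ⟩ := Finset.mem_biUnion.1 (Finset.mem_coe.1 hx)
    rw [hG]
    refine mem_iUnion₂.2 ⟨Q, hQm, ?_⟩
    rw [hV Q hQm]
    exact subset_convexHull ℝ _ hxQ
  have hX2 : G ⊆ convexHull ℝ (X₀ : Set (Fin d → ℝ)) := by
    intro x hx
    rw [hG] at hx
    obtain ⟨Q, hQm, hxQ⟩ := mem_iUnion₂.1 hx
    rw [hV Q hQm] at hxQ
    exact convexHull_mono (Finset.coe_subset.2 (Finset.subset_biUnion_of_mem V hQm)) hxQ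
  obtain ⟨X, hXne, hVert₀⟩ := exists_vert X₀ hX1 hX2 hGne hT₀.eq
  have hSne : ∀ {M : (Fin d → ℝ) ≃ₗ[ℝ] (Fin d → ℝ)} {S : Finset (Fin d → ℝ)}, Tile M S G →
      S.Nonempty := by
    intro M S hT
    obtain ⟨x, hx⟩ := hGne
    have h1 : M x ∈ G + (S : Set (Fin d → ℝ)) := by rw [← hT.eq]; exact ⟨x, hx, rfl⟩
    obtain ⟨-, -, s, hs, -⟩ := h1
    exact ⟨s, hs⟩
  obtain ⟨N, hN, hfan⟩ := hVert₀.fan hXne (hSne hT₀)
  -- pass to the power
  set M := M₀ ^ N with hM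
  set S := pw M₀ S₀ N with hS
  have hT : Tile M S G := tile_pow hT₀ N
  have hVt : Vert M S G X := ⟨hVert₀.sub, hVert₀.hull, hVert₀.exposed, hT.eq⟩
  have hM1 : ∀ u, M u = u → u = 0 := hexp N hN
  have hconv : ∃ (κ : Type) (_ : Finite κ) (Q : κ → Set (Fin d → ℝ)),
      (∀ k, Convex ℝ (Q k)) ∧ G = ⋃ k, Q k := by
    refine ⟨𝒬, inferInstance, fun Q => Q.1, fun Q => ?_, ?_⟩
    · have h1 : Convex ℝ (Q.1 : Set (Fin d → ℝ)) := by
        rw [hV Q.1 Q.2]; exact convex_convexHull ℝ _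
      exact h1
    · conv_lhs => rw [hG]
      ext x
      simp only [mem_iUnion, exists_prop, Subtype.exists]
  -- the finitely supported function
  have hH : ∀ Q ∈ 𝒬, ∃ C : Finset (((Fin d → ℝ) →ₗ[ℝ] ℝ) × ℝ), Q = HSet C := by
    intro Q hQm
    obtain ⟨C, hC⟩ := polytope_hrep (V Q)
    exact ⟨C, by rw [← hC]; exact hV Q hQm⟩
  choose! C hC using hH
  have hG2 : G = ⋃ c ∈ 𝒬.image C, HSet c := by
    conv_lhs => rw [hG]
    ext x
    simp only [mem_iUnion, Finset.mem_image, exists_prop]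
    constructor
    · rintro ⟨Q, hQm, hx⟩
      exact ⟨C Q, ⟨Q, hQm, rfl⟩, by rw [← hC Q hQm]; exact hx⟩
    · rintro ⟨_, ⟨Q, hQm, rfl⟩, hx⟩
      exact ⟨Q, hQm, by rw [hC Q hQm]; exact hx⟩
  obtain ⟨v, hvX⟩ := hXne
  obtain ⟨w₀, hw₀⟩ := hVert₀.exposed v hvX
  have hexpo : ∀ x ∈ G, x ≠ v → w₀ x < w₀ v := by
    intro x hx hxv
    by_contra hcon
    push Not at hcon
    exact hxv (conv_umx hw₀ (hVert₀.hull hx) hcon)
  obtain ⟨F, lam, hF, hrel⟩ := exists_finsupp (volume : Measure (Fin d → ℝ)) hG2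
    hT.compact.isClosed hcl.le (hVert₀.sub hvX) hexpo M S (hT.indicator_rel volume)
  -- product structure
  obtain ⟨d', e, n, T, σ0, hn, hMe, hS1, hS2⟩ := product_structure hT hVt ⟨v, hvX⟩ (hSne hT) hfan
    hM1 hconv F hF lam hrel
  have hd : d' = d := by
    have h1 := Module.finrank_eq_card_basis e
    rw [Module.finrank_fin_fun, Fintype.card_fin] at h1
    exact h1.symm
  subst hd
  obtain ⟨a, b, hab, hbox⟩ := box_of_coords e hT.compact hcl hconn
    (fun x hx => mem_of_coords e hT.compact hGne hT.eq hn hMe hS1 hS2 hx)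
  obtain ⟨f, hf⟩ := cube_of_box e hab
  exact ⟨f, by rw [← hf]; exact hbox⟩

/-- No power of an expanding matrix has a fixed vector. -/
theorem no_fixed {d : ℕ} (M : Matrix (Fin d) (Fin d) ℝ)
    (hM : ∀ z ∈ spectrum ℂ (M.map (algebraMap ℝ ℂ)), 1 < ‖z‖) (N : ℕ) (hN : 0 < N)
    (u : Fin d → ℝ) (hu : (M ^ N).mulVec u = u) : u = 0 := by
  by_contra hne
  set A := M.map (algebraMap ℝ ℂ) with hA
  have hd : Nontrivial (Matrix (Fin d) (Fin d) ℂ) := by
    by_contra hcon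
    rw [not_nontrivial_iff_subsingleton] at hcon
    have h1 : (1 : Matrix (Fin d) (Fin d) ℂ) = 0 := Subsingleton.elim _ _
    apply hne
    funext i
    have h2 := congrFun (congrFun h1 i) i
    simp at h2
  have h1 : (1 : ℂ) ∈ spectrum ℂ (A ^ N) := by
    rw [spectrum.mem_iff]
    intro hunit
    obtain ⟨U, hU⟩ := hunit
    let uc : Fin d → ℂ := fun i => (u i : ℂ)
    have h2 : (A ^ N).mulVec uc = uc := by
      have h3 : A ^ N = (M ^ N).map (algebraMap ℝ ℂ) := by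
        rw [hA, ← RingHom.mapMatrix_apply, ← RingHom.mapMatrix_apply, map_pow]
      rw [h3]
      funext i
      have h4 := congrFun hu i
      simp only [Matrix.mulVec, dotProduct, Matrix.map_apply, uc] at h4 ⊢
      rw [← h4]
      push_cast
      rfl
    have h5 : (U : Matrix (Fin d) (Fin d) ℂ).mulVec uc = 0 := by
      rw [hU, map_one, Matrix.sub_mulVec, Matrix.one_mulVec, h2, sub_self]
    have h6 : uc = 0 := by
      have h7 : ((↑U⁻¹ : Matrix (Fin d) (Fin d) ℂ) * (U : Matrix (Fin d) (Fin d) ℂ)).mulVec uc = 0 := by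
        rw [← Matrix.mulVec_mulVec, h5, Matrix.mulVec_zero]
      rw [Units.inv_mul, Matrix.one_mulVec] at h7
      exact h7
    apply hne
    funext i
    have := congrFun h6 i
    simpa [uc] using this
  rw [spectrum.map_pow_of_pos A hN] at h1
  obtain ⟨z, hz, hz1⟩ := h1
  have h2 := hM z hz
  have h3 : ‖z‖ ^ N = 1 := by rw [← norm_pow]; simp only at hz1; rw [hz1, norm_one]
  have h4 : 1 < ‖z‖ ^ N := one_lt_pow₀ h2 hN.ne'
  linarith

/-- An expanding matrix is invertible. -/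
theorem det_ne_zero {d : ℕ} (M : Matrix (Fin d) (Fin d) ℝ)
    (hM : ∀ z ∈ spectrum ℂ (M.map (algebraMap ℝ ℂ)), 1 < ‖z‖) : M.det ≠ 0 := by
  intro h
  have h1 : (0 : ℂ) ∈ spectrum ℂ (M.map (algebraMap ℝ ℂ)) := by
    rw [spectrum.mem_iff, map_zero, zero_sub, IsUnit.neg_iff, Matrix.isUnit_iff_isUnit_det]
    have h2 : (M.map (algebraMap ℝ ℂ)).det = algebraMap ℝ ℂ M.det := by
      rw [RingHom.map_det]; rfl
    rw [h2, h, map_zero]
    exact not_isUnit_zero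
  have := hM 0 h1
  rw [norm_zero] at this
  linarith

end Pool.Agent.PolyTile
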